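import Pool.Agent.Lib_helper34.EclF.DER

/-! Wanted names of block DER -/

namespace Pool.Agent.Ecl

alias sol_comp := sol_comp_pr
alias sol_Zt := sol_Zt_pr
alias sol_ce := sol_ce_pr

end Pool.Agent.Ecl
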