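import Pool.Agent.Lib_helper34.EclF.ODE

/-! Wanted names of block ODE -/

namespace Pool.Agent.Ecl

alias ode_unique := ode_unique_pr
alias ode_persist := ode_persist_pr

end Pool.Agent.Ecl
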