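import Pool.Agent.Lib_helper34.EclF.VFC

/-! Wanted names of block VFC -/

namespace Pool.Agent.Ecl

alias isOpen_UU := isOpen_UU_pr
alias contDiffOn_VF := contDiffOn_VF_pr
alias continuousAt_Xin := continuousAt_Xin_pr

end Pool.Agent.Ecl
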