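import Pool.Agent.Lib_helper34.Ecl.Defs
import Pool.Agent.Lib_helper34.EclF.DERA
import Pool.Agent.Lib_helper34.EclF.NR0A
import Pool.Agent.Lib_helper34.EclF.ODEA
import Pool.Agent.Lib_helper34.EclF.VFCA
import Pool.Agent.Lib_helper34.EclF.ZERA

/-!
# Block OPN (helper29): transversal patterns are open
-/

set_option autoImplicit false

namespace Pool.Agent.Ecl

open Set Complex Filter Topology

/-! ### Continuity -/

theorem ec_opn_cont_cw : Continuous cw := by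
  unfold cw
  fun_prop

theorem ec_opn_cont_Fw : Continuous Fw := by
  unfold Fw cS cw cu cv ce
  have h1 : Continuous fun X : E7 => cosh X.2.2.1 := Complex.continuous_cosh.comp (by fun_prop)
  have h2 : Continuous fun X : E7 => sinh X.2.2.1 := Complex.continuous_sinh.comp (by fun_prop)
  have h3 : Continuous fun X : E7 => cj (sinh X.2.2.1) := Complex.continuous_conj.comp h2
  have h4 : Continuous fun X : E7 => cj X.1 := Complex.continuous_conj.comp (by fun_prop)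
  have h5 : Continuous fun X : E7 => normSq (cosh X.2.2.1) := Complex.continuous_normSq.comp h1
  have h6 : Continuous fun X : E7 => ((1 + X.2.2.2.2.2.2 + X.2.2.2.2.2.2 *
      normSq (cosh X.2.2.1) : ℝ) : ℂ) :=
    Complex.continuous_ofReal.comp (by fun_prop)
  have h7 : Continuous fun X : E7 => X.2.1 := by fun_prop
  have h8 : Continuous fun X : E7 => X.2.2.2.1 := by fun_prop
  exact ((((h7.mul h1).mul h3).mul h4).neg).add (h6.mul h8)

theorem ec_opn_cont_Zt : Continuous Zt := Complex.continuous_cosh.comp ec_opn_cont_cw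

theorem ec_opn_cont_dZ : Continuous dZ :=
  (Complex.continuous_sinh.comp ec_opn_cont_cw).mul ec_opn_cont_Fw

theorem ec_opn_solCont {γ : ℝ → E7} {T : ℝ} (h : SolOn VF UU γ T) :
    ContinuousOn γ (Icc 0 T) := fun t ht => (h t ht).1.continuousAt.continuousWithinAt

/-- uniform closeness of continuous functions of nearby curves -/
theorem ec_opn_unif {F : Type*} [PseudoMetricSpace F] {φ : E7 → F} (hφ : Continuous φ)
    {γ1 : ℝ → E7} {T : ℝ} (hc : ContinuousOn γ1 (Icc 0 T)) {ε : ℝ} (hε : 0 < ε) :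
    ∃ δ > 0, ∀ (γ : ℝ → E7), ∀ t ∈ Icc 0 T, dist (γ t) (γ1 t) < δ →
      dist (φ (γ t)) (φ (γ1 t)) < ε := by
  have hK : IsCompact (γ1 '' Icc 0 T) := isCompact_Icc.image_of_continuousOn hc
  have hK' : IsCompact (Metric.cthickening 1 (γ1 '' Icc 0 T)) := hK.cthickening
  have hu := hK'.uniformContinuousOn_of_continuous hφ.continuousOn
  rw [Metric.uniformContinuousOn_iff] at hu
  obtain ⟨δ, hδ, h⟩ := hu ε hε
  refine ⟨min δ 1, lt_min hδ one_pos, fun γ t ht hd => ?_⟩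
  have hmem : γ1 t ∈ γ1 '' Icc 0 T := ⟨t, ht, rfl⟩
  refine h (γ t) ?_ (γ1 t) ?_ (hd.trans_le (min_le_left _ _))
  · exact Metric.mem_cthickening_of_dist_le _ _ _ _ hmem (hd.le.trans (min_le_right _ _))
  · exact Metric.self_subset_cthickening _ hmem

/-- letters are open conditions -/
theorem ec_opn_letter {k : ℕ} {e : Ex} {x : ℝ} (h : Letter k e x) :
    ∃ ε > 0, ∀ y, |y - x| < ε → Letter k e y := by
  have hop : IsOpen {y : ℝ | Letter k e y} := by
    cases e with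
    | mid => exact isOpen_Ioo
    | rgt =>
      exact isOpen_lt (continuous_const : Continuous fun _ : ℝ => (1 : ℝ))
        (by fun_prop : Continuous fun y : ℝ => (-1) ^ k * y)
    | lft =>
      exact isOpen_lt (continuous_const : Continuous fun _ : ℝ => (1 : ℝ))
        (by fun_prop : Continuous fun y : ℝ => -((-1) ^ k * y))
  obtain ⟨ε, hε, hb⟩ := Metric.isOpen_iff.1 hop x h
  exact ⟨ε, hε, fun y hy => hb (by rwa [Metric.mem_ball, Real.dist_eq])⟩

theorem ec_opn_min {m : ℕ} (f : Fin m → ℝ) (hf : ∀ i, 0 < f i) : ∃ ε > 0, ∀ i, ε ≤ f i := by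
  induction m with
  | zero => exact ⟨1, one_pos, fun i => i.elim0⟩
  | succ m ih =>
    obtain ⟨ε, hε, h⟩ := ih (fun i => f i.succ) (fun i => hf _)
    refine ⟨min ε (f 0), lt_min hε (hf 0), fun i => ?_⟩
    refine Fin.cases ?_ (fun i => ?_) i
    · exact min_le_right _ _
    · exact (min_le_left _ _).trans (h i)

/-- the letter at a zero persists -/
theorem ec_opn_letter_near {γ1 : ℝ → E7} {k : ℕ} {e : Ex} {s : ℝ} (hc : ContinuousAt γ1 s)
    (h : Letter k e (Zt (γ1 s)).re) :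
    ∃ ε > 0, ∀ (t : ℝ) (X : E7), |t - s| < ε → dist (Zt X) (Zt (γ1 t)) < ε →
      Letter k e (Zt X).re := by
  obtain ⟨ε, hε, hL⟩ := ec_opn_letter h
  have hcZ : ContinuousAt (fun t => Zt (γ1 t)) s := ec_opn_cont_Zt.continuousAt.comp hc
  obtain ⟨ρ, hρ, hd⟩ := Metric.continuousAt_iff.1 hcZ (ε / 2) (half_pos hε)
  refine ⟨min ρ (ε / 2), lt_min hρ (half_pos hε), fun t X ht hX => hL _ ?_⟩
  have h1 : dist (Zt (γ1 t)) (Zt (γ1 s)) < ε / 2 :=
    hd (by rw [Real.dist_eq]; exact ht.trans_le (min_le_left _ _))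
  have h2 : dist (Zt X) (Zt (γ1 t)) < ε / 2 := hX.trans_le (min_le_right _ _)
  have h3 : dist (Zt X) (Zt (γ1 s)) < ε := by
    have := dist_triangle (Zt X) (Zt (γ1 t)) (Zt (γ1 s))
    linarith
  rw [dist_eq_norm] at h3
  calc |(Zt X).re - (Zt (γ1 s)).re| = |(Zt X - Zt (γ1 s)).re| := by rw [Complex.sub_re]
    _ ≤ ‖Zt X - Zt (γ1 s)‖ := Complex.abs_re_le_norm _
    _ < ε := h3

theorem ec_opn_im_close {z w : ℂ} {ε : ℝ} (h : dist z w < ε) : |z.im - w.im| < ε := by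
  rw [dist_eq_norm] at h
  calc |z.im - w.im| = |(z - w).im| := by rw [Complex.sub_im]
    _ ≤ ‖z - w‖ := Complex.abs_im_le_norm _
    _ < ε := h

theorem ec_opn_re_close {z w : ℂ} {ε : ℝ} (h : dist z w < ε) : |z.re - w.re| < ε := by
  rw [dist_eq_norm] at h
  calc |z.re - w.re| = |(z - w).re| := by rw [Complex.sub_re]
    _ ≤ ‖z - w‖ := Complex.abs_re_le_norm _
    _ < ε := h

/-- The eclipses up to the time `b` persist. -/
theorem ec_opn_core {θ0 e0 T : ℝ} {γ1 : ℝ → E7} {m : ℕ} (h1 : 0 < θ0) (h2 : θ0 < Real.pi / 2)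
    (he : 0 ≤ e0) (hT : 0 < T) (h0 : γ1 0 = Xin θ0 e0) (hsol : SolOn VF UU γ1 T) {b : ℝ}
    (hb : 0 < b) (hbT : b ≤ T) (τ : Fin m → ℝ) (hτ : StrictMono τ)
    (hin : ∀ i, 0 < τ i ∧ τ i < b) (L : Fin m → Ex)
    (hend : ∀ i : Fin m, TEnd (i : ℕ) (L i) (γ1 (τ i)))
    (hall : ∀ s, 0 < s → s ≤ b → (Zt (γ1 s)).im = 0 → ∃ i, τ i = s) :
    ∃ δ > 0, ∀ (γ : ℝ → E7) (θ e : ℝ), γ 0 = Xin θ e → SolOn VF UU γ T →
      (∀ t ∈ Icc 0 T, dist (γ t) (γ1 t) < δ) →
      ∃ τ' : Fin m → ℝ, StrictMono τ' ∧ (∀ i, 0 < τ' i ∧ τ' i < b) ∧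
        (∀ i : Fin m, TEnd (i : ℕ) (L i) (γ (τ' i))) ∧
        ∀ s, 0 < s → s ≤ b → (Zt (γ s)).im = 0 → ∃ i, τ' i = s := by
  have hc1 := ec_opn_solCont hsol
  have hmem0 : (0 : ℝ) ∈ Icc 0 T := ⟨le_rfl, hT.le⟩
  obtain ⟨c, hc, δ1, hδ1, hns⟩ :=
    near_start h1 h2 he (hsol 0 hmem0).1.continuousAt h0
  have hpos1 : ∀ s, 0 < s → s ≤ c → s ≤ T → 0 < (Zt (γ1 s)).im :=
    hns γ1 θ0 e0 T hT h0 hsol (fun t _ => by rw [dist_self]; exact hδ1)
  set a : ℝ := min c (b / 2) with ha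
  have ha0 : 0 < a := lt_min hc (half_pos hb)
  have hac : a ≤ c := min_le_left _ _
  have hab : a < b := (min_le_right _ _).trans_lt (half_lt_self hb)
  have hsub : Icc a b ⊆ Icc 0 T := fun t ht => ⟨ha0.le.trans ht.1, ht.2.trans hbT⟩
  have hin' : ∀ i, a < τ i ∧ τ i < b := by
    intro i
    refine ⟨?_, (hin i).2⟩
    by_contra hle
    push Not at hle
    have := hpos1 (τ i) (hin i).1 (hle.trans hac) ((hin i).2.le.trans hbT)
    rw [(hend i).1] at this
    exact lt_irrefl _ this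
  -- letters
  have hlet : ∀ i : Fin m, ∃ ε > 0, ∀ (t : ℝ) (X : E7), |t - τ i| < ε → dist (Zt X) (Zt (γ1 t)) < ε →
      Letter (i : ℕ) (L i) (Zt X).re := fun i =>
    ec_opn_letter_near (hsol (τ i) ⟨(hin i).1.le, (hin i).2.le.trans hbT⟩).1.continuousAt
      (hend i).2.2
  choose ε hε hL using hlet
  obtain ⟨ε', hε', hεm⟩ := ec_opn_min ε hε
  -- zeros
  obtain ⟨δ2, hδ2, hz⟩ := zeros_persist hab (f0 := fun t => (Zt (γ1 t)).im)
    (g0 := fun t => (dZ (γ1 t)).im) (fun t ht => (sol_Zt hsol (hsub ht)).2)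
    (Complex.continuous_im.comp_continuousOn
      (ec_opn_cont_dZ.comp_continuousOn (hc1.mono hsub)))
    τ hτ hin' (fun i => ⟨(hend i).1, (hend i).2.1⟩)
    (fun t ht => hall t (ha0.trans_le ht.1) ht.2) hε'
  obtain ⟨δ3, hδ3, hu3⟩ := ec_opn_unif ec_opn_cont_Zt hc1 (lt_min hδ2 hε')
  obtain ⟨δ4, hδ4, hu4⟩ := ec_opn_unif ec_opn_cont_dZ hc1 hδ2
  refine ⟨min δ1 (min δ3 δ4), lt_min hδ1 (lt_min hδ3 hδ4), fun γ θ e hγ0 hγ hcl => ?_⟩
  have hcl1 : ∀ t ∈ Icc 0 T, dist (γ t) (γ1 t) < δ1 := fun t ht =>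
    (hcl t ht).trans_le (min_le_left _ _)
  have hcl3 : ∀ t ∈ Icc 0 T, dist (Zt (γ t)) (Zt (γ1 t)) < min δ2 ε' := fun t ht =>
    hu3 γ t ht ((hcl t ht).trans_le ((min_le_right _ _).trans (min_le_left _ _)))
  have hcl4 : ∀ t ∈ Icc 0 T, dist (dZ (γ t)) (dZ (γ1 t)) < δ2 := fun t ht =>
    hu4 γ t ht ((hcl t ht).trans_le ((min_le_right _ _).trans (min_le_right _ _)))
  have hpos := hns γ θ e T hT hγ0 hγ hcl1
  obtain ⟨τ', hτ', hin2, hz2, hall2⟩ := hz (fun t => (Zt (γ t)).im) (fun t => (dZ (γ t)).im)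
    (fun t ht => (sol_Zt hγ (hsub ht)).2)
    (fun t ht => ⟨ec_opn_im_close ((hcl3 t (hsub ht)).trans_le (min_le_left _ _)),
      ec_opn_im_close (hcl4 t (hsub ht))⟩)
  refine ⟨τ', hτ', fun i => ⟨ha0.trans (hin2 i).1, (hin2 i).2.1⟩, fun i => ?_, ?_⟩
  · refine ⟨(hz2 i).1, (hz2 i).2, ?_⟩
    refine hL i (τ' i) _ ((hin2 i).2.2.trans_le (hεm i)) ?_
    exact ((hcl3 (τ' i) (hsub ⟨(hin2 i).1.le, (hin2 i).2.1.le⟩)).trans_le
      (min_le_right _ _)).trans_le (hεm i)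
  · intro s hs hsb hs0
    rcases le_or_gt s c with hsc | hsc
    · exact absurd (hpos s hs hsc (hsb.trans hbT)) (by rw [hs0]; exact lt_irrefl _)
    · exact hall2 s ⟨hac.trans hsc.le, hsb⟩ hs0

/-- initial states depend continuously on the parameters -/
theorem ec_opn_init {θ0 e0 : ℝ} (he : 0 ≤ e0) {η' : ℝ} (hη' : 0 < η') :
    ∃ η > 0, ∀ θ e' : ℝ, |θ - θ0| < η → |e' - e0| < η → dist (Xin θ e') (Xin θ0 e0) < η' := by
  obtain ⟨η, hη, h⟩ := Metric.continuousAt_iff.1 (continuousAt_Xin (θ := θ0) he) η' hη'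
  refine ⟨η, hη, fun θ e' h1 h2 => h (x := (θ, e')) ?_⟩
  rw [Prod.dist_eq]
  exact max_lt (by rwa [Real.dist_eq]) (by rwa [Real.dist_eq])

theorem ec_opn_sol_mono {γ : ℝ → E7} {T S : ℝ} (h : SolOn VF UU γ T) (hS : S ≤ T) :
    SolOn VF UU γ S := fun t ht => h t ⟨ht.1, ht.2.trans hS⟩

/-- **OPN.** -/
theorem pat_open_pr {θ0 e0 S : ℝ} {γ0 : ℝ → E7} {r : List Ex} {e : Ex} (h1 : 0 < θ0)
    (h2 : θ0 < Real.pi / 2) (he : 0 ≤ e0) (hS : 0 < S) (h0 : γ0 0 = Xin θ0 e0)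
    (hsol : SolOn VF UU γ0 S) (hpat : TPat γ0 S r) (hend : TEnd r.length e (γ0 S)) :
    ∃ η > 0, ∀ θ e' : ℝ, |θ - θ0| < η → |e' - e0| < η → ∃ (S' : ℝ) (γ : ℝ → E7), 0 < S' ∧
      γ 0 = Xin θ e' ∧ SolOn VF UU γ S' ∧ TPat γ S' r ∧ TEnd r.length e (γ S') := by
  obtain ⟨κ, hκ, γ1, hγ1, heq, hpers⟩ := ode_persist isOpen_UU contDiffOn_VF hS.le hsol
  have h01 : γ1 0 = Xin θ0 e0 := by rw [heq 0 ⟨le_rfl, hS.le⟩, h0]
  have hSmem : S ∈ Icc 0 (S + κ) := ⟨hS.le, by linarith⟩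
  obtain ⟨τ, hτ, hin, hall, hT⟩ := hpat
  have hend1 : TEnd r.length e (γ1 S) := by rw [heq S ⟨hS.le, le_rfl⟩]; exact hend
  -- no zero just after `S`
  have hev : ∀ᶠ z in 𝓝[≠] S, (Zt (γ1 z)).im ≠ 0 :=
    (sol_Zt hγ1 hSmem).2.eventually_ne hend1.2.1
  obtain ⟨κ1, hκ1, hne⟩ := Metric.mem_nhdsWithin_iff.1 hev
  set κ' : ℝ := min κ (κ1 / 2) with hκ'
  have hκ'0 : 0 < κ' := lt_min hκ (half_pos hκ1)
  have hafter : ∀ s, S < s → s ≤ S + κ' → (Zt (γ1 s)).im ≠ 0 := by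
    intro s hs1 hs2
    refine hne ⟨?_, hs1.ne'⟩
    rw [Metric.mem_ball, Real.dist_eq, abs_of_pos (by linarith)]
    have : κ' ≤ κ1 / 2 := min_le_right _ _
    linarith
  set τ1 : Fin (r.length + 1) → ℝ := Fin.snoc (α := fun _ => ℝ) τ S with hτ1
  have e1 : ∀ i : Fin r.length, τ1 i.castSucc = τ i := fun i => Fin.snoc_castSucc ..
  have e2 : τ1 (Fin.last _) = S := Fin.snoc_last ..
  set L : Fin (r.length + 1) → Ex := Fin.snoc (α := fun _ => Ex) (fun i => r.get i) e with hL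
  have e3 : ∀ i : Fin r.length, L i.castSucc = r.get i := fun i => Fin.snoc_castSucc ..
  have e4 : L (Fin.last _) = e := Fin.snoc_last ..
  have hmono : StrictMono τ1 := by
    intro i j hij
    induction j using Fin.lastCases with
    | last =>
      induction i using Fin.lastCases with
      | last => exact absurd hij (lt_irrefl _)
      | cast i =>
        rw [e1, e2]
        exact (hin i).2
    | cast j =>
      induction i using Fin.lastCases with
      | last => exact absurd hij (not_lt.2 (Fin.le_last _))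
      | cast i =>
        rw [e1, e1]
        exact hτ (Fin.castSucc_lt_castSucc_iff.1 hij)
  obtain ⟨δ, hδ, hcore⟩ := ec_opn_core (b := S + κ') h1 h2 he (by linarith : 0 < S + κ) h01 hγ1
    (by linarith) (by linarith [min_le_left κ (κ1 / 2)]) τ1 hmono
    (fun i => by
      induction i using Fin.lastCases with
      | last => rw [e2]; exact ⟨hS, by linarith⟩
      | cast i => rw [e1]; exact ⟨(hin i).1, (hin i).2.trans (by linarith)⟩)
    L
    (fun i => by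
      induction i using Fin.lastCases with
      | last => rw [e2, e4]; exact hend1
      | cast i =>
        rw [e1, e3, heq (τ i) ⟨(hin i).1.le, (hin i).2.le⟩]
        exact hT i)
    (fun s hs hsb hs0 => by
      rcases lt_trichotomy s S with h | h | h
      · rw [heq s ⟨hs.le, h.le⟩] at hs0
        obtain ⟨i, hi⟩ := hall s hs h hs0
        exact ⟨i.castSucc, by rw [e1, hi]⟩
      · exact ⟨Fin.last _, by rw [e2, h]⟩
      · exact absurd hs0 (hafter s h hsb))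
  obtain ⟨η', hη', hp⟩ := hpers δ hδ
  obtain ⟨η, hη, hinit⟩ := ec_opn_init (θ0 := θ0) he hη'
  refine ⟨η, hη, fun θ e' hθ hee => ?_⟩
  obtain ⟨γ, hγ0, hγ, hcl⟩ := hp (Xin θ e') (by rw [h0]; exact hinit θ e' hθ hee)
  obtain ⟨τ', hτ', hin', hend', hall'⟩ := hcore γ θ e' hγ0 hγ hcl
  refine ⟨τ' (Fin.last _), γ, (hin' _).1, hγ0, ec_opn_sol_mono hγ ?_, ?_, ?_⟩
  · have := (hin' (Fin.last _)).2
    linarith [min_le_left κ (κ1 / 2)]
  · refine ⟨fun i => τ' i.castSucc, fun i j hij => hτ' (Fin.castSucc_lt_castSucc_iff.2 hij),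
      fun i => ⟨(hin' _).1, hτ' (Fin.castSucc_lt_last i)⟩, ?_, ?_⟩
    · intro s hs hs' hs0
      obtain ⟨i, hi⟩ := hall' s hs (hs'.le.trans (hin' _).2.le) hs0
      induction i using Fin.lastCases with
      | last => exact absurd hi hs'.ne'
      | cast i => exact ⟨i, hi⟩
    · intro i
      have := hend' i.castSucc
      rw [e3] at this
      exact this
  · have := hend' (Fin.last _)
    rw [e4] at this
    exact this

end Pool.Agent.Ecl
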