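import Pool.Agent.Lib_helper34.Ecl.Defs
import Pool.Agent.Lib_helper34.EclF.DERA
import Pool.Agent.Lib_helper34.EclF.ODEA
import Pool.Agent.Lib_helper34.EclF.VFCA
import Pool.Agent.Lib_helper34.EclF.ZERA
import Pool.Agent.Lib_helper34.EclF.OPN

/-!
# Block COL (helper29): what happens near a final collision
-/

set_option autoImplicit false

namespace Pool.Agent.Ecl

open Set Complex Filter Topology

/-- `cosh w = ±1` only at the points `w = iπN`. -/
theorem ec_col_cosh {w : ℂ} {m : ℕ} (h : cosh w = (-1) ^ m) :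
    ∃ N : ℤ, w = ⟨0, Real.pi * N⟩ ∧ (-1 : ℝ) ^ N = (-1) ^ m := by
  have hre := congrArg Complex.re h
  have him := congrArg Complex.im h
  have h1 : (((-1 : ℂ)) ^ m).im = 0 := by
    rcases neg_one_pow_eq_or ℂ m with h | h <;> rw [h] <;> simp
  have h2 : (((-1 : ℂ)) ^ m).re = (-1 : ℝ) ^ m := by
    rcases Nat.even_or_odd m with hm | hm
    · rw [hm.neg_one_pow, hm.neg_one_pow]; simp
    · rw [hm.neg_one_pow, hm.neg_one_pow]; simp
  have hw : w = w.re + w.im * I := (Complex.re_add_im w).symm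
  have hc : cosh w = ⟨Real.cosh w.re * Real.cos w.im, Real.sinh w.re * Real.sin w.im⟩ := by
    conv_lhs => rw [hw]
    rw [Complex.cosh_add, Complex.cosh_mul_I, Complex.sinh_mul_I]
    apply Complex.ext
    · simp [← Complex.ofReal_cosh, ← Complex.ofReal_sinh, ← Complex.ofReal_cos,
        ← Complex.ofReal_sin]
    · simp [← Complex.ofReal_cosh, ← Complex.ofReal_sinh, ← Complex.ofReal_cos,
        ← Complex.ofReal_sin]
  rw [hc] at hre him
  rw [h1] at him
  rw [h2] at hre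
  simp only at hre him
  have hsq : (Real.cosh w.re * Real.cos w.im) ^ 2 = 1 := by
    rw [hre, ← pow_mul, mul_comm, pow_mul]
    norm_num
  have hs2 : Real.cosh w.re ^ 2 = 1 + Real.sinh w.re ^ 2 := by
    have := Real.cosh_sq w.re
    linarith
  have hc2 : Real.cos w.im ^ 2 = 1 - Real.sin w.im ^ 2 := by
    have := Real.sin_sq_add_cos_sq w.im
    linarith
  have hsin : Real.sin w.im = 0 := by
    rcases mul_eq_zero.1 him with h | h
    · have : Real.cosh w.re ^ 2 = 1 := by rw [hs2, h]; ring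
      rw [mul_pow, this, one_mul, hc2] at hsq
      have : Real.sin w.im ^ 2 = 0 := by linarith
      exact pow_eq_zero_iff (two_ne_zero) |>.1 this
    · exact h
  have hsinh : Real.sinh w.re = 0 := by
    rw [mul_pow, hs2, hc2, hsin] at hsq
    have : Real.sinh w.re ^ 2 = 0 := by nlinarith
    exact pow_eq_zero_iff (two_ne_zero) |>.1 this
  have hre0 : w.re = 0 := Real.sinh_eq_zero.1 hsinh
  obtain ⟨N, hN⟩ := Real.sin_eq_zero_iff.1 hsin
  refine ⟨N, ?_, ?_⟩
  · apply Complex.ext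
    · exact hre0
    · simp only
      rw [← hN, mul_comm]
  · rw [hre0, Real.cosh_zero, one_mul, ← hN] at hre
    rw [← hre]
    exact (Real.cos_int_mul_pi N).symm

theorem ec_col_cosh_form (x y : ℝ) :
    cosh (⟨x, y⟩ : ℂ) = ⟨Real.cosh x * Real.cos y, Real.sinh x * Real.sin y⟩ := by
  have hw : (⟨x, y⟩ : ℂ) = x + y * I := by
    apply Complex.ext <;> simp
  rw [hw, Complex.cosh_add, Complex.cosh_mul_I, Complex.sinh_mul_I]
  apply Complex.ext
  · simp [← Complex.ofReal_cosh, ← Complex.ofReal_sinh, ← Complex.ofReal_cos,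
      ← Complex.ofReal_sin]
  · simp [← Complex.ofReal_cosh, ← Complex.ofReal_sinh, ← Complex.ofReal_cos,
      ← Complex.ofReal_sin]

theorem ec_col_sinh_form (x y : ℝ) :
    sinh (⟨x, y⟩ : ℂ) = ⟨Real.sinh x * Real.cos y, Real.cosh x * Real.sin y⟩ := by
  have hw : (⟨x, y⟩ : ℂ) = x + y * I := by
    apply Complex.ext <;> simp
  rw [hw, Complex.sinh_add, Complex.cosh_mul_I, Complex.sinh_mul_I]
  apply Complex.ext
  · simp [← Complex.ofReal_cosh, ← Complex.ofReal_sinh, ← Complex.ofReal_cos,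
      ← Complex.ofReal_sin]
  · simp [← Complex.ofReal_cosh, ← Complex.ofReal_sinh, ← Complex.ofReal_cos,
      ← Complex.ofReal_sin]

theorem ec_col_cos (h : ℝ) (N : ℤ) : Real.cos (Real.pi * N + h) = (-1) ^ N * Real.cos h := by
  rw [add_comm, mul_comm, Real.cos_add_int_mul_pi]

theorem ec_col_sin (h : ℝ) (N : ℤ) : Real.sin (Real.pi * N + h) = (-1) ^ N * Real.sin h := by
  rw [add_comm, mul_comm, Real.sin_add_int_mul_pi]


theorem ec_col_parity {N : ℤ} {n : ℕ} (hN : (-1 : ℝ) ^ N = (-1) ^ (n + 1)) :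
    (-1 : ℝ) ^ N = -(-1) ^ n := by
  rw [hN, pow_succ]; ring

theorem ec_col_sign_sq (n : ℕ) : ((-1 : ℝ) ^ n) * ((-1 : ℝ) ^ n) = 1 := by
  rw [← pow_add]
  exact Even.neg_one_pow ⟨n, rfl⟩

theorem ec_col_sign_ne (N : ℤ) : ((-1 : ℝ) ^ N) ≠ 0 := zpow_ne_zero _ (by norm_num)

theorem ec_col_Zt {X : E7} {N : ℤ} {h : ℝ} (hh : (cw X).im = Real.pi * N + h) :
    Zt X = ⟨Real.cosh (cw X).re * ((-1) ^ N * Real.cos h),
      Real.sinh (cw X).re * ((-1) ^ N * Real.sin h)⟩ := by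
  have hw : cw X = ⟨(cw X).re, Real.pi * N + h⟩ := by
    apply Complex.ext
    · rfl
    · exact hh
  unfold Zt
  conv_lhs => rw [hw]
  rw [ec_col_cosh_form, ec_col_cos, ec_col_sin]

theorem ec_col_sinh {X : E7} {N : ℤ} {h : ℝ} (hh : (cw X).im = Real.pi * N + h) :
    sinh (cw X) = ⟨Real.sinh (cw X).re * ((-1) ^ N * Real.cos h),
      Real.cosh (cw X).re * ((-1) ^ N * Real.sin h)⟩ := by
  have hw : cw X = ⟨(cw X).re, Real.pi * N + h⟩ := by
    apply Complex.ext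
    · rfl
    · exact hh
  conv_lhs => rw [hw]
  rw [ec_col_sinh_form, ec_col_cos, ec_col_sin]

theorem ec_col_sin_ne {h : ℝ} (h1 : |h| < Real.pi) (h0 : h ≠ 0) : Real.sin h ≠ 0 := by
  obtain ⟨ha, hb⟩ := abs_lt.1 h1
  rcases lt_or_gt_of_ne h0 with h' | h'
  · exact (Real.sin_neg_of_neg_of_neg_pi_lt h' ha).ne
  · exact (Real.sin_pos_of_pos_of_lt_pi h' hb).ne'

/-- (a) -/
theorem ec_col_im {X : E7} {N : ℤ} {h : ℝ} (hh : (cw X).im = Real.pi * N + h)
    (h1 : |h| < Real.pi) (hZ : (Zt X).im = 0) : (cw X).re = 0 ∨ h = 0 := by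
  rw [ec_col_Zt hh] at hZ
  simp only at hZ
  by_contra hne
  push Not at hne
  have e1 : Real.sinh (cw X).re ≠ 0 := fun h => hne.1 (Real.sinh_eq_zero.1 h)
  exact mul_ne_zero e1 (mul_ne_zero (ec_col_sign_ne N) (ec_col_sin_ne h1 hne.2)) hZ

/-- (b) -/
theorem ec_col_mid {X : E7} {N : ℤ} {h : ℝ} (hh : (cw X).im = Real.pi * N + h) {n : ℕ}
    (h1 : |h| < Real.pi) (h0 : h ≠ 0) (hx : (cw X).re = 0) (hF : (Fw X).re ≠ 0) :
    TEnd n .mid X := by
  have hs := ec_col_sin_ne h1 h0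
  have hN := ec_col_sign_ne N
  have hN2 : ((-1 : ℝ) ^ N) ^ 2 = 1 := by
    rcases Int.even_or_odd N with h | h
    · rw [h.neg_one_zpow]; norm_num
    · rw [h.neg_one_zpow]; norm_num
  refine ⟨?_, ?_, ?_⟩
  · rw [ec_col_Zt hh]
    simp only
    rw [hx, Real.sinh_zero, zero_mul]
  · unfold dZ
    rw [ec_col_sinh hh, hx, Real.sinh_zero, Real.cosh_zero, zero_mul, one_mul, Complex.mul_im]
    simp only
    rw [zero_mul, zero_add]
    exact mul_ne_zero (mul_ne_zero hN hs) hF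
  · rw [ec_col_Zt hh]
    simp only [Letter]
    rw [hx, Real.cosh_zero, one_mul, ← abs_lt, ← sq_lt_one_iff_abs_lt_one, mul_pow, hN2, one_mul]
    have h2 := Real.sin_sq_add_cos_sq h
    have h3 : 0 < Real.sin h ^ 2 := by positivity
    linarith

/-- (c) -/
theorem ec_col_lft {X : E7} {N : ℤ} {n : ℕ} (hN : (-1 : ℝ) ^ N = (-1) ^ (n + 1))
    (hh : (cw X).im = Real.pi * N) (hx : (cw X).re ≠ 0) (hF : (Fw X).im ≠ 0) :
    TEnd n .lft X := by
  have hh' : (cw X).im = Real.pi * N + 0 := by rw [hh, add_zero]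
  have hsx : Real.sinh (cw X).re ≠ 0 := fun h => hx (Real.sinh_eq_zero.1 h)
  refine ⟨?_, ?_, ?_⟩
  · rw [ec_col_Zt hh']
    simp only
    rw [Real.sin_zero, mul_zero, mul_zero]
  · unfold dZ
    rw [ec_col_sinh hh', Real.sin_zero, Real.cos_zero, mul_zero, mul_zero, mul_one,
      Complex.mul_im]
    simp only
    rw [zero_mul, add_zero]
    exact mul_ne_zero (mul_ne_zero hsx (ec_col_sign_ne N)) hF
  · rw [ec_col_Zt hh']
    simp only [Letter]
    rw [Real.cos_zero, mul_one, ec_col_parity hN]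
    have h1 := ec_col_sign_sq n
    have h2 : 1 < Real.cosh (cw X).re := Real.one_lt_cosh.2 hx
    have h3 : -((-1 : ℝ) ^ n * (Real.cosh (cw X).re * -(-1) ^ n))
        = Real.cosh (cw X).re * ((-1) ^ n * (-1) ^ n) := by ring
    rw [h3, h1, mul_one]
    exact h2

/-- (d) -/
theorem ec_col_cend {X : E7} {N : ℤ} {n : ℕ} (hN : (-1 : ℝ) ^ N = (-1) ^ (n + 1))
    (hh : (cw X).im = Real.pi * N) (hx : (cw X).re = 0) : CEnd n X := by
  have hh' : (cw X).im = Real.pi * N + 0 := by rw [hh, add_zero]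
  unfold CEnd
  rw [ec_col_Zt hh', hx, Real.cosh_zero, Real.cos_zero, Real.sin_zero, mul_zero, mul_zero,
    mul_one, one_mul, hN]
  have : ((-1 : ℂ)) ^ (n + 1) = (((-1 : ℝ) ^ (n + 1) : ℝ) : ℂ) := by push_cast; rfl
  rw [this]
  rfl

theorem ec_col_deriv {γ : ℝ → E7} {T t : ℝ} (h : SolOn VF UU γ T) (ht : t ∈ Icc 0 T) (c : ℝ) :
    HasDerivAt (fun s => (cw (γ s)).re) (Fw (γ t)).re t ∧
    HasDerivAt (fun s => (cw (γ s)).im - c) (Fw (γ t)).im t := by
  have h1 := (sol_comp h ht).2.2.1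
  exact ⟨Complex.reCLM.hasFDerivAt.comp_hasDerivAt t h1,
    (Complex.imCLM.hasFDerivAt.comp_hasDerivAt t h1).sub_const c⟩

/-- **COL.** -/
theorem pat_coll_pr {θ0 e0 S : ℝ} {γ0 : ℝ → E7} {r : List Ex} (h1 : 0 < θ0)
    (h2 : θ0 < Real.pi / 2) (he : 0 ≤ e0) (hS : 0 < S) (h0 : γ0 0 = Xin θ0 e0)
    (hsol : SolOn VF UU γ0 S) (hpat : TPat γ0 S r) (hend : CEnd r.length (γ0 S))
    (hdir : CDir (γ0 S)) :
    ∃ η > 0, ∀ θ e' : ℝ, |θ - θ0| < η → |e' - e0| < η → ∃ (S' : ℝ) (γ : ℝ → E7), 0 < S' ∧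
      γ 0 = Xin θ e' ∧ SolOn VF UU γ S' ∧ TPat γ S' r ∧
      (TEnd r.length .lft (γ S') ∨ TEnd r.length .mid (γ S') ∨ CEnd r.length (γ S')) := by
  obtain ⟨κ, hκ, γ1, hγ1, heq, hpers⟩ := ode_persist isOpen_UU contDiffOn_VF hS.le hsol
  have h01 : γ1 0 = Xin θ0 e0 := by rw [heq 0 ⟨le_rfl, hS.le⟩, h0]
  have hSmem : S ∈ Icc 0 (S + κ) := ⟨hS.le, by linarith⟩
  obtain ⟨τ, hτ, hin, hall, hT⟩ := hpat
  have hSeq : γ1 S = γ0 S := heq S ⟨hS.le, le_rfl⟩
  have hc1 := ec_opn_solCont hγ1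
  obtain ⟨N, hwN, hN⟩ := ec_col_cosh (show cosh (cw (γ1 S)) = (-1) ^ (r.length + 1) by
    rw [hSeq]; exact hend)
  have hdir1 : (Fw (γ1 S)).re ≠ 0 ∧ (Fw (γ1 S)).im ≠ 0 := by
    have h := hdir
    unfold CDir at h
    rw [← hSeq, pow_two, Complex.mul_im] at h
    constructor
    · intro h'
      rw [h', zero_mul, mul_zero, add_zero] at h
      exact lt_irrefl _ h
    · intro h'
      rw [h', zero_mul, mul_zero, add_zero] at h
      exact lt_irrefl _ h
  set f0 : ℝ → ℝ := fun t => (cw (γ1 t)).re with hf0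
  set k0 : ℝ → ℝ := fun t => (cw (γ1 t)).im - Real.pi * N with hk0
  have hfS : f0 S = 0 := by simp only [hf0, hwN]
  have hkS : k0 S = 0 := by simp only [hk0, hwN, sub_self]
  have hdf : ∀ t ∈ Icc 0 (S + κ), HasDerivAt f0 (Fw (γ1 t)).re t := fun t ht =>
    (ec_col_deriv hγ1 ht 0).1
  have hdk : ∀ t ∈ Icc 0 (S + κ), HasDerivAt k0 (Fw (γ1 t)).im t := fun t ht =>
    (ec_col_deriv hγ1 ht (Real.pi * N)).2
  obtain ⟨ρ1, hρ1, hne1⟩ := Metric.mem_nhdsWithin_iff.1
    ((hdf S hSmem).eventually_ne (c := 0) hdir1.1)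
  obtain ⟨ρ2, hρ2, hne2⟩ := Metric.mem_nhdsWithin_iff.1
    ((hdk S hSmem).eventually_ne (c := 0) hdir1.2)
  obtain ⟨ρ3, hρ3, hk3⟩ := Metric.continuousAt_iff.1 (hdk S hSmem).continuousAt
    (Real.pi / 2) (by positivity)
  obtain ⟨ε, hε, hεm⟩ := ec_opn_min (fun i => S - τ i) (fun i => by linarith [(hin i).2])
  obtain ⟨c', hc', hc1', hc2', hc3', hc4', hc5', hc6'⟩ : ∃ c' > 0, c' ≤ κ ∧ c' < S ∧ c' < ρ1 ∧
      c' < ρ2 ∧ c' < ρ3 ∧ c' < ε := by
    refine ⟨min κ (min (S / 2) (min (ρ1 / 2) (min (ρ2 / 2) (min (ρ3 / 2) (ε / 2))))),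
      by positivity, min_le_left _ _, ?_, ?_, ?_, ?_, ?_⟩
    · exact ((min_le_right _ _).trans (min_le_left _ _)).trans_lt (half_lt_self hS)
    · exact ((min_le_right _ _).trans ((min_le_right _ _).trans (min_le_left _ _))).trans_lt
        (half_lt_self hρ1)
    · exact ((min_le_right _ _).trans ((min_le_right _ _).trans ((min_le_right _ _).trans
        (min_le_left _ _)))).trans_lt (half_lt_self hρ2)
    · exact ((min_le_right _ _).trans ((min_le_right _ _).trans ((min_le_right _ _).trans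
        ((min_le_right _ _).trans (min_le_left _ _))))).trans_lt (half_lt_self hρ3)
    · exact ((min_le_right _ _).trans ((min_le_right _ _).trans ((min_le_right _ _).trans
        ((min_le_right _ _).trans (min_le_right _ _))))).trans_lt (half_lt_self hε)
  have hab : S - c' < S + c' := by linarith
  have hsub : Icc (S - c') (S + c') ⊆ Icc 0 (S + κ) := fun t ht =>
    ⟨by linarith [ht.1], by linarith [ht.2]⟩
  have habs : ∀ t ∈ Icc (S - c') (S + c'), |t - S| ≤ c' := fun t ht => by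
    rw [abs_le]
    constructor <;> linarith [ht.1, ht.2]
  have hallf : ∀ t ∈ Icc (S - c') (S + c'), f0 t = 0 → S = t := by
    intro t ht hft
    by_contra hne
    refine hne1 ⟨?_, fun h => hne h.symm⟩ hft
    rw [Metric.mem_ball, Real.dist_eq]
    exact (habs t ht).trans_lt hc3'
  have hallk : ∀ t ∈ Icc (S - c') (S + c'), k0 t = 0 → S = t := by
    intro t ht hft
    by_contra hne
    refine hne2 ⟨?_, fun h => hne h.symm⟩ hft
    rw [Metric.mem_ball, Real.dist_eq]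
    exact (habs t ht).trans_lt hc4'
  have hkπ : ∀ t ∈ Icc (S - c') (S + c'), |k0 t| < Real.pi / 2 := by
    intro t ht
    have := hk3 (x := t) (by rw [Real.dist_eq]; exact (habs t ht).trans_lt hc5')
    rwa [hkS, Real.dist_eq, sub_zero] at this
  -- the zeros before `S - c'`
  obtain ⟨δ1, hδ1, hcore⟩ := ec_opn_core (b := S - c') h1 h2 he (by linarith : 0 < S + κ) h01 hγ1
    (by linarith) (by linarith) τ hτ
    (fun i => ⟨(hin i).1, by have := hεm i; linarith⟩)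
    (fun i => r.get i)
    (fun i => by
      rw [heq (τ i) ⟨(hin i).1.le, (hin i).2.le⟩]
      exact hT i)
    (fun s hs hsb hs0 => by
      rw [heq s ⟨hs.le, by linarith⟩] at hs0
      exact hall s hs (by linarith) hs0)
  -- the zeros of `Re w` and `Im w - πN`
  obtain ⟨δ2, hδ2, hz2⟩ := zeros_persist (m := 1) hab (f0 := f0)
    (g0 := fun t => (Fw (γ1 t)).re) (fun t ht => hdf t (hsub ht))
    (Complex.continuous_re.comp_continuousOn (ec_opn_cont_Fw.comp_continuousOn (hc1.mono hsub)))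
    (fun _ => S) (Subsingleton.strictMono _) (fun _ => ⟨by linarith, by linarith⟩)
    (fun _ => ⟨hfS, hdir1.1⟩) (fun t ht h => ⟨0, hallf t ht h⟩) one_pos
  obtain ⟨δ3, hδ3, hz3⟩ := zeros_persist (m := 1) hab (f0 := k0)
    (g0 := fun t => (Fw (γ1 t)).im) (fun t ht => hdk t (hsub ht))
    (Complex.continuous_im.comp_continuousOn (ec_opn_cont_Fw.comp_continuousOn (hc1.mono hsub)))
    (fun _ => S) (Subsingleton.strictMono _) (fun _ => ⟨by linarith, by linarith⟩)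
    (fun _ => ⟨hkS, hdir1.2⟩) (fun t ht h => ⟨0, hallk t ht h⟩) one_pos
  obtain ⟨δ4, hδ4, hu4⟩ := ec_opn_unif ec_opn_cont_cw hc1
    (lt_min hδ2 (lt_min hδ3 (half_pos Real.pi_pos)))
  obtain ⟨δ5, hδ5, hu5⟩ := ec_opn_unif ec_opn_cont_Fw hc1 (lt_min hδ2 hδ3)
  obtain ⟨η', hη', hp⟩ := hpers (min δ1 (min δ4 δ5)) (lt_min hδ1 (lt_min hδ4 hδ5))
  obtain ⟨η, hη, hinit⟩ := ec_opn_init (θ0 := θ0) he hη'
  refine ⟨η, hη, fun θ e' hθ hee => ?_⟩
  obtain ⟨γ, hγ0, hγ, hcl⟩ := hp (Xin θ e') (by rw [h0]; exact hinit θ e' hθ hee)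
  obtain ⟨τ', hτ', hin', hend', hall'⟩ := hcore γ θ e' hγ0 hγ
    (fun t ht => (hcl t ht).trans_le (min_le_left _ _))
  have hcl4 : ∀ t ∈ Icc (S - c') (S + c'), dist (cw (γ t)) (cw (γ1 t)) <
      min δ2 (min δ3 (Real.pi / 2)) := fun t ht =>
    hu4 γ t (hsub ht) ((hcl t (hsub ht)).trans_le ((min_le_right _ _).trans (min_le_left _ _)))
  have hcl5 : ∀ t ∈ Icc (S - c') (S + c'), dist (Fw (γ t)) (Fw (γ1 t)) < min δ2 δ3 :=
    fun t ht =>
    hu5 γ t (hsub ht) ((hcl t (hsub ht)).trans_le ((min_le_right _ _).trans (min_le_right _ _)))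
  obtain ⟨σx, -, hx1, hx2, hx3⟩ := hz2 (fun t => (cw (γ t)).re) (fun t => (Fw (γ t)).re)
    (fun t ht => (ec_col_deriv hγ (hsub ht) 0).1)
    (fun t ht => ⟨ec_opn_re_close ((hcl4 t ht).trans_le (min_le_left _ _)),
      ec_opn_re_close ((hcl5 t ht).trans_le (min_le_left _ _))⟩)
  have hkclose : ∀ t ∈ Icc (S - c') (S + c'), ∀ ε : ℝ, dist (cw (γ t)) (cw (γ1 t)) < ε →
      |((cw (γ t)).im - Real.pi * N) - k0 t| < ε := by
    intro t _ ε hε
    have h3 := ec_opn_im_close hε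
    have h4 : ((cw (γ t)).im - Real.pi * N) - k0 t = (cw (γ t)).im - (cw (γ1 t)).im := by
      simp only [hk0]; ring
    rwa [h4]
  obtain ⟨σy, -, hy1, hy2, hy3⟩ := hz3 (fun t => (cw (γ t)).im - Real.pi * N)
    (fun t => (Fw (γ t)).im) (fun t ht => (ec_col_deriv hγ (hsub ht) (Real.pi * N)).2)
    (fun t ht => ⟨hkclose t ht _ ((hcl4 t ht).trans_le
        ((min_le_right _ _).trans (min_le_left _ _))),
      ec_opn_im_close ((hcl5 t ht).trans_le (min_le_right _ _))⟩)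
  have hkγ : ∀ t ∈ Icc (S - c') (S + c'), |(cw (γ t)).im - Real.pi * N| < Real.pi := by
    intro t ht
    have h3 := hkclose t ht _ ((hcl4 t ht).trans_le ((min_le_right _ _).trans (min_le_right _ _)))
    have h4 := hkπ t ht
    rw [abs_lt] at h3 h4 ⊢
    constructor <;> linarith [h3.1, h3.2, h4.1, h4.2]
  have hform : ∀ t, (cw (γ t)).im = Real.pi * N + ((cw (γ t)).im - Real.pi * N) := fun t => by
    ring
  set sx : ℝ := σx 0 with hsx
  set sy : ℝ := σy 0 with hsy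
  have hxm : sx ∈ Icc (S - c') (S + c') := ⟨(hx1 0).1.le, (hx1 0).2.1.le⟩
  have hym : sy ∈ Icc (S - c') (S + c') := ⟨(hy1 0).1.le, (hy1 0).2.1.le⟩
  have hx3' : ∀ t ∈ Icc (S - c') (S + c'), (cw (γ t)).re = 0 → sx = t := by
    intro t ht h
    obtain ⟨i, hi⟩ := hx3 t ht h
    rw [Subsingleton.elim i 0] at hi
    exact hi
  have hy3' : ∀ t ∈ Icc (S - c') (S + c'), (cw (γ t)).im - Real.pi * N = 0 → sy = t := by
    intro t ht h
    obtain ⟨i, hi⟩ := hy3 t ht h
    rw [Subsingleton.elim i 0] at hi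
    exact hi
  have hbS : S - c' < min sx sy := lt_min (hx1 0).1 (hy1 0).1
  have hSb : min sx sy < S + c' := (min_le_left _ _).trans_lt (hx1 0).2.1
  refine ⟨min sx sy, γ, by linarith, hγ0, ec_opn_sol_mono hγ (by linarith), ?_, ?_⟩
  · refine ⟨τ', hτ', fun i => ⟨(hin' i).1, (hin' i).2.trans hbS⟩, ?_, hend'⟩
    intro s hs hs' hs0
    rcases le_or_gt s (S - c') with hsb | hsb
    · exact hall' s hs hsb hs0
    · have hsm : s ∈ Icc (S - c') (S + c') := ⟨hsb.le, (hs'.trans hSb).le⟩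
      rcases ec_col_im (hform s) (hkγ s hsm) hs0 with h | h
      · have := hx3' s hsm h
        rw [← this] at hs'
        exact absurd hs' (not_lt.2 (min_le_left _ _))
      · have := hy3' s hsm h
        rw [← this] at hs'
        exact absurd hs' (not_lt.2 (min_le_right _ _))
  · rcases lt_trichotomy sx sy with h | h | h
    · right; left
      rw [min_eq_left h.le]
      refine ec_col_mid (hform sx) (hkγ sx hxm) ?_ (hx2 0).1 (hx2 0).2
      intro h'
      exact h.ne' (hy3' sx hxm h')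
    · right; right
      rw [← h, min_self]
      refine ec_col_cend hN ?_ (hx2 0).1
      have h5 : (cw (γ sy)).im - Real.pi * N = 0 := (hy2 0).1
      rw [← h] at h5
      linarith
    · left
      rw [min_eq_right h.le]
      refine ec_col_lft hN ?_ ?_ (hy2 0).2
      · have h5 : (cw (γ sy)).im - Real.pi * N = 0 := (hy2 0).1
        linarith
      · intro h'
        exact h.ne' (hx3' sy hym h')

end Pool.Agent.Ecl
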