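import Pool.Agent.Lib_helper34.Ecl.Defs

set_option autoImplicit false

namespace Pool.Agent.Ecl

open Set Complex Filter Topology

theorem ec_der_fst {E F : Type*} [NormedAddCommGroup E] [NormedSpace ℝ E]
    [NormedAddCommGroup F] [NormedSpace ℝ F] {γ : ℝ → E × F} {d : E × F} {t : ℝ}
    (h : HasDerivAt γ d t) : HasDerivAt (fun s => (γ s).1) d.1 t :=
  (ContinuousLinearMap.fst ℝ E F).hasFDerivAt.comp_hasDerivAt t h

theorem ec_der_snd {E F : Type*} [NormedAddCommGroup E] [NormedSpace ℝ E]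
    [NormedAddCommGroup F] [NormedSpace ℝ F] {γ : ℝ → E × F} {d : E × F} {t : ℝ}
    (h : HasDerivAt γ d t) : HasDerivAt (fun s => (γ s).2) d.2 t :=
  (ContinuousLinearMap.snd ℝ E F).hasFDerivAt.comp_hasDerivAt t h

theorem sol_comp_pr {γ : ℝ → E7} {T t : ℝ} (h : SolOn VF UU γ T) (ht : t ∈ Icc 0 T) :
    HasDerivAt (fun s => cu (γ s)) (Fu (γ t)) t ∧ HasDerivAt (fun s => cS (γ s)) (FS (γ t)) t ∧
    HasDerivAt (fun s => cw (γ s)) (Fw (γ t)) t ∧ HasDerivAt (fun s => cv (γ s)) (Fv (γ t)) t ∧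
    HasDerivAt (fun s => cg (γ s)) (Fg (γ t)) t ∧ HasDerivAt (fun s => ct (γ s)) (cJ (γ t)) t ∧
    HasDerivAt (fun s => ce (γ s)) 0 t := by
  have h0 := (h t ht).1
  have h1 := ec_der_snd h0
  have h2 := ec_der_snd h1
  have h3 := ec_der_snd h2
  have h4 := ec_der_snd h3
  have h5 := ec_der_snd h4
  exact ⟨ec_der_fst h0, ec_der_fst h1, ec_der_fst h2, ec_der_fst h3, ec_der_fst h4,
    ec_der_fst h5, ec_der_snd h5⟩

theorem ec_der_cosh {w : ℝ → ℂ} {w' : ℂ} {t : ℝ} (h : HasDerivAt w w' t) :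
    HasDerivAt (fun s => cosh (w s)) (sinh (w t) * w') t := by
  have := HasDerivAt.scomp t (Complex.hasDerivAt_cosh (w t)) h
  rw [smul_eq_mul, mul_comm] at this
  exact this

theorem sol_Zt_pr {γ : ℝ → E7} {T t : ℝ} (h : SolOn VF UU γ T) (ht : t ∈ Icc 0 T) :
    HasDerivAt (fun s => Zt (γ s)) (dZ (γ t)) t ∧
    HasDerivAt (fun s => (Zt (γ s)).im) (dZ (γ t)).im t := by
  have h1 : HasDerivAt (fun s => Zt (γ s)) (dZ (γ t)) t := by
    unfold Zt dZ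
    exact ec_der_cosh (sol_comp_pr h ht).2.2.1
  exact ⟨h1, Complex.imCLM.hasFDerivAt.comp_hasDerivAt t h1⟩

theorem sol_ce_pr {γ : ℝ → E7} {T : ℝ} (h : SolOn VF UU γ T) :
    ∀ t ∈ Icc 0 T, ce (γ t) = ce (γ 0) := by
  apply constant_of_has_deriv_right_zero
  · intro t ht
    exact (sol_comp_pr h ht).2.2.2.2.2.2.continuousAt.continuousWithinAt
  · intro t ht
    exact (sol_comp_pr h ⟨ht.1, ht.2.le⟩).2.2.2.2.2.2.hasDerivWithinAt

end Pool.Agent.Ecl
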