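import Pool.Agent.Lib_helper34.Ecl.Defs
import Pool.Agent.Lib_helper34.EclF.ODEA
import Pool.Agent.Lib_helper34.EclF.VFCA

set_option autoImplicit false

namespace Pool.Agent.Ecl

open Set Complex Filter Topology

theorem ec_dis_count {γ : ℝ → E7} {S S'' : ℝ} {r : List Ex} (hp : TPat γ S r)
    (τ' : Fin r.length → ℝ) (hm : StrictMono τ') (hin : ∀ i, 0 < τ' i ∧ τ' i < S'')
    (hlt : S'' < S) (h0 : 0 < S'') (hz : ∀ i, (Zt (γ (τ' i))).im = 0)
    (hzS : (Zt (γ S'')).im = 0) : False := by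
  classical
  obtain ⟨τ, _, _, hall, _⟩ := hp
  have hsub : insert S'' (Finset.univ.image τ') ⊆ Finset.univ.image τ := by
    intro s hs
    rw [Finset.mem_insert, Finset.mem_image] at hs
    rw [Finset.mem_image]
    rcases hs with rfl | ⟨i, _, rfl⟩
    · obtain ⟨i, hi⟩ := hall s h0 hlt hzS
      exact ⟨i, Finset.mem_univ _, hi⟩
    · obtain ⟨j, hj⟩ := hall (τ' i) (hin i).1 ((hin i).2.trans hlt) (hz i)
      exact ⟨j, Finset.mem_univ _, hj⟩
  have h1 := Finset.card_le_card hsub
  have h2 : S'' ∉ Finset.univ.image τ' := by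
    rw [Finset.mem_image]
    rintro ⟨i, _, hi⟩
    have := (hin i).2
    rw [hi] at this
    exact lt_irrefl _ this
  rw [Finset.card_insert_of_notMem h2, Finset.card_image_of_injective _ hm.injective,
    Finset.card_univ, Fintype.card_fin] at h1
  have h3 : (Finset.univ.image τ).card ≤ r.length := by
    refine Finset.card_image_le.trans ?_
    rw [Finset.card_univ, Fintype.card_fin]
  omega

theorem pat_disj_pr {γ γ' : ℝ → E7} {S S' : ℝ} {r : List Ex} (h0 : γ 0 = γ' 0) (hS : 0 < S)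
    (hS' : 0 < S') (h : SolOn VF UU γ S) (h' : SolOn VF UU γ' S') (hp : TPat γ S r)
    (hp' : TPat γ' S' r) (he : TEnd r.length .lft (γ S)) (he' : TEnd r.length .mid (γ' S')) :
    False := by
  have hres : SolOn VF UU γ (min S S') := fun t ht => h t ⟨ht.1, ht.2.trans (min_le_left _ _)⟩
  have hres' : SolOn VF UU γ' (min S S') := fun t ht => h' t ⟨ht.1, ht.2.trans (min_le_right _ _)⟩
  have huq := ode_unique isOpen_UU contDiffOn_VF hres hres' h0
  rcases lt_trichotomy S S' with hlt | heq | hgt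
  · rw [min_eq_left hlt.le] at huq
    obtain ⟨τ, hm, hin, _, hend⟩ := hp
    apply ec_dis_count hp' τ hm hin hlt hS
    · intro i
      rw [← huq (τ i) ⟨(hin i).1.le, (hin i).2.le⟩]
      exact (hend i).1
    · rw [← huq S ⟨hS.le, le_refl _⟩]
      exact he.1
  · rw [heq, min_self] at huq
    rw [heq, huq S' ⟨hS'.le, le_refl _⟩] at he
    have h1 : 1 < -((-1) ^ r.length * (Zt (γ' S')).re) := he.2.2
    have h2 : -1 < (Zt (γ' S')).re ∧ (Zt (γ' S')).re < 1 := he'.2.2
    rcases neg_one_pow_eq_or ℝ r.length with h3 | h3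
    · rw [h3] at h1; linarith [h2.1]
    · rw [h3] at h1; linarith [h2.2]
  · rw [min_eq_right hgt.le] at huq
    obtain ⟨τ, hm, hin, _, hend⟩ := hp'
    apply ec_dis_count hp τ hm hin hgt hS'
    · intro i
      rw [huq (τ i) ⟨(hin i).1.le, (hin i).2.le⟩]
      exact (hend i).1
    · rw [huq S' ⟨hS'.le, le_refl _⟩]
      exact he'.1

end Pool.Agent.Ecl
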