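import Pool.Agent.Lib_helper34.EclF.DIS

/-! Wanted names of block DIS -/

namespace Pool.Agent.Ecl

alias pat_disj := pat_disj_pr

end Pool.Agent.Ecl
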