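import Pool.Agent.Lib_helper34.EclF.GEO

/-! Wanted names of block GEO -/

namespace Pool.Agent.Ecl

alias col_iff := col_iff_pr
alias qq_ne := qq_ne_pr
alias sbtw_of_letter := sbtw_of_letter_pr
alias cJ_pos_of_pat := cJ_pos_of_pat_pr

end Pool.Agent.Ecl
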