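import Pool.Agent.Lib_helper34.EclF.NWA

/-! Wanted names of block NWA -/

namespace Pool.Agent.Ecl

alias newton_acc := newton_acc_pr

end Pool.Agent.Ecl
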