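import Pool.Agent.Lib_helper34.Ecl.Defs
import Pool.Agent.Lib_helper34.EclF.DERA
import Pool.Agent.Lib_helper34.EclF.GEOA
import Pool.Agent.Lib_helper34.EclF.GHA
import Pool.Agent.Lib_helper34.EclF.IVTA
import Pool.Agent.Lib_helper34.EclF.NWAA
import Pool.Agent.Lib_helper34.EclF.NWPA
import Pool.Agent.Lib_helper34.EclF.TIMEA

/-!
# Eclipse project, block FIN: the final theorem
-/

set_option autoImplicit false

namespace Pool.Agent.Ecl

open Set Complex Filter Topology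

theorem ec_fin_mm_pos {e : ℝ} (he : 0 < e) (a : Fin 3) : 0 < mm e a := by
  fin_cases a <;> simp [mm, he]

theorem ec_fin_sub1 {X : E7} (he : 0 ≤ ce X) : qq 2 X - qq 1 X = cu X / 2 * (cosh (cw X) - 1) := by
  have h1 : (1 + (ce X : ℂ)) ≠ 0 := by
    have : (1 + ce X : ℝ) ≠ 0 := by positivity
    exact_mod_cast this
  simp only [qq, yy, Matrix.cons_val]
  push_cast
  field_simp
  ring

theorem ec_fin_sub0 {X : E7} (he : 0 ≤ ce X) : qq 2 X - qq 0 X = cu X / 2 * (cosh (cw X) + 1) := by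
  have h1 : (1 + (ce X : ℂ)) ≠ 0 := by
    have : (1 + ce X : ℝ) ≠ 0 := by positivity
    exact_mod_cast this
  simp only [qq, yy, Matrix.cons_val]
  push_cast
  field_simp
  ring

theorem ec_fin_smul {J : ℝ} (hJ : J ≠ 0) (x : ℂ) : J⁻¹ • ((J : ℂ) * x) = x := by
  rw [real_smul, ← mul_assoc, ← ofReal_mul, inv_mul_cancel₀ hJ, ofReal_one, one_mul]

theorem ec_fin_cont {X0 : E7} (c : ℂ) :
    ContinuousAt (fun X : E7 => cu X / 2 * (cosh (cw X) + c)) X0 := by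
  unfold cu cw
  fun_prop

/-- The final theorem. -/
theorem final_pr (hI : StatementI) :
    ∀ w : List (Fin 3), ∃ m : Fin 3 → ℝ, (∀ a, 0 < m a) ∧
      ∀ Sol : EReal → EReal → (Fin 3 → ℝ → ℂ) → Prop,
        (∀ (α ω : EReal) (q : Fin 3 → ℝ → ℂ), Sol α ω q ↔
          ∀ t : ℝ, α < (t : EReal) → (t : EReal) < ω →
            (∀ a b : Fin 3, a ≠ b → q a t ≠ q b t) ∧
            ∀ a : Fin 3, HasDerivAt (q a) (deriv (q a) t) t ∧
              HasDerivAt (deriv (q a))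
                (∑ b ∈ Finset.univ.erase a,
                  (m b : ℂ) * (q b t - q a t) / ((‖q b t - q a t‖ ^ 3 : ℝ) : ℂ)) t) →
        ∃ (α ω : EReal) (q : Fin 3 → ℝ → ℂ), α < ω ∧ Sol α ω q ∧
          (∀ (α' ω' : EReal) (q' : Fin 3 → ℝ → ℂ), Sol α' ω' q' → α' ≤ α → ω ≤ ω' →
            (∀ t : ℝ, α < (t : EReal) → (t : EReal) < ω → ∀ a, q' a t = q a t) →
            α' = α ∧ ω' = ω) ∧
          ∃ τ : Fin w.length → ℝ, StrictMono τ ∧
            (∀ i, α < (τ i : EReal) ∧ (τ i : EReal) < ω) ∧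
            (∀ t : ℝ, α < (t : EReal) → (t : EReal) < ω →
              Collinear ℝ ({q 0 t, q 1 t, q 2 t} : Set ℂ) → ∃ i, τ i = t) ∧
            ∀ (i : Fin w.length) (b c : Fin 3), b ≠ w.get i → c ≠ w.get i → b ≠ c →
              Sbtw ℝ (q b (τ i)) (q (w.get i) (τ i)) (q c (τ i)) := by
  intro w
  set r : List Ex := List.ofFn fun i : Fin w.length => code i (w.get i) with hr
  have hlen : r.length = w.length := by rw [hr, List.length_ofFn]
  obtain ⟨e, he, θ, S, γ, hθ0, hθ1, hS, h0, hsol, hpat, hend⟩ := exists_collision hI r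
  refine ⟨mm e, ec_fin_mm_pos he, ?_⟩
  intro Sol hSol
  obtain ⟨τ, hτm, hτin, hτall, hτend⟩ := hpat
  -- basic facts along the orbit
  have hce : ∀ s ∈ Icc 0 S, ce (γ s) = e := by
    intro s hs
    rw [sol_ce hsol s hs, h0]; rfl
  have hG : ∀ s ∈ Icc 0 S, Gh (γ s) = 0 := by
    intro s hs
    rw [sol_Gh hsol s hs, h0]; exact Gh_Xin he.le
  have hu : ∀ s ∈ Icc 0 S, cu (γ s) ≠ 0 := fun s hs => (hsol s hs).2
  have hJ : ∀ s ∈ Ioo 0 S, 0 < cJ (γ s) := by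
    intro s hs
    apply cJ_pos_of_pat (hu s ⟨hs.1.le, hs.2.le⟩)
    by_cases hi : (Zt (γ s)).im = 0
    · right
      obtain ⟨i, rfl⟩ := hτall s hs.1 hs.2 hi
      exact ⟨_, _, (hτend i).2.2⟩
    · exact Or.inl hi
  have ht : ∀ s ∈ Icc 0 S, HasDerivAt (fun s => ct (γ s)) (cJ (γ s)) s := fun s hs =>
    (sol_comp hsol hs).2.2.2.2.2.1
  have hmemI : ∀ s ∈ Ioo (0 : ℝ) S, s ∈ Icc (0 : ℝ) S := fun s hs => ⟨hs.1.le, hs.2.le⟩
  obtain ⟨σ, hσ1, hσ2, htm, hσ0, hσS⟩ := time_change hS ht hJ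
  have hct0 : ct (γ 0) = 0 := by rw [h0]; rfl
  simp only [hct0] at hσ1 hσ2 hσ0
  set Ω := ct (γ S) with hΩ
  have hΩ0 : 0 < Ω := by
    have := htm ⟨le_refl _, hS.le⟩ ⟨hS.le, le_refl _⟩ hS
    simp only [hct0] at this
    exact this
  set q : Fin 3 → ℝ → ℂ := fun a t => qq a (γ (σ t)) with hq
  -- first derivative
  have hd1 : ∀ t ∈ Ioo 0 Ω, ∀ a, HasDerivAt (q a) (vv a (γ (σ t))) t := by
    intro t htt a
    obtain ⟨hs, -, hσd⟩ := hσ1 t htt
    have hJs := (hJ _ hs).ne'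
    have h1 := newton_pos hsol (hmemI _ hs) hJs (by rw [hce _ (hmemI _ hs)]; exact he.le) a
    have h2 := h1.scomp t hσd
    rw [ec_fin_smul hJs] at h2
    exact h2
  have hd1' : ∀ t ∈ Ioo 0 Ω, ∀ a, deriv (q a) =ᶠ[𝓝 t] fun t => vv a (γ (σ t)) := by
    intro t htt a
    filter_upwards [isOpen_Ioo.mem_nhds htt] with t' ht'
    exact (hd1 t' ht' a).deriv
  have hd2 : ∀ t ∈ Ioo 0 Ω, ∀ a, HasDerivAt (deriv (q a)) (acc (mm e) (fun b => q b t) a) t := by
    intro t htt a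
    obtain ⟨hs, -, hσd⟩ := hσ1 t htt
    have hJs := (hJ _ hs).ne'
    have h1 := newton_acc hsol (hmemI _ hs) hJs (by rw [hce _ (hmemI _ hs)]; exact he.le)
      (hG _ (hmemI _ hs)) a
    rw [hce _ (hmemI _ hs)] at h1
    have h2 := h1.scomp t hσd
    rw [ec_fin_smul hJs] at h2
    exact HasDerivAt.congr_of_eventuallyEq h2 (hd1' t htt a)
  -- it is a solution
  have hcoe0 : ((0 : ℝ) : EReal) = 0 := EReal.coe_zero
  have hIoo : ∀ t : ℝ, ((0 : ℝ) : EReal) < (t : EReal) → (t : EReal) < (Ω : EReal) →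
      t ∈ Ioo 0 Ω := fun t h1 h2 => ⟨EReal.coe_lt_coe_iff.1 h1, EReal.coe_lt_coe_iff.1 h2⟩
  have hsolq : Sol ((0 : ℝ) : EReal) (Ω : EReal) q := by
    rw [hSol]
    intro t h1 h2
    have htt := hIoo t h1 h2
    obtain ⟨hs, -, -⟩ := hσ1 t htt
    refine ⟨fun a b hab => ?_, fun a => ⟨?_, ?_⟩⟩
    · exact qq_ne (hu _ (hmemI _ hs)) (hJ _ hs).ne' (by rw [hce _ (hmemI _ hs)]; exact he.le)
        a b hab
    · have := hd1 t htt a
      rw [this.deriv]; exact this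
    · exact hd2 t htt a
  -- limits of the distances at the two ends
  have hcγ0 : ContinuousAt γ 0 := (hsol 0 ⟨le_refl _, hS.le⟩).1.continuousAt
  have hcγS : ContinuousAt γ S := (hsol S ⟨hS.le, le_refl _⟩).1.continuousAt
  have hIoi : ∀ᶠ t in 𝓝[>] (0 : ℝ), t ∈ Ioo 0 Ω := Ioo_mem_nhdsGT hΩ0
  have hIio : ∀ᶠ t in 𝓝[<] Ω, t ∈ Ioo 0 Ω := Ioo_mem_nhdsLT hΩ0
  have hlim0 : Tendsto (fun t => q 2 t - q 1 t) (𝓝[>] 0) (𝓝 0) := by
    have h1 : Tendsto (fun t => γ (σ t)) (𝓝[>] 0) (𝓝 (γ 0)) := hcγ0.tendsto.comp hσ0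
    have h2 : Tendsto (fun t => cu (γ (σ t)) / 2 * (cosh (cw (γ (σ t))) + (-1))) (𝓝[>] 0)
        (𝓝 (cu (γ 0) / 2 * (cosh (cw (γ 0)) + (-1)))) :=
      (ec_fin_cont (X0 := γ 0) (-1)).tendsto.comp h1
    have h3 : cu (γ 0) / 2 * (cosh (cw (γ 0)) + (-1)) = 0 := by
      rw [h0]; simp [Xin, cw, cu]
    rw [h3] at h2
    refine h2.congr' ?_
    filter_upwards [hIoi] with t htt
    obtain ⟨hs, -, -⟩ := hσ1 t htt
    change _ = qq 2 (γ (σ t)) - qq 1 (γ (σ t))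
    rw [ec_fin_sub1 (by rw [hce _ (hmemI _ hs)]; exact he.le)]
    ring
  have hlimS : ∃ b : Fin 3, b ≠ 2 ∧ Tendsto (fun t => q 2 t - q b t) (𝓝[<] Ω) (𝓝 0) := by
    have h1 : Tendsto (fun t => γ (σ t)) (𝓝[<] Ω) (𝓝 (γ S)) := hcγS.tendsto.comp hσS
    unfold CEnd Zt at hend
    rcases neg_one_pow_eq_or ℂ (r.length + 1) with h | h
    · refine ⟨1, by decide, ?_⟩
      have h2 : Tendsto (fun t => cu (γ (σ t)) / 2 * (cosh (cw (γ (σ t))) + (-1))) (𝓝[<] Ω)
          (𝓝 (cu (γ S) / 2 * (cosh (cw (γ S)) + (-1)))) :=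
        (ec_fin_cont (X0 := γ S) (-1)).tendsto.comp h1
      have h3 : cu (γ S) / 2 * (cosh (cw (γ S)) + (-1)) = 0 := by
        rw [hend, h]; ring
      rw [h3] at h2
      refine h2.congr' ?_
      filter_upwards [hIio] with t htt
      obtain ⟨hs, -, -⟩ := hσ1 t htt
      change _ = qq 2 (γ (σ t)) - qq 1 (γ (σ t))
      rw [ec_fin_sub1 (by rw [hce _ (hmemI _ hs)]; exact he.le)]
      ring
    · refine ⟨0, by decide, ?_⟩
      have h2 : Tendsto (fun t => cu (γ (σ t)) / 2 * (cosh (cw (γ (σ t))) + 1)) (𝓝[<] Ω)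
          (𝓝 (cu (γ S) / 2 * (cosh (cw (γ S)) + 1))) :=
        (ec_fin_cont (X0 := γ S) 1).tendsto.comp h1
      have h3 : cu (γ S) / 2 * (cosh (cw (γ S)) + 1) = 0 := by
        rw [hend, h]; ring
      rw [h3] at h2
      refine h2.congr' ?_
      filter_upwards [hIio] with t htt
      obtain ⟨hs, -, -⟩ := hσ1 t htt
      change _ = qq 2 (γ (σ t)) - qq 0 (γ (σ t))
      rw [ec_fin_sub0 (by rw [hce _ (hmemI _ hs)]; exact he.le)]
  refine ⟨((0 : ℝ) : EReal), (Ω : EReal), q, EReal.coe_lt_coe_iff.2 hΩ0, hsolq, ?_, ?_⟩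
  · -- maximality
    intro α' ω' q' hq' hα hω hagree
    rw [hSol] at hq'
    have hagree' : ∀ t ∈ Ioo 0 Ω, ∀ a, q' a t = q a t := fun t htt =>
      hagree t (EReal.coe_lt_coe_iff.2 htt.1) (EReal.coe_lt_coe_iff.2 htt.2)
    constructor
    · by_contra hne
      have hlt : α' < ((0 : ℝ) : EReal) := lt_of_le_of_ne hα hne
      have hlt2 : ((0 : ℝ) : EReal) < ω' := lt_of_lt_of_le (EReal.coe_lt_coe_iff.2 hΩ0) hω
      obtain ⟨hne', hder⟩ := hq' 0 hlt hlt2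
      have hc2 : Tendsto (q' 2) (𝓝[>] 0) (𝓝 (q' 2 0)) :=
        (hder 2).1.continuousAt.tendsto.mono_left nhdsWithin_le_nhds
      have hc1 : Tendsto (q' 1) (𝓝[>] 0) (𝓝 (q' 1 0)) :=
        (hder 1).1.continuousAt.tendsto.mono_left nhdsWithin_le_nhds
      have h3 : Tendsto (fun t => q' 2 t - q' 1 t) (𝓝[>] 0) (𝓝 0) := by
        refine hlim0.congr' ?_
        filter_upwards [hIoi] with t htt
        rw [hagree' t htt, hagree' t htt]
      have h4 := tendsto_nhds_unique (hc2.sub hc1) h3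
      exact hne' 2 1 (by decide) (sub_eq_zero.1 h4)
    · by_contra hne
      have hlt : (Ω : EReal) < ω' := lt_of_le_of_ne hω (Ne.symm hne)
      have hlt2 : α' < (Ω : EReal) := lt_of_le_of_lt hα (EReal.coe_lt_coe_iff.2 hΩ0)
      obtain ⟨hne', hder⟩ := hq' Ω hlt2 hlt
      obtain ⟨b, hb, hlimb⟩ := hlimS
      have hc2 : Tendsto (q' 2) (𝓝[<] Ω) (𝓝 (q' 2 Ω)) :=
        (hder 2).1.continuousAt.tendsto.mono_left nhdsWithin_le_nhds
      have hc1 : Tendsto (q' b) (𝓝[<] Ω) (𝓝 (q' b Ω)) :=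
        (hder b).1.continuousAt.tendsto.mono_left nhdsWithin_le_nhds
      have h3 : Tendsto (fun t => q' 2 t - q' b t) (𝓝[<] Ω) (𝓝 0) := by
        refine hlimb.congr' ?_
        filter_upwards [hIio] with t htt
        rw [hagree' t htt, hagree' t htt]
      have h4 := tendsto_nhds_unique (hc2.sub hc1) h3
      exact hne' 2 b (Ne.symm hb) (sub_eq_zero.1 h4)
  · -- the eclipses
    have hmem : ∀ i, τ i ∈ Ioo 0 S := fun i => ⟨(hτin i).1, (hτin i).2⟩
    refine ⟨fun i => ct (γ (τ (Fin.cast hlen.symm i))), ?_, ?_, ?_, ?_⟩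
    · intro i j hij
      apply htm (hmemI _ (hmem _)) (hmemI _ (hmem _))
      apply hτm
      exact hij
    · intro i
      have := (hσ2 _ (hmem (Fin.cast hlen.symm i))).1
      exact ⟨EReal.coe_lt_coe_iff.2 this.1, EReal.coe_lt_coe_iff.2 this.2⟩
    · intro t h1 h2 hcol
      have htt := hIoo t h1 h2
      obtain ⟨hs, hts, -⟩ := hσ1 t htt
      have h3 := (col_iff (hu _ (hmemI _ hs)) (by rw [hce _ (hmemI _ hs)]; exact he.le)).1 hcol
      obtain ⟨i, hi⟩ := hτall _ hs.1 hs.2 h3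
      refine ⟨Fin.cast hlen i, ?_⟩
      change ct (γ (τ (Fin.cast hlen.symm (Fin.cast hlen i)))) = t
      rw [show Fin.cast hlen.symm (Fin.cast hlen i) = i from rfl, hi]
      exact hts
    · intro i b c hb hc hbc
      set j := Fin.cast hlen.symm i with hj
      have hjm := hmem j
      have hσj := (hσ2 _ hjm).2
      have hget : r.get j = code i (w.get i) := by
        rw [List.get_eq_getElem]
        simp only [hr, List.getElem_ofFn]
        rfl
      obtain ⟨him, -, hL⟩ := hτend j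
      rw [hget] at hL
      change Sbtw ℝ (qq b (γ (σ (ct (γ (τ j)))))) (qq (w.get i) (γ (σ (ct (γ (τ j))))))
        (qq c (γ (σ (ct (γ (τ j))))))
      rw [hσj]
      exact sbtw_of_letter (hu _ (hmemI _ hjm)) (by rw [hce _ (hmemI _ hjm)]; exact he.le) him hL
        b c hb hc hbc

end Pool.Agent.Ecl
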