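import Pool.Agent.Lib_helper34.EclF.FIN

/-! Wanted names of block FIN -/

namespace Pool.Agent.Ecl

alias final := final_pr

end Pool.Agent.Ecl
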