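import Pool.Agent.Lib_helper34.Ecl.Defs

/-!
# EC3, blocks LST and FLI: one arc of a Thiele-Burrau itinerary, unrolled
-/

set_option autoImplicit false

namespace Pool.Agent.Ecl

open Set Complex Filter Topology

theorem ec_lst_zS (y : St) : zS y = (y.xi : ℂ) + (y.eta : ℂ) * I := by
  apply Complex.ext <;> simp [zS]

theorem ec_lst_vS (y : St) : vS y = (y.p : ℂ) + (y.q : ℂ) * I := by
  apply Complex.ext <;> simp [vS]

theorem ec_lst_cosh_re (y : St) : (cosh (zS y)).re = Real.cosh y.xi * Real.cos y.eta := by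
  rw [ec_lst_zS, Complex.cosh_add, Complex.cosh_mul_I, Complex.sinh_mul_I]
  simp [← Complex.ofReal_cosh, ← Complex.ofReal_sinh, ← Complex.ofReal_cos,
    ← Complex.ofReal_sin]

theorem ec_lst_cosh_im (y : St) : (cosh (zS y)).im = Real.sinh y.xi * Real.sin y.eta := by
  rw [ec_lst_zS, Complex.cosh_add, Complex.cosh_mul_I, Complex.sinh_mul_I]
  simp [← Complex.ofReal_cosh, ← Complex.ofReal_sinh, ← Complex.ofReal_cos,
    ← Complex.ofReal_sin]

theorem ec_lst_sinh_re (y : St) : (sinh (zS y)).re = Real.sinh y.xi * Real.cos y.eta := by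
  rw [ec_lst_zS, Complex.sinh_add, Complex.cosh_mul_I, Complex.sinh_mul_I]
  simp [← Complex.ofReal_cosh, ← Complex.ofReal_sinh, ← Complex.ofReal_cos,
    ← Complex.ofReal_sin]

theorem ec_lst_sinh_im (y : St) : (sinh (zS y)).im = Real.cosh y.xi * Real.sin y.eta := by
  rw [ec_lst_zS, Complex.sinh_add, Complex.cosh_mul_I, Complex.sinh_mul_I]
  simp [← Complex.ofReal_cosh, ← Complex.ofReal_sinh, ← Complex.ofReal_cos,
    ← Complex.ofReal_sin]

theorem ec_lst_sv_im (y : St) : (sinh (zS y) * vS y).im =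
    Real.sinh y.xi * Real.cos y.eta * y.q + Real.cosh y.xi * Real.sin y.eta * y.p := by
  rw [Complex.mul_im, ec_lst_sinh_re, ec_lst_sinh_im]
  rfl

theorem ec_lst_cos (x : ℝ) {c : ℝ} (hc : c = 1 ∨ c = -1) (n : ℤ) :
    Real.cos (c * x + Real.pi * n) = (-1) ^ n * Real.cos x := by
  rw [mul_comm Real.pi, Real.cos_add_int_mul_pi]
  rcases hc with rfl | rfl <;> simp

theorem ec_lst_sin (x : ℝ) {c : ℝ} (hc : c = 1 ∨ c = -1) (n : ℤ) :
    Real.sin (c * x + Real.pi * n) = (-1) ^ n * (c * Real.sin x) := by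
  rw [mul_comm Real.pi, Real.sin_add_int_mul_pi]
  rcases hc with rfl | rfl <;> simp

theorem ec_lst_cosh (x : ℝ) {c : ℝ} (hc : c = 1 ∨ c = -1) : Real.cosh (c * x) = Real.cosh x := by
  rcases hc with rfl | rfl <;> simp

theorem ec_lst_sinh (x : ℝ) {c : ℝ} (hc : c = 1 ∨ c = -1) :
    Real.sinh (c * x) = c * Real.sinh x := by
  rcases hc with rfl | rfl <;> simp

theorem ec_lst_cc {c : ℝ} (hc : c = 1 ∨ c = -1) : c * c = 1 := by
  rcases hc with rfl | rfl <;> simp

theorem ec_lst_tr_re (y : St) {c : ℝ} (hc : c = 1 ∨ c = -1) (n : ℤ) :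
    (cosh (zS (tr c n y))).re = (-1) ^ n * (Real.cosh y.xi * Real.cos y.eta) := by
  rw [ec_lst_cosh_re]
  show Real.cosh (c * y.xi) * Real.cos (c * y.eta + Real.pi * n) = _
  rw [ec_lst_cos _ hc, ec_lst_cosh _ hc]
  ring

theorem ec_lst_tr_im (y : St) {c : ℝ} (hc : c = 1 ∨ c = -1) (n : ℤ) :
    (cosh (zS (tr c n y))).im = (-1) ^ n * (Real.sinh y.xi * Real.sin y.eta) := by
  rw [ec_lst_cosh_im]
  show Real.sinh (c * y.xi) * Real.sin (c * y.eta + Real.pi * n) = _
  rw [ec_lst_sin _ hc, ec_lst_sinh _ hc]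
  linear_combination ((-1 : ℝ) ^ n * (Real.sinh y.xi * Real.sin y.eta)) * ec_lst_cc hc

theorem ec_lst_tr_sv (y : St) {c : ℝ} (hc : c = 1 ∨ c = -1) (n : ℤ) :
    (sinh (zS (tr c n y)) * vS (tr c n y)).im = (-1) ^ n *
      (Real.sinh y.xi * Real.cos y.eta * y.q + Real.cosh y.xi * Real.sin y.eta * y.p) := by
  rw [ec_lst_sv_im]
  show Real.sinh (c * y.xi) * Real.cos (c * y.eta + Real.pi * n) * (c * y.q)
    + Real.cosh (c * y.xi) * Real.sin (c * y.eta + Real.pi * n) * (c * y.p) = _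
  rw [ec_lst_sin _ hc, ec_lst_sinh _ hc, ec_lst_cos _ hc, ec_lst_cosh _ hc]
  linear_combination ((-1 : ℝ) ^ n * (Real.sinh y.xi * Real.cos y.eta * y.q
    + Real.cosh y.xi * Real.sin y.eta * y.p)) * ec_lst_cc hc

theorem ec_lst_pow_ne (n : ℤ) : ((-1 : ℝ) ^ n) ≠ 0 := zpow_ne_zero _ (by norm_num)

theorem ec_lst_pow_mul (k : ℕ) : ((-1 : ℝ) ^ k) * (-1) ^ k = 1 := by
  rw [← mul_pow]
  norm_num

/-- end through the side `e` -/
theorem ec_lst_exit {y : St} {e : Ex} (k : ℕ) {c : ℝ} (n : ℤ) (hc : c = 1 ∨ c = -1)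
    (hn : (-1 : ℝ) ^ n = (-1) ^ k) (h : Exits e y) : TEndS k e (tr c n y) := by
  have hpi := Real.pi_pos
  unfold TEndS
  rw [ec_lst_tr_im _ hc, ec_lst_tr_sv _ hc, ec_lst_tr_re _ hc]
  cases e with
  | mid =>
    obtain ⟨h1, h2, h3, h4⟩ := h
    have hs : 0 < Real.sin y.eta := Real.sin_pos_of_pos_of_lt_pi h3 h4
    rw [h1, Real.sinh_zero, Real.cosh_zero]
    refine ⟨by ring, ?_, ?_⟩
    · refine mul_ne_zero (ec_lst_pow_ne n) ?_
      rw [zero_mul, zero_mul, zero_add, one_mul]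
      exact mul_ne_zero hs.ne' h2.ne
    · have hsq := Real.sin_sq_add_cos_sq y.eta
      have h5 : Real.cos y.eta < 1 := by nlinarith
      have h6 : -1 < Real.cos y.eta := by nlinarith
      show -1 < (-1 : ℝ) ^ n * (1 * Real.cos y.eta) ∧ (-1 : ℝ) ^ n * (1 * Real.cos y.eta) < 1
      rw [hn, one_mul]
      rcases neg_one_pow_eq_or ℝ k with hk | hk <;> rw [hk] <;> constructor <;> linarith
  | rgt =>
    obtain ⟨h1, h2, h3⟩ := h
    have hs : 0 < Real.sinh y.xi := Real.sinh_pos_iff.mpr h3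
    have hc1 : 1 < Real.cosh y.xi := Real.one_lt_cosh.mpr h3.ne'
    rw [h1, Real.sin_zero, Real.cos_zero]
    refine ⟨by ring, ?_, ?_⟩
    · refine mul_ne_zero (ec_lst_pow_ne n) ?_
      rw [mul_one, mul_zero, zero_mul, add_zero]
      exact mul_ne_zero hs.ne' h2.ne
    · show 1 < (-1 : ℝ) ^ k * ((-1 : ℝ) ^ n * (Real.cosh y.xi * 1))
      rw [hn]
      have := ec_lst_pow_mul k
      have h5 : (-1 : ℝ) ^ k * ((-1 : ℝ) ^ k * (Real.cosh y.xi * 1)) = Real.cosh y.xi := by
        linear_combination Real.cosh y.xi * this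
      rw [h5]
      exact hc1
  | lft =>
    obtain ⟨h1, h2, h3⟩ := h
    have hs : 0 < Real.sinh y.xi := Real.sinh_pos_iff.mpr h3
    have hc1 : 1 < Real.cosh y.xi := Real.one_lt_cosh.mpr h3.ne'
    rw [h1, Real.sin_pi, Real.cos_pi]
    refine ⟨by ring, ?_, ?_⟩
    · refine mul_ne_zero (ec_lst_pow_ne n) ?_
      rw [mul_zero, zero_mul, add_zero]
      exact mul_ne_zero (mul_ne_zero hs.ne' (by norm_num)) h2.ne'
    · show 1 < -((-1 : ℝ) ^ k * ((-1 : ℝ) ^ n * (Real.cosh y.xi * -1)))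
      rw [hn]
      have := ec_lst_pow_mul k
      have h5 : -((-1 : ℝ) ^ k * ((-1 : ℝ) ^ k * (Real.cosh y.xi * -1))) = Real.cosh y.xi := by
        linear_combination Real.cosh y.xi * this
      rw [h5]
      exact hc1

theorem ec_lst_im_ne {y : St} {c : ℝ} (n : ℤ) (hc : c = 1 ∨ c = -1) (h1 : 0 < y.xi)
    (h2 : 0 < y.eta) (h3 : y.eta < Real.pi) : (cosh (zS (tr c n y))).im ≠ 0 := by
  rw [ec_lst_tr_im _ hc]
  exact mul_ne_zero (ec_lst_pow_ne n) (mul_ne_zero (Real.sinh_pos_iff.mpr h1).ne'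
    (Real.sin_pos_of_pos_of_lt_pi h2 h3).ne')

theorem ec_lst_isSol_mono {x : ℝ → St} {T S : ℝ} (hx : IsSol x T) (hS : S ≤ T) : IsSol x S :=
  fun t ht => hx t ⟨ht.1, ht.2.trans hS⟩

theorem ec_lst_isSol_tr {x : ℝ → St} {T : ℝ} (hx : IsSol x T) {c : ℝ} (hc : c = 1 ∨ c = -1)
    (n : ℤ) : IsSol (fun s => tr c n (x s)) T := by
  have hcos : ∀ y : ℝ, Real.cos (c * y + Real.pi * n) ^ 2 = Real.cos y ^ 2 := by
    intro y
    rw [ec_lst_cos _ hc, mul_pow]
    have : ((-1 : ℝ) ^ n) ^ 2 = 1 := by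
      rw [← zpow_natCast, ← zpow_mul, mul_comm, zpow_mul]
      norm_num
    rw [this, one_mul]
  have hJ : ∀ a b : ℝ, JJ (c * a) (c * b + Real.pi * n) = JJ a b := by
    intro a b
    unfold JJ
    rw [hcos, ec_lst_cosh _ hc]
  have hsc : ∀ y : ℝ, Real.sin (c * y + Real.pi * n) * Real.cos (c * y + Real.pi * n)
      = c * (Real.sin y * Real.cos y) := by
    intro y
    rw [ec_lst_cos _ hc, ec_lst_sin _ hc]
    have : ((-1 : ℝ) ^ n) * (-1 : ℝ) ^ n = 1 := by
      rw [← mul_zpow]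
      norm_num
    linear_combination (c * Real.sin y * Real.cos y) * this
  intro t ht
  obtain ⟨h1, h2, h3, h4⟩ := hx t ht
  refine ⟨?_, ?_, ?_, ?_⟩
  · exact h1.const_mul c
  · exact (h2.const_mul c).add_const (Real.pi * n)
  · have h5 := h3.const_mul c
    have h6 : Fp (c * (x t).xi) (c * (x t).eta + Real.pi * n) (c * (x t).q)
        = c * Fp (x t).xi (x t).eta (x t).q := by
      unfold Fp
      rw [hJ, ec_lst_cosh _ hc, ec_lst_sinh _ hc]
      ring
    rw [← h6] at h5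
    exact h5
  · have h5 := h4.const_mul c
    have h6 : Fq (c * (x t).xi) (c * (x t).eta + Real.pi * n) (c * (x t).p)
        = c * Fq (x t).xi (x t).eta (x t).p := by
      unfold Fq
      rw [hJ, hcos, hsc]
      ring
    rw [← h6] at h5
    exact h5

/-- **LST.** the last arc, unrolled -/
theorem unroll_last_pr {a : St} {σ : ℝ} (k : ℕ) {c : ℝ} (n : ℤ) (hc : c = 1 ∨ c = -1)
    (hn : (-1 : ℝ) ^ n = (-1) ^ k) (h : LastArc a σ) :
    ∃ (S : ℝ) (x : ℝ → St), 0 < S ∧ IsSol x S ∧ x 0 = tr c n a ∧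
      (∀ s, 0 < s → s < S → (cosh (zS (x s))).im ≠ 0) ∧
      (0 < σ → TEndS k .lft (x S)) ∧ (σ < 0 → TEndS k .mid (x S)) ∧
      (σ = 0 → cosh (zS (x S)) = (-1) ^ (k + 1) ∧ (vS (x S) ^ 2).im < 0) := by
  obtain ⟨T', T, x, hT', hTT, hx0, hsol, hin, hmono, hline, hxi, heta⟩ := h
  have hpi := Real.pi_gt_three
  -- monotonicity on `[T', T]`
  have hcxi : ContinuousOn (fun s => (x s).xi) (Icc T' T) := fun s hs =>
    (hsol s ⟨by linarith [hs.1], hs.2⟩).1.continuousAt.continuousWithinAt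
  have hceta : ContinuousOn (fun s => (x s).eta) (Icc T' T) := fun s hs =>
    (hsol s ⟨by linarith [hs.1], hs.2⟩).2.1.continuousAt.continuousWithinAt
  have hanti : StrictAntiOn (fun s => (x s).xi) (Icc T' T) := by
    refine strictAntiOn_of_deriv_neg (convex_Icc _ _) hcxi ?_
    intro s hs
    rw [interior_Icc] at hs
    have h1 := (hsol s ⟨by linarith [hs.1], hs.2.le⟩).1
    rw [h1.deriv]
    exact (hmono s hs.1.le hs.2.le).1
  have hmon : StrictMonoOn (fun s => (x s).eta) (Icc T' T) := by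
    refine strictMonoOn_of_deriv_pos (convex_Icc _ _) hceta ?_
    intro s hs
    rw [interior_Icc] at hs
    have h1 := (hsol s ⟨by linarith [hs.1], hs.2.le⟩).2.1
    rw [h1.deriv]
    exact (hmono s hs.1.le hs.2.le).2.1
  have hmemT : T ∈ Icc T' T := ⟨hTT.le, le_rfl⟩
  have hmemT' : T' ∈ Icc T' T := ⟨le_rfl, hTT.le⟩
  have hinT' := hin T' hT' le_rfl
  have hetalow : ∀ s ∈ Icc T' T, 0 < (x s).eta := by
    intro s hs
    have h1 := (abs_lt.mp (hmono s hs.1 hs.2).2.2.2).1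
    linarith
  -- the arc before `S` is inside
  have key : ∀ S, T' < S → S ≤ T → (∀ s, T' < s → s < S → 0 < (x s).xi ∧ (x s).eta < Real.pi) →
      ∀ s, 0 < s → s < S → (cosh (zS (tr c n (x s)))).im ≠ 0 := by
    intro S h1 h2 h3 s hs0 hsS
    rcases le_or_gt s T' with h4 | h4
    · obtain ⟨h5, h6, h7⟩ := hin s hs0 h4
      exact ec_lst_im_ne n hc h5 h6 h7
    · obtain ⟨h5, h6⟩ := h3 s h4 hsS
      exact ec_lst_im_ne n hc h5 (hetalow s ⟨h4.le, (hsS.trans_le h2).le⟩) h6
  rcases lt_trichotomy σ 0 with hσ | hσ | hσ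
  · -- `σ < 0`: the line `ξ = 0` is crossed
    have h0mem : (0 : ℝ) ∈ Ioo (x T).xi (x T').xi := by
      rw [hxi]
      exact ⟨hσ, hinT'.1⟩
    obtain ⟨S, hS, hSxi⟩ := intermediate_value_Ioo' hTT.le hcxi h0mem
    have hSxi' : (x S).xi = 0 := hSxi
    have hSmem : S ∈ Icc T' T := ⟨hS.1.le, hS.2.le⟩
    have hSeta : (x S).eta < Real.pi := by
      have := hline S (by linarith [hS.1]) hS.2
      linarith
    have hex : Exits .mid (x S) :=
      ⟨hSxi', (hmono S hS.1.le hS.2.le).1, hetalow S hSmem, hSeta⟩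
    refine ⟨S, fun s => tr c n (x s), by linarith [hS.1],
      ec_lst_isSol_tr (ec_lst_isSol_mono hsol hS.2.le) hc n, by simp only [hx0], ?_, ?_, ?_, ?_⟩
    · refine key S hS.1 hS.2.le ?_
      intro s h1 h2
      have hsmem : s ∈ Icc T' T := ⟨h1.le, (h2.trans hS.2).le⟩
      constructor
      · have : (x S).xi < (x s).xi := hanti hsmem hSmem h2
        linarith
      · have : (x s).eta < (x S).eta := hmon hsmem hSmem h2
        linarith
    · intro h1
      linarith
    · intro _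
      exact ec_lst_exit k n hc hn hex
    · intro h1
      linarith
  · -- `σ = 0`: collision
    have hxi0 : (x T).xi = 0 := by rw [hxi, hσ]
    have heta0 : (x T).eta = Real.pi := by rw [heta, hσ, add_zero]
    refine ⟨T, fun s => tr c n (x s), by linarith,
      ec_lst_isSol_tr hsol hc n, by simp only [hx0], ?_, ?_, ?_, ?_⟩
    · refine key T hTT le_rfl ?_
      intro s h1 h2
      have hsmem : s ∈ Icc T' T := ⟨h1.le, h2.le⟩
      constructor
      · have : (x T).xi < (x s).xi := hanti hsmem hmemT h2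
        linarith
      · have : (x s).eta < (x T).eta := hmon hsmem hmemT h2
        linarith
    · intro h1
      linarith
    · intro h1
      linarith
    · intro _
      constructor
      · apply Complex.ext
        · rw [ec_lst_tr_re _ hc, hxi0, heta0, hn, Real.cosh_zero, Real.cos_pi]
          have : ((-1 : ℂ) ^ (k + 1)) = (((-1 : ℝ) ^ (k + 1) : ℝ) : ℂ) := by push_cast; rfl
          rw [this, Complex.ofReal_re, pow_succ]
          ring
        · rw [ec_lst_tr_im _ hc, hxi0, Real.sinh_zero]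
          have : ((-1 : ℂ) ^ (k + 1)) = (((-1 : ℝ) ^ (k + 1) : ℝ) : ℂ) := by push_cast; rfl
          rw [this, Complex.ofReal_im]
          ring
      · have h1 := (hmono T hTT.le le_rfl).1
        have h2 := (hmono T hTT.le le_rfl).2.1
        rw [pow_two, Complex.mul_im]
        show c * (x T).p * (c * (x T).q) + c * (x T).q * (c * (x T).p) < 0
        have h3 : c * (x T).p * (c * (x T).q) + c * (x T).q * (c * (x T).p)
            = 2 * ((x T).p * (x T).q) := by
          linear_combination (2 * (x T).p * (x T).q) * ec_lst_cc hc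
        rw [h3]
        nlinarith
  · -- `σ > 0`: the line `η = π` is crossed
    have h0mem : Real.pi ∈ Ioo (x T').eta (x T).eta := by
      rw [heta]
      exact ⟨hinT'.2.2, by linarith⟩
    obtain ⟨S, hS, hSeta⟩ := intermediate_value_Ioo hTT.le hceta h0mem
    have hSeta' : (x S).eta = Real.pi := hSeta
    have hSmem : S ∈ Icc T' T := ⟨hS.1.le, hS.2.le⟩
    have hSxi : 0 < (x S).xi := by
      have : (x T).xi < (x S).xi := hanti hSmem hmemT hS.2
      rw [hxi] at this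
      linarith
    have hex : Exits .lft (x S) := ⟨hSeta', (hmono S hS.1.le hS.2.le).2.1, hSxi⟩
    refine ⟨S, fun s => tr c n (x s), by linarith [hS.1],
      ec_lst_isSol_tr (ec_lst_isSol_mono hsol hS.2.le) hc n, by simp only [hx0], ?_, ?_, ?_, ?_⟩
    · refine key S hS.1 hS.2.le ?_
      intro s h1 h2
      have hsmem : s ∈ Icc T' T := ⟨h1.le, (h2.trans hS.2).le⟩
      constructor
      · have : (x S).xi < (x s).xi := hanti hsmem hSmem h2
        linarith
      · have : (x s).eta < (x S).eta := hmon hsmem hSmem h2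
        linarith
    · intro _
      exact ec_lst_exit k n hc hn hex
    · intro h1
      linarith
    · intro h1
      linarith

end Pool.Agent.Ecl
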