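import Pool.Agent.Lib_helper34.Ecl.Defs
import Pool.Agent.Lib_helper34.EclF.LST

/-!
# EC3, block FLI: one flight, unrolled
-/

set_option autoImplicit false

namespace Pool.Agent.Ecl

open Set Complex Filter Topology

/-- **FLI.** one flight, unrolled -/
theorem unroll_flight_pr {a y : St} {e : Ex} (k : ℕ) {c : ℝ} (n : ℤ) (hc : c = 1 ∨ c = -1)
    (hn : (-1 : ℝ) ^ n = (-1) ^ k) (h : Flight a e y) :
    (∃ (T : ℝ) (x : ℝ → St), 0 < T ∧ IsSol x T ∧ x 0 = tr c n a ∧ x T = tr c n y ∧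
      (∀ s, 0 < s → s < T → (cosh (zS (x s))).im ≠ 0) ∧ TEndS k e (x T)) ∧
    ∃ (c' : ℝ) (n' : ℤ), (c' = 1 ∨ c' = -1) ∧ (-1 : ℝ) ^ n' = (-1) ^ (k + 1) ∧
      tr c' n' (rot e y) = tr c n y := by
  obtain ⟨T, x, hT, hx0, hsol, hin, hxT, hex⟩ := h
  have hpi := Real.pi_pos
  constructor
  · refine ⟨T, fun s => tr c n (x s), hT, ec_lst_isSol_tr hsol hc n, by simp only [hx0],
      by simp only [hxT], ?_, ?_⟩
    · intro s hs1 hs2
      obtain ⟨h1, h2, h3⟩ := hin s hs1 hs2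
      exact ec_lst_im_ne n hc h1 h2 h3
    · show TEndS k e (tr c n (x T))
      rw [hxT]
      exact ec_lst_exit k n hc hn hex
  · -- `c` as an integer
    obtain ⟨m, hm, hmpar⟩ : ∃ m : ℤ, (m : ℝ) = c ∧ (-1 : ℝ) ^ m = -1 := by
      rcases hc with rfl | rfl
      · exact ⟨1, by norm_num, by norm_num⟩
      · exact ⟨-1, by norm_num, by norm_num⟩
    have hneg : (-1 : ℝ) ^ (-m) = -1 := by
      rw [zpow_neg, hmpar]
      norm_num
    have hadd : (-1 : ℝ) ^ (n + m) = (-1) ^ (k + 1) := by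
      rw [zpow_add₀ (by norm_num), hmpar, hn, pow_succ]
    have hsub : (-1 : ℝ) ^ (n - m) = (-1) ^ (k + 1) := by
      rw [sub_eq_add_neg, zpow_add₀ (by norm_num), hneg, hn, pow_succ]
    cases e with
    | mid =>
      obtain ⟨h1, h2, h3, h4⟩ := hex
      refine ⟨-c, n + m, ?_, hadd, ?_⟩
      · rcases hc with rfl | rfl
        · right; rfl
        · left; norm_num
      · show (⟨-c * 0, -c * (Real.pi - y.eta) + Real.pi * ((n + m : ℤ) : ℝ), -c * -y.p,
          -c * -y.q⟩ : St) = ⟨c * y.xi, c * y.eta + Real.pi * n, c * y.p, c * y.q⟩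
        rw [St.mk.injEq]
        refine ⟨by rw [h1]; ring, ?_, by ring, by ring⟩
        push_cast
        rw [hm]
        ring
    | rgt =>
      obtain ⟨h1, h2, h3⟩ := hex
      refine ⟨c, n - m, hc, hsub, ?_⟩
      show (⟨c * y.xi, c * Real.pi + Real.pi * ((n - m : ℤ) : ℝ), c * y.p, c * y.q⟩ : St)
        = ⟨c * y.xi, c * y.eta + Real.pi * n, c * y.p, c * y.q⟩
      rw [St.mk.injEq]
      refine ⟨rfl, ?_, rfl, rfl⟩
      push_cast
      rw [hm, h1]
      ring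
    | lft =>
      obtain ⟨h1, h2, h3⟩ := hex
      refine ⟨c, n + m, hc, hadd, ?_⟩
      show (⟨c * y.xi, c * 0 + Real.pi * ((n + m : ℤ) : ℝ), c * y.p, c * y.q⟩ : St)
        = ⟨c * y.xi, c * y.eta + Real.pi * n, c * y.p, c * y.q⟩
      rw [St.mk.injEq]
      refine ⟨rfl, ?_, rfl, rfl⟩
      push_cast
      rw [hm, h1]
      ring

end Pool.Agent.Ecl
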