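import Pool.Agent.Lib_helper34.Ecl.Defs

/-!
# EC3, block GEO: eclipses of the three bodies
-/

set_option autoImplicit false

namespace Pool.Agent.Ecl

open Set Complex Filter Topology

private theorem ec_geo_coef {X : E7} (he : 0 ≤ ce X) :
    (((1 / (1 + ce X) : ℝ) : ℂ)) + ((ce X / (1 + ce X) : ℝ) : ℂ) = 1 := by
  rw [← ofReal_add]
  have h : (1 + ce X) ≠ 0 := by positivity
  have : 1 / (1 + ce X) + ce X / (1 + ce X) = 1 := by
    field_simp
  rw [this, ofReal_one]

private theorem ec_geo_10 (X : E7) : qq 1 X = qq 0 X + cu X := by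
  simp [qq]
  ring

private theorem ec_geo_20 {X : E7} (he : 0 ≤ ce X) :
    qq 2 X = qq 0 X + cu X / 2 * (Zt X + 1) := by
  have h := ec_geo_coef he
  have h2 : (((1 / (1 + ce X) : ℝ) : ℂ)) * yy X
      = yy X - ((ce X / (1 + ce X) : ℝ) : ℂ) * yy X := by
    linear_combination (yy X) * h
  have h3 : qq 2 X = (((1 / (1 + ce X) : ℝ) : ℂ)) * yy X := by simp [qq]
  have h4 : qq 0 X = -((ce X / (1 + ce X) : ℝ) : ℂ) * yy X - cu X / 2 := by simp [qq]
  rw [h3, h2, h4, Zt]
  have h5 : yy X = cu X / 2 * cosh (cw X) := rfl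
  rw [h5]
  ring

/-- **GEO.** -/
theorem col_iff_pr {X : E7} (hX : cu X ≠ 0) (he : 0 ≤ ce X) :
    Collinear ℝ ({qq 0 X, qq 1 X, qq 2 X} : Set ℂ) ↔ (Zt X).im = 0 := by
  rw [collinear_iff_of_mem (p₀ := qq 0 X) (by simp)]
  constructor
  · rintro ⟨v, hv⟩
    obtain ⟨r1, h1⟩ := hv (qq 1 X) (by simp)
    obtain ⟨r2, h2⟩ := hv (qq 2 X) (by simp)
    rw [ec_geo_10] at h1
    rw [ec_geo_20 he] at h2
    simp only [vadd_eq_add, real_smul] at h1 h2
    have h1' : cu X = r1 * v := by linear_combination h1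
    have h2' : cu X / 2 * (Zt X + 1) = r2 * v := by linear_combination h2
    have hr1 : (r1 : ℂ) ≠ 0 := by
      rintro h; rw [h, zero_mul] at h1'; exact hX h1'
    have h3 : cu X * ((r1 : ℂ) * (Zt X + 1) - 2 * r2) = 0 := by
      linear_combination (2 * (r1 : ℂ)) * h2' - 2 * (r2 : ℂ) * h1'
    have h4 : (r1 : ℂ) * (Zt X + 1) - 2 * r2 = 0 := by
      rcases mul_eq_zero.mp h3 with h | h
      · exact absurd h hX
      · exact h
    have h5 := congrArg Complex.im h4
    simp at h5
    rcases h5 with h5 | h5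
    · exfalso; apply hr1; rw [h5]; simp
    · exact h5
  · intro h
    have hZ : Zt X = (((Zt X).re : ℝ) : ℂ) := by
      apply Complex.ext <;> simp [h]
    refine ⟨cu X, ?_⟩
    intro p hp
    simp only [mem_insert_iff, mem_singleton_iff] at hp
    rcases hp with rfl | rfl | rfl
    · exact ⟨0, by simp⟩
    · refine ⟨1, ?_⟩
      rw [ec_geo_10]
      simp [add_comm]
    · refine ⟨((Zt X).re + 1) / 2, ?_⟩
      rw [ec_geo_20 he]
      simp only [vadd_eq_add, real_smul]
      push_cast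
      rw [← hZ]
      ring

private theorem ec_geo_sinh {X : E7} (hJ : cJ X ≠ 0) : sinh (cw X) ≠ 0 := by
  intro h
  apply hJ
  simp [cJ, h]

private theorem ec_geo_sq (X : E7) : Zt X ^ 2 = 1 + sinh (cw X) ^ 2 := by
  have := Complex.cosh_sq (cw X)
  rw [Zt, this]; ring

/-- **GEO.** -/
theorem qq_ne_pr {X : E7} (hX : cu X ≠ 0) (hJ : cJ X ≠ 0) (he : 0 ≤ ce X) (a b : Fin 3)
    (hab : a ≠ b) : qq a X ≠ qq b X := by
  have hs := ec_geo_sinh hJ
  have hz := ec_geo_sq X
  have h01 : qq 0 X ≠ qq 1 X := by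
    rw [ec_geo_10]; intro h
    apply hX; linear_combination -h
  have h02 : qq 0 X ≠ qq 2 X := by
    rw [ec_geo_20 he]; intro h
    have h1 : cu X * (Zt X + 1) = 0 := by linear_combination (-2) * h
    rcases mul_eq_zero.mp h1 with h1 | h1
    · exact hX h1
    · have h2 : sinh (cw X) ^ 2 = 0 := by linear_combination (Zt X - 1) * h1 - hz
      exact hs (pow_eq_zero_iff (two_ne_zero) |>.mp h2)
  have h12 : qq 1 X ≠ qq 2 X := by
    rw [ec_geo_20 he, ec_geo_10]; intro h
    have h1 : cu X * (Zt X - 1) = 0 := by linear_combination (-2) * h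
    rcases mul_eq_zero.mp h1 with h1 | h1
    · exact hX h1
    · have h2 : sinh (cw X) ^ 2 = 0 := by linear_combination (Zt X + 1) * h1 - hz
      exact hs (pow_eq_zero_iff (two_ne_zero) |>.mp h2)
  fin_cases a <;> fin_cases b <;>
    first
    | exact absurd rfl hab
    | exact h01
    | exact h02
    | exact h12
    | exact h01.symm
    | exact h02.symm
    | exact h12.symm

private theorem ec_geo_even {k : ℕ} (h : Even k) : ((-1 : ℝ)) ^ k = 1 := h.neg_one_pow

private theorem ec_geo_odd {k : ℕ} (h : ¬ Even k) : ((-1 : ℝ)) ^ k = -1 :=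
  (Nat.not_even_iff_odd.mp h).neg_one_pow

private theorem ec_geo_l1 {k : ℕ} {x : ℝ} (hL : Letter k (code k 1) x) : 1 < x := by
  by_cases hk : Even k
  · simp only [code, hk] at hL
    simp [Letter, ec_geo_even hk] at hL
    exact hL
  · simp only [code, hk] at hL
    simp [Letter, ec_geo_odd hk] at hL
    exact hL

private theorem ec_geo_l0 {k : ℕ} {x : ℝ} (hL : Letter k (code k 0) x) : x < -1 := by
  by_cases hk : Even k
  · simp only [code, hk] at hL
    simp [Letter, ec_geo_even hk] at hL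
    linarith
  · simp only [code, hk] at hL
    simp [Letter, ec_geo_odd hk] at hL
    linarith

private theorem ec_geo_l2 {k : ℕ} {x : ℝ} (hL : Letter k (code k 2) x) : -1 < x ∧ x < 1 := by
  simpa [code, Letter] using hL

/-- **GEO.** -/
theorem sbtw_of_letter_pr {X : E7} (hX : cu X ≠ 0) (he : 0 ≤ ce X) (him : (Zt X).im = 0)
    {k : ℕ} {a : Fin 3} (hL : Letter k (code k a) (Zt X).re) (b c : Fin 3) (hb : b ≠ a)
    (hc : c ≠ a) (hbc : b ≠ c) : Sbtw ℝ (qq b X) (qq a X) (qq c X) := by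
  have h10 := ec_geo_10 X
  have h20 := ec_geo_20 he
  have hZ : Zt X = (((Zt X).re : ℝ) : ℂ) := by
    apply Complex.ext <;> simp [him]
  set x : ℝ := (Zt X).re with hx
  rw [hZ] at h20
  set A := qq 0 X with hA
  -- the three basic statements
  have key : ∀ (P Q R : ℂ) (t : ℝ), 0 < t → t < 1 → Q = P + t * (R - P) → P ≠ R →
      Sbtw ℝ P Q R := by
    intro P Q R t ht0 ht1 hQ hPR
    rw [sbtw_iff_mem_image_Ioo_and_ne]
    refine ⟨⟨t, ⟨ht0, ht1⟩, ?_⟩, hPR⟩
    rw [AffineMap.lineMap_apply]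
    simp only [vsub_eq_sub, real_smul, vadd_eq_add]
    rw [hQ]; ring
  have s2 : a = 2 → Sbtw ℝ (qq 0 X) (qq 2 X) (qq 1 X) := by
    rintro rfl
    obtain ⟨h1, h2⟩ := ec_geo_l2 hL
    refine key _ _ _ ((x + 1) / 2) (by linarith) (by linarith) ?_ ?_
    · rw [h20, h10, ← hA]; push_cast; ring
    · rw [h10, ← hA]; intro h; apply hX; linear_combination -h
  have s1 : a = 1 → Sbtw ℝ (qq 0 X) (qq 1 X) (qq 2 X) := by
    rintro rfl
    have h1 := ec_geo_l1 hL
    have hne : ((x : ℂ) + 1) ≠ 0 := by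
      have : (x + 1 : ℝ) ≠ 0 := by linarith
      exact_mod_cast this
    refine key _ _ _ (2 / (x + 1)) (by positivity) ?_ ?_ ?_
    · rw [div_lt_one (by linarith)]; linarith
    · rw [h20, h10, ← hA]; push_cast; field_simp; ring
    · rw [h20, ← hA]; intro h
      have h3 : cu X * ((x : ℂ) + 1) = 0 := by linear_combination (-2) * h
      rcases mul_eq_zero.mp h3 with h3 | h3
      · exact hX h3
      · exact hne h3
  have s0 : a = 0 → Sbtw ℝ (qq 1 X) (qq 0 X) (qq 2 X) := by
    rintro rfl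
    have h1 := ec_geo_l0 hL
    have hne : (1 - (x : ℂ)) ≠ 0 := by
      have : (1 - x : ℝ) ≠ 0 := by linarith
      exact_mod_cast this
    refine key _ _ _ (2 / (1 - x)) (div_pos two_pos (by linarith)) ?_ ?_ ?_
    · rw [div_lt_one (by linarith)]; linarith
    · rw [h20, h10, ← hA]; push_cast; field_simp; ring
    · rw [h20, h10]; intro h
      have h3 : cu X * (1 - (x : ℂ)) = 0 := by linear_combination 2 * h
      rcases mul_eq_zero.mp h3 with h3 | h3
      · exact hX h3
      · exact hne h3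
  fin_cases a <;> fin_cases b <;> fin_cases c <;>
    first
    | exact absurd rfl hb
    | exact absurd rfl hc
    | exact absurd rfl hbc
    | exact s0 rfl
    | exact s1 rfl
    | exact s2 rfl
    | exact (s0 rfl).symm
    | exact (s1 rfl).symm
    | exact (s2 rfl).symm

/-- **GEO.** no collision inside a pattern -/
theorem cJ_pos_of_pat_pr {X : E7} (hX : cu X ≠ 0)
    (h : (Zt X).im ≠ 0 ∨ ∃ (k : ℕ) (e : Ex), Letter k e (Zt X).re) : 0 < cJ X := by
  have hs : sinh (cw X) ≠ 0 := by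
    intro h0
    have hz := ec_geo_sq X
    rw [h0] at hz
    have h1 : (Zt X - 1) * (Zt X + 1) = 0 := by linear_combination hz
    have h2 : Zt X = 1 ∨ Zt X = -1 := by
      rcases mul_eq_zero.mp h1 with h2 | h2
      · left; linear_combination h2
      · right; linear_combination h2
    rcases h with h | ⟨k, e, h⟩
    · rcases h2 with h2 | h2 <;> · rw [h2] at h; simp at h
    · have hk : ((-1 : ℝ)) ^ k = 1 ∨ ((-1 : ℝ)) ^ k = -1 := neg_one_pow_eq_or ℝ k
      rcases h2 with h2 | h2 <;> rw [h2] at h <;> cases e <;> rcases hk with hk | hk <;>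
        simp [Letter, hk] at h <;> linarith
  have h1 : 0 < normSq (cu X) := normSq_pos.mpr hX
  have h2 : 0 < normSq (sinh (cw X)) := normSq_pos.mpr hs
  unfold cJ
  positivity

end Pool.Agent.Ecl
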