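import Pool.Agent.Lib_helper34.Ecl.Defs
import Pool.Agent.Lib_helper34.EclF.DERA

set_option autoImplicit false

namespace Pool.Agent.Ecl

open Set Complex Filter Topology

theorem ec_gh_alg (u ub S Sb c cb s sb v vb g e n hc hs : ℂ) (hn : n ^ 2 = u * ub) (hn0 : n ≠ 0)
    (u1 ub1 S1 Sb1 w1 wb1 v1 vb1 g1 n1 : ℂ)
    (hu1 : u1 = 4 * (u * ub * (s * sb) / 4) * S - e * cb * s * u * v)
    (hub1 : ub1 = 4 * (u * ub * (s * sb) / 4) * Sb - e * c * sb * ub * vb)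
    (hS1 : S1 = -(u * ub * (s * sb) / 4 / (4 * n ^ 3)) * u - e * g * (s * sb) / 2 * u +
      e * (S * c * sb * vb) + e / 2 * hc / n * u)
    (hSb1 : Sb1 = -(u * ub * (s * sb) / 4 / (4 * n ^ 3)) * ub - e * g * (s * sb) / 2 * ub +
      e * (Sb * cb * s * v) + e / 2 * hc / n * ub)
    (hw1 : w1 = -(S * c * sb * ub) + (1 + e + e * (c * cb)) * v)
    (hwb1 : wb1 = -(Sb * cb * s * u) + (1 + e + e * (c * cb)) * vb)
    (hv1 : v1 = -(g * (u * ub) / 2) * (s * cb) + Sb * u * v * (s * sb) + S * ub * vb * (c * cb) -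
      e * (v * vb) * (c * sb) + n * hs / 2)
    (hvb1 : vb1 = -(g * (u * ub) / 2) * (sb * c) + S * ub * vb * (s * sb) + Sb * u * v * (c * cb) -
      e * (v * vb) * (cb * s) + n * hs / 2)
    (hg1 : g1 = -2 * g * (s * sb) * ((Sb * u + S * ub) / 2) + (4 * (S * Sb) - 1 / (4 * n)) *
      ((cb * s * v + c * sb * vb) / 2) + 2 * hc * ((Sb * u + S * ub) / 2) / n)
    (hn1 : n1 = (ub * u1 + u * ub1) / 2 / n) :
    ((u1 * ub + u * ub1) * (s * sb) / 4 + u * ub * (c * w1 * sb + s * (cb * wb1)) / 4) * g +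
      u * ub * (s * sb) / 4 * g1 -
      ((Sb1 * cb * s * u * v + Sb * (sb * wb1) * s * u * v + Sb * cb * (c * w1) * u * v +
          Sb * cb * s * u1 * v + Sb * cb * s * u * v1) +
        (S1 * c * sb * ub * vb + S * (s * w1) * sb * ub * vb + S * c * (cb * wb1) * ub * vb +
          S * c * sb * ub1 * vb + S * c * sb * ub * vb1)) / 2 +
      (e * (s * w1 * cb + c * (sb * wb1)) * (v * vb) / 2 +
        (1 + e + e * (c * cb)) * (v1 * vb + v * vb1) / 2) -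
      (n1 * hc + n * (hs * ((w1 + wb1) / 2))) / 2 = 0 := by
  have hu0 : u ≠ 0 := by
    rintro rfl
    rw [zero_mul] at hn
    exact hn0 (pow_eq_zero_iff (two_ne_zero) |>.1 hn)
  have hub : ub = n ^ 2 / u := by
    rw [eq_div_iff hu0, hn]; ring
  subst hub
  subst hn1
  subst hg1 hvb1 hv1 hwb1 hw1 hSb1 hS1 hub1 hu1
  field_simp
  ring

theorem ec_gh_conj {f : ℝ → ℂ} {f' : ℂ} {t : ℝ} (h : HasDerivAt f f' t) :
    HasDerivAt (fun s => cj (f s)) (cj f') t :=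
  (Complex.conjCLE.toContinuousLinearMap).hasFDerivAt.comp_hasDerivAt t h

theorem ec_gh_re {f : ℝ → ℂ} {f' : ℂ} {t : ℝ} (h : HasDerivAt f f' t) :
    HasDerivAt (fun s => (f s).re) f'.re t :=
  Complex.reCLM.hasFDerivAt.comp_hasDerivAt t h

theorem ec_gh_im {f : ℝ → ℂ} {f' : ℂ} {t : ℝ} (h : HasDerivAt f f' t) :
    HasDerivAt (fun s => (f s).im) f'.im t :=
  Complex.imCLM.hasFDerivAt.comp_hasDerivAt t h

theorem ec_gh_cosh {w : ℝ → ℂ} {w' : ℂ} {t : ℝ} (h : HasDerivAt w w' t) :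
    HasDerivAt (fun s => cosh (w s)) (sinh (w t) * w') t := by
  have := HasDerivAt.scomp t (Complex.hasDerivAt_cosh (w t)) h
  rw [smul_eq_mul, mul_comm] at this
  exact this

theorem ec_gh_sinh {w : ℝ → ℂ} {w' : ℂ} {t : ℝ} (h : HasDerivAt w w' t) :
    HasDerivAt (fun s => sinh (w s)) (cosh (w t) * w') t := by
  have := HasDerivAt.scomp t (Complex.hasDerivAt_sinh (w t)) h
  rw [smul_eq_mul, mul_comm] at this
  exact this

theorem ec_gh_reC (z : ℂ) : ((z.re : ℝ) : ℂ) = (z + cj z) / 2 := by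
  rw [Complex.re_eq_add_conj]

theorem ec_gh_nsC (z : ℂ) : ((normSq z : ℝ) : ℂ) = z * cj z := (Complex.mul_conj z).symm

theorem ec_gh_norm {u : ℝ → ℂ} {u' : ℂ} {t : ℝ} (h : HasDerivAt u u' t) (h0 : u t ≠ 0) :
    HasDerivAt (fun s => ((‖u s‖ : ℝ) : ℂ)) ((cj (u t) * u' + u t * cj u') / 2 / (‖u t‖ : ℝ)) t := by
  have hr := ec_gh_re h
  have hi := ec_gh_im h
  have hq : HasDerivAt (fun s => (u s).re ^ 2 + (u s).im ^ 2)
      (2 * (u t).re * u'.re + 2 * (u t).im * u'.im) t := by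
    have h1 := (hr.pow 2).add (hi.pow 2)
    refine h1.congr_deriv ?_
    norm_num
  have hns : ∀ z : ℂ, z.re ^ 2 + z.im ^ 2 = normSq z := fun z => by
    rw [Complex.normSq_apply]; ring
  have hpos : (u t).re ^ 2 + (u t).im ^ 2 ≠ 0 := by
    rw [hns]; exact (Complex.normSq_pos.2 h0).ne'
  have hs := hq.sqrt hpos
  have e : (fun s => √((u s).re ^ 2 + (u s).im ^ 2)) = fun s => ‖u s‖ := by
    funext s
    rw [hns, Complex.norm_def]
  have e' : √((u t).re ^ 2 + (u t).im ^ 2) = ‖u t‖ := congrFun e t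
  rw [e, e'] at hs
  have hs' := hs.ofReal_comp
  refine hs'.congr_deriv ?_
  have e2 : (cj (u t) * u' + u t * cj u') / 2 =
      (((u t).re * u'.re + (u t).im * u'.im : ℝ) : ℂ) := by
    apply Complex.ext
    · simp
    · simp; ring
  rw [e2]
  push_cast
  have : ((‖u t‖ : ℝ) : ℂ) ≠ 0 := by
    exact_mod_cast (norm_pos_iff.2 h0).ne'
  field_simp

theorem ec_gh_eq (X : E7) : ((Gh X : ℝ) : ℂ) =
    cu X * cj (cu X) * (sinh (cw X) * cj (sinh (cw X))) / 4 * (cg X : ℂ) -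
      (cj (cS X) * cj (cosh (cw X)) * sinh (cw X) * cu X * cv X +
        cS X * cosh (cw X) * cj (sinh (cw X)) * cj (cu X) * cj (cv X)) / 2 +
      (1 + (ce X : ℂ) + (ce X : ℂ) * (cosh (cw X) * cj (cosh (cw X)))) *
        (cv X * cj (cv X)) / 2 - ((‖cu X‖ : ℝ) : ℂ) * ((Real.cosh (cw X).re : ℝ) : ℂ) / 2 := by
  unfold Gh cJ
  rw [Complex.ofReal_sub, Complex.ofReal_add, Complex.ofReal_sub, ec_gh_reC]
  simp only [Complex.ofReal_mul, Complex.ofReal_div, Complex.ofReal_add, Complex.ofReal_one,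
    ec_gh_nsC, map_mul, Complex.conj_conj, Complex.ofReal_ofNat]

theorem ec_gh_deriv {γ : ℝ → E7} {T t : ℝ} (h : SolOn VF UU γ T) (ht : t ∈ Icc 0 T) :
    HasDerivAt (fun s => ((Gh (γ s) : ℝ) : ℂ)) 0 t := by
  obtain ⟨hu, hS, hw, hv, hg, -, he⟩ := sol_comp h ht
  have hu0 : cu (γ t) ≠ 0 := (h t ht).2
  have hub := ec_gh_conj hu
  have hSb := ec_gh_conj hS
  have hvb := ec_gh_conj hv
  have hc := ec_gh_cosh hw
  have hs := ec_gh_sinh hw
  have hcb := ec_gh_conj hc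
  have hsb := ec_gh_conj hs
  have hgC := hg.ofReal_comp
  have heC := he.ofReal_comp
  have hn := ec_gh_norm hu hu0
  have hhc := (ec_gh_re hw).cosh.ofReal_comp
  have hfun : (fun s => ((Gh (γ s) : ℝ) : ℂ)) = fun s =>
      cu (γ s) * cj (cu (γ s)) * (sinh (cw (γ s)) * cj (sinh (cw (γ s)))) / 4 * (cg (γ s) : ℂ) -
      (cj (cS (γ s)) * cj (cosh (cw (γ s))) * sinh (cw (γ s)) * cu (γ s) * cv (γ s) +
        cS (γ s) * cosh (cw (γ s)) * cj (sinh (cw (γ s))) * cj (cu (γ s)) * cj (cv (γ s))) / 2 +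
      (1 + (ce (γ s) : ℂ) + (ce (γ s) : ℂ) * (cosh (cw (γ s)) * cj (cosh (cw (γ s))))) *
        (cv (γ s) * cj (cv (γ s))) / 2 -
          ((‖cu (γ s)‖ : ℝ) : ℂ) * ((Real.cosh (cw (γ s)).re : ℝ) : ℂ) / 2 := by
    funext s
    exact ec_gh_eq (γ s)
  rw [hfun]
  have hD := ((((((hu.mul hub).mul (hs.mul hsb)).div_const 4).mul hgC).sub
    (((((hSb.mul hcb).mul hs).mul hu).mul hv).add
      ((((hS.mul hc).mul hsb).mul hub).mul hvb) |>.div_const 2)).add
    ((((heC.const_add 1).add (heC.mul (hc.mul hcb))).mul (hv.mul hvb)).div_const 2)).sub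
    ((hn.mul hhc).div_const 2)
  refine hD.congr_deriv ?_
  have hn2 : ((‖cu (γ t)‖ : ℝ) : ℂ) ^ 2 = cu (γ t) * cj (cu (γ t)) := by
    rw [← ec_gh_nsC, Complex.normSq_eq_norm_sq]; push_cast; rfl
  have hn0 : ((‖cu (γ t)‖ : ℝ) : ℂ) ≠ 0 := by
    exact_mod_cast (norm_pos_iff.2 hu0).ne'
  have hcJ : ((cJ (γ t) : ℝ) : ℂ) = cu (γ t) * cj (cu (γ t)) *
      (sinh (cw (γ t)) * cj (sinh (cw (γ t)))) / 4 := by
    unfold cJ
    simp only [Complex.ofReal_mul, Complex.ofReal_div, ec_gh_nsC, Complex.ofReal_ofNat]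
  have key := ec_gh_alg (cu (γ t)) (cj (cu (γ t))) (cS (γ t)) (cj (cS (γ t))) (cosh (cw (γ t)))
    (cj (cosh (cw (γ t)))) (sinh (cw (γ t))) (cj (sinh (cw (γ t)))) (cv (γ t)) (cj (cv (γ t)))
    (cg (γ t)) (ce (γ t)) ((‖cu (γ t)‖ : ℝ) : ℂ) ((Real.cosh (cw (γ t)).re : ℝ) : ℂ)
    ((Real.sinh (cw (γ t)).re : ℝ) : ℂ) hn2 hn0
    (Fu (γ t)) (cj (Fu (γ t))) (FS (γ t)) (cj (FS (γ t))) (Fw (γ t)) (cj (Fw (γ t))) (Fv (γ t))
    (cj (Fv (γ t))) ((Fg (γ t) : ℝ) : ℂ)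
    ((cj (cu (γ t)) * Fu (γ t) + cu (γ t) * cj (Fu (γ t))) / 2 / ((‖cu (γ t)‖ : ℝ) : ℂ))
    (by unfold Fu; rw [hcJ])
    (by
      unfold Fu
      simp only [map_sub, hcJ, map_mul, map_div₀, Complex.conj_conj, Complex.conj_ofReal,
        map_ofNat]
      ring)
    (by
      unfold FS
      simp only [Complex.ofReal_mul, Complex.ofReal_div, ec_gh_nsC, hcJ, Complex.ofReal_pow,
        Complex.ofReal_ofNat])
    (by
      unfold FS
      simp only [Complex.ofReal_mul, Complex.ofReal_div, ec_gh_nsC, hcJ, Complex.ofReal_pow,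
        Complex.ofReal_ofNat, map_add, map_sub, map_mul, map_div₀, Complex.conj_conj,
        Complex.conj_ofReal, map_ofNat, map_neg, map_pow]
      ring)
    (by
      unfold Fw
      simp only [Complex.ofReal_mul, Complex.ofReal_add, ec_gh_nsC, Complex.ofReal_one])
    (by
      unfold Fw
      simp only [Complex.ofReal_mul, Complex.ofReal_add, ec_gh_nsC, Complex.ofReal_one,
        map_add, map_neg, map_mul, Complex.conj_conj, Complex.conj_ofReal, map_one]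
      ring)
    (by
      unfold Fv
      simp only [Complex.ofReal_mul, Complex.ofReal_div, ec_gh_nsC, Complex.ofReal_ofNat])
    (by
      unfold Fv
      simp only [Complex.ofReal_mul, Complex.ofReal_div, ec_gh_nsC, Complex.ofReal_ofNat,
        map_add, map_sub, map_mul, map_div₀, Complex.conj_conj,
        Complex.conj_ofReal, map_ofNat, map_neg]
      ring)
    (by
      unfold Fg
      simp only [Complex.ofReal_add, Complex.ofReal_sub, Complex.ofReal_mul, Complex.ofReal_div,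
        Complex.ofReal_neg, ec_gh_nsC, Complex.ofReal_ofNat, ec_gh_reC, Complex.ofReal_one,
        map_mul, Complex.conj_conj])
    rfl
  rw [← key]
  simp only [Complex.ofReal_zero, Complex.ofReal_mul, ec_gh_reC (Fw (γ t)), map_mul,
    Pi.mul_apply, Pi.add_apply, Pi.sub_apply]
  ring

theorem sol_Gh_pr {γ : ℝ → E7} {T : ℝ} (h : SolOn VF UU γ T) :
    ∀ t ∈ Icc 0 T, Gh (γ t) = Gh (γ 0) := by
  have hd : ∀ t ∈ Icc 0 T, HasDerivAt (fun s => Gh (γ s)) 0 t := by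
    intro t ht
    have h1 := ec_gh_re (ec_gh_deriv h ht)
    simpa using h1
  apply constant_of_has_deriv_right_zero
  · intro t ht
    exact (hd t ht).continuousAt.continuousWithinAt
  · intro t ht
    exact (hd t ⟨ht.1, ht.2.le⟩).hasDerivWithinAt

theorem Gh_Xin_pr {θ e : ℝ} (he : 0 ≤ e) : Gh (Xin θ e) = 0 := by
  have h1 : (0 : ℝ) < 1 + 2 * e := by linarith
  have h2 : √(1 + 2 * e) ^ 2 = 1 + 2 * e := Real.sq_sqrt h1.le
  have h3 : √(1 + 2 * e) ≠ 0 := (Real.sqrt_pos.2 h1).ne'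
  have hv : normSq (((1 / √(1 + 2 * e) : ℝ) : ℂ) * exp (θ * I)) = 1 / (1 + 2 * e) := by
    rw [Complex.normSq_mul, Complex.normSq_ofReal, Complex.normSq_eq_norm_sq (exp (θ * I)),
      Complex.norm_exp_ofReal_mul_I]
    field_simp
    rw [h2]
  have e1 : cu (Xin θ e) = 1 := rfl
  have e2 : cw (Xin θ e) = 0 := rfl
  have e3 : cv (Xin θ e) = ((1 / √(1 + 2 * e) : ℝ) : ℂ) * exp (θ * I) := rfl
  have e4 : ce (Xin θ e) = e := rfl
  unfold Gh cJ
  rw [e1, e2, e3, e4, hv]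
  simp
  field_simp
  ring

end Pool.Agent.Ecl
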