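import Pool.Agent.Lib_helper34.Ecl.Defs
import Pool.Agent.Lib_helper34.EclF.COLA
import Pool.Agent.Lib_helper34.EclF.DISA
import Pool.Agent.Lib_helper34.EclF.OPNA
import Pool.Agent.Lib_helper34.EclF.TRKA

set_option autoImplicit false

namespace Pool.Agent.Ecl

open Set Complex Filter Topology

/-- a curve with the pattern `r` and the transversal end `e` -/
def ecIvtT (r : List Ex) (e : Ex) (θ m : ℝ) : Prop :=
  ∃ (S' : ℝ) (γ : ℝ → E7), 0 < S' ∧ γ 0 = Xin θ m ∧ SolOn VF UU γ S' ∧ TPat γ S' r ∧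
    TEnd r.length e (γ S')

/-- a curve with the pattern `r` and a collision at the end -/
def ecIvtC (r : List Ex) (θ m : ℝ) : Prop :=
  ∃ (S' : ℝ) (γ : ℝ → E7), 0 < S' ∧ γ 0 = Xin θ m ∧ SolOn VF UU γ S' ∧ TPat γ S' r ∧
    CEnd r.length (γ S')

theorem ec_ivt_local (r : List Ex) {θ σ : ℝ} (h1 : 0 < θ) (h2 : θ < Real.pi / 2)
    (h : Itin (eject θ) r σ) :
    ∃ η > 0, ∀ θ' m : ℝ, |θ' - θ| < η → |m| < η →
      (ecIvtT r .lft θ' m ∨ ecIvtT r .mid θ' m ∨ ecIvtC r θ' m) := by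
  obtain ⟨S, γ, hS, h0, hsol, hpat, hp, hn, hz⟩ := track h
  rcases lt_trichotomy σ 0 with hs | hs | hs
  · obtain ⟨η, hη, H⟩ := pat_open h1 h2 (le_refl 0) hS h0 hsol hpat (hn hs)
    refine ⟨η, hη, fun θ' m ha hb => Or.inr (Or.inl ?_)⟩
    exact H θ' m ha (by simpa using hb)
  · obtain ⟨η, hη, H⟩ := pat_coll h1 h2 (le_refl 0) hS h0 hsol hpat (hz hs).1 (hz hs).2
    refine ⟨η, hη, fun θ' m ha hb => ?_⟩
    obtain ⟨S', γ', h3, h4, h5, h6, h7⟩ := H θ' m ha (by simpa using hb)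
    rcases h7 with h7 | h7 | h7
    · exact Or.inl ⟨S', γ', h3, h4, h5, h6, h7⟩
    · exact Or.inr (Or.inl ⟨S', γ', h3, h4, h5, h6, h7⟩)
    · exact Or.inr (Or.inr ⟨S', γ', h3, h4, h5, h6, h7⟩)
  · obtain ⟨η, hη, H⟩ := pat_open h1 h2 (le_refl 0) hS h0 hsol hpat (hp hs)
    refine ⟨η, hη, fun θ' m ha hb => Or.inl ?_⟩
    exact H θ' m ha (by simpa using hb)

theorem ec_ivt_sign (r : List Ex) {θ σ : ℝ} (h1 : 0 < θ) (h2 : θ < Real.pi / 2)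
    (h : Itin (eject θ) r σ) :
    ∃ η > 0, ∀ m : ℝ, |m| < η → (0 < σ → ecIvtT r .lft θ m) ∧ (σ < 0 → ecIvtT r .mid θ m) := by
  obtain ⟨S, γ, hS, h0, hsol, hpat, hp, hn, hz⟩ := track h
  rcases lt_trichotomy σ 0 with hs | hs | hs
  · obtain ⟨η, hη, H⟩ := pat_open h1 h2 (le_refl 0) hS h0 hsol hpat (hn hs)
    refine ⟨η, hη, fun m hb => ⟨fun h' => absurd h' (not_lt.mpr hs.le), fun _ => ?_⟩⟩
    exact H θ m (by simpa using hη) (by simpa using hb)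
  · exact ⟨1, one_pos, fun m _ => ⟨fun h' => absurd h' (by rw [hs]; exact lt_irrefl _),
      fun h' => absurd h' (by rw [hs]; exact lt_irrefl _)⟩⟩
  · obtain ⟨η, hη, H⟩ := pat_open h1 h2 (le_refl 0) hS h0 hsol hpat (hp hs)
    refine ⟨η, hη, fun m hb => ⟨fun _ => ?_, fun h' => absurd h' (not_lt.mpr hs.le)⟩⟩
    exact H θ m (by simpa using hη) (by simpa using hb)

theorem exists_collision_pr (hI : StatementI) (r : List Ex) :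
    ∃ e > 0, ∃ (θ S : ℝ) (γ : ℝ → E7), 0 < θ ∧ θ < Real.pi / 2 ∧ 0 < S ∧ γ 0 = Xin θ e ∧
      SolOn VF UU γ S ∧ TPat γ S r ∧ CEnd r.length (γ S) := by
  obtain ⟨θ₁, θ₂, hθ1, hθ12, hθ2, σ, hσ, hσσ⟩ := hI r
  -- uniform mass
  have hcomp : ∃ ε > 0, ∀ θ ∈ Icc θ₁ θ₂, ∀ m : ℝ, |m| < ε →
      (ecIvtT r .lft θ m ∨ ecIvtT r .mid θ m ∨ ecIvtC r θ m) := by
    apply isCompact_Icc.induction_on (p := fun s : Set ℝ => ∃ ε > 0, ∀ θ ∈ s, ∀ m : ℝ, |m| < ε →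
      (ecIvtT r .lft θ m ∨ ecIvtT r .mid θ m ∨ ecIvtC r θ m))
    · exact ⟨1, one_pos, fun θ hθ => absurd hθ (notMem_empty _)⟩
    · rintro s t hst ⟨ε, hε, H⟩
      exact ⟨ε, hε, fun θ hθ => H θ (hst hθ)⟩
    · rintro s t ⟨ε, hε, H⟩ ⟨ε', hε', H'⟩
      refine ⟨min ε ε', lt_min hε hε', fun θ hθ m hm => ?_⟩
      rcases hθ with hθ | hθ
      · exact H θ hθ m (hm.trans_le (min_le_left _ _))
      · exact H' θ hθ m (hm.trans_le (min_le_right _ _))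
    · intro θ hθ
      obtain ⟨η, hη, H⟩ := ec_ivt_local r (hθ1.trans_le hθ.1) (hθ.2.trans_lt hθ2) (hσ θ hθ)
      refine ⟨Metric.ball θ η, mem_nhdsWithin_of_mem_nhds (Metric.ball_mem_nhds θ hη), η, hη,
        fun θ' hθ' m hm => H θ' m ?_ hm⟩
      rwa [Metric.mem_ball, Real.dist_eq] at hθ'
  obtain ⟨ε, hε, Hε⟩ := hcomp
  obtain ⟨η1, hη1, H1⟩ := ec_ivt_sign r hθ1 (hθ12.trans hθ2) (hσ θ₁ ⟨le_refl _, hθ12.le⟩)
  obtain ⟨η2, hη2, H2⟩ := ec_ivt_sign r (hθ1.trans hθ12) hθ2 (hσ θ₂ ⟨hθ12.le, le_refl _⟩)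
  set e : ℝ := min ε (min η1 η2) / 2 with he
  have hmin : 0 < min ε (min η1 η2) := lt_min hε (lt_min hη1 hη2)
  have he0 : 0 < e := by rw [he]; linarith
  have hee : |e| < min ε (min η1 η2) := by rw [abs_of_pos he0, he]; linarith
  have heε : |e| < ε := hee.trans_le (min_le_left _ _)
  have heη1 : |e| < η1 := hee.trans_le ((min_le_right _ _).trans (min_le_left _ _))
  have heη2 : |e| < η2 := hee.trans_le ((min_le_right _ _).trans (min_le_right _ _))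
  refine ⟨e, he0, ?_⟩
  by_contra hcon
  have hnoC : ∀ θ ∈ Icc θ₁ θ₂, ¬ ecIvtC r θ e := by
    rintro θ hθ ⟨S, γ, h3, h4, h5, h6, h7⟩
    exact hcon ⟨θ, S, γ, hθ1.trans_le hθ.1, hθ.2.trans_lt hθ2, h3, h4, h5, h6, h7⟩
  set L : Ex → Set ℝ := fun x => {θ | 0 < θ ∧ θ < Real.pi / 2 ∧ ecIvtT r x θ e} with hL
  have hopen : ∀ x, IsOpen (L x) := by
    intro x
    rw [Metric.isOpen_iff]
    rintro θ ⟨h1, h2, S, γ, h3, h4, h5, h6, h7⟩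
    obtain ⟨η, hη, H⟩ := pat_open h1 h2 he0.le h3 h4 h5 h6 h7
    refine ⟨min η (min θ (Real.pi / 2 - θ)), lt_min hη (lt_min h1 (by linarith)),
      fun θ' hθ' => ?_⟩
    rw [Metric.mem_ball, Real.dist_eq] at hθ'
    have ha := hθ'.trans_le (min_le_left _ _)
    have hb := hθ'.trans_le ((min_le_right _ _).trans (min_le_left _ _))
    have hc := hθ'.trans_le ((min_le_right _ _).trans (min_le_right _ _))
    rw [abs_lt] at hb hc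
    exact ⟨by linarith [hb.1], by linarith [hc.2], H θ' e ha (by simpa using hη)⟩
  have hcover : Icc θ₁ θ₂ ⊆ L .lft ∪ L .mid := by
    intro θ hθ
    have h1 := hθ1.trans_le hθ.1
    have h2 := hθ.2.trans_lt hθ2
    rcases Hε θ hθ e heε with h3 | h3 | h3
    · exact Or.inl ⟨h1, h2, h3⟩
    · exact Or.inr ⟨h1, h2, h3⟩
    · exact absurd h3 (hnoC θ hθ)
  have hends : (Icc θ₁ θ₂ ∩ L .lft).Nonempty ∧ (Icc θ₁ θ₂ ∩ L .mid).Nonempty := by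
    have m1 : θ₁ ∈ Icc θ₁ θ₂ := ⟨le_refl _, hθ12.le⟩
    have m2 : θ₂ ∈ Icc θ₁ θ₂ := ⟨hθ12.le, le_refl _⟩
    rcases mul_neg_iff.mp hσσ with ⟨hp, hn⟩ | ⟨hn, hp⟩
    · exact ⟨⟨θ₁, m1, hθ1, hθ12.trans hθ2, (H1 e heη1).1 hp⟩,
        ⟨θ₂, m2, hθ1.trans hθ12, hθ2, (H2 e heη2).2 hn⟩⟩
    · exact ⟨⟨θ₂, m2, hθ1.trans hθ12, hθ2, (H2 e heη2).1 hp⟩,
        ⟨θ₁, m1, hθ1, hθ12.trans hθ2, (H1 e heη1).2 hn⟩⟩
  obtain ⟨θ, _, ⟨_, _, S, γ, a1, a2, a3, a4, a5⟩, ⟨_, _, S', γ', b1, b2, b3, b4, b5⟩⟩ :=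
    isPreconnected_Icc (L .lft) (L .mid) (hopen _) (hopen _) hcover hends.1 hends.2
  exact pat_disj (a2.trans b2.symm) a1 b1 a3 b3 a4 b4 a5 b5

end Pool.Agent.Ecl
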