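import Pool.Agent.Lib_helper34.Ecl.Defs
import Pool.Agent.Lib_helper34.EclF.DERA

set_option autoImplicit false

namespace Pool.Agent.Ecl

open Set Complex Filter Topology

theorem ec_nr0_cont : Continuous Fw := by
  unfold Fw cS cw cv ce cu
  simp only [Complex.normSq_eq_norm_sq]
  have hcosh : Continuous fun z : ℂ => cosh z := Complex.continuous_cosh
  have hsinh : Continuous fun z : ℂ => sinh z := Complex.continuous_sinh
  have hcj : Continuous fun z : ℂ => cj z := Complex.continuous_conj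
  have h1 : Continuous fun X : E7 => X.2.2.1 := by fun_prop
  have h2 : Continuous fun X : E7 => cosh X.2.2.1 := hcosh.comp h1
  have h3 : Continuous fun X : E7 => cj (sinh X.2.2.1) := hcj.comp (hsinh.comp h1)
  have h4 : Continuous fun X : E7 => cj X.1 := hcj.comp (by fun_prop)
  fun_prop

theorem ec_nr0_Fw (θ e : ℝ) : Fw (Xin θ e) =
    ((1 + 2 * e : ℝ) : ℂ) * (((1 / Real.sqrt (1 + 2 * e) : ℝ) : ℂ) * exp (θ * I)) := by
  have e1 : cu (Xin θ e) = 1 := rfl
  have e2 : cw (Xin θ e) = 0 := rfl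
  have e3 : cv (Xin θ e) = ((1 / Real.sqrt (1 + 2 * e) : ℝ) : ℂ) * exp (θ * I) := rfl
  have e4 : ce (Xin θ e) = e := rfl
  unfold Fw
  rw [e1, e2, e3, e4]
  simp
  left
  ring

theorem ec_nr0_Zt (X : E7) : (Zt X).im = Real.sinh (cw X).re * Real.sin (cw X).im := by
  unfold Zt
  conv_lhs => rw [← Complex.re_add_im (cw X)]
  rw [Complex.cosh_add, Complex.cosh_mul_I, Complex.sinh_mul_I]
  rw [← Complex.ofReal_cosh, ← Complex.ofReal_sinh, ← Complex.ofReal_cos, ← Complex.ofReal_sin]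
  simp only [Complex.add_im, Complex.mul_im, Complex.mul_re, Complex.ofReal_re,
    Complex.ofReal_im, Complex.I_re, Complex.I_im]
  ring

theorem near_start_pr {θ0 e0 : ℝ} (h1 : 0 < θ0) (h2 : θ0 < Real.pi / 2) (he : 0 ≤ e0)
    {γ1 : ℝ → E7} (hc : ContinuousAt γ1 0) (h0 : γ1 0 = Xin θ0 e0) :
    ∃ c > 0, ∃ δ > 0, ∀ (γ : ℝ → E7) (θ e T : ℝ), 0 < T → γ 0 = Xin θ e → SolOn VF UU γ T →
      (∀ t ∈ Icc 0 T, dist (γ t) (γ1 t) < δ) →
      ∀ s, 0 < s → s ≤ c → s ≤ T → 0 < (Zt (γ s)).im := by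
  set X0 := Xin θ0 e0 with hX0
  have hpos : (0 : ℝ) < 1 + 2 * e0 := by linarith
  have hsq : 0 < Real.sqrt (1 + 2 * e0) := Real.sqrt_pos.2 hpos
  have hre : 0 < (Fw X0).re := by
    rw [hX0, ec_nr0_Fw, Complex.re_ofReal_mul, Complex.re_ofReal_mul, Complex.exp_ofReal_mul_I_re]
    have := Real.cos_pos_of_mem_Ioo (x := θ0) ⟨by linarith, h2⟩
    positivity
  have him : 0 < (Fw X0).im := by
    rw [hX0, ec_nr0_Fw, Complex.im_ofReal_mul, Complex.im_ofReal_mul, Complex.exp_ofReal_mul_I_im]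
    have := Real.sin_pos_of_pos_of_lt_pi h1 (by linarith [Real.pi_pos])
    positivity
  have hV : ∀ᶠ X in 𝓝 X0, 0 < (Fw X).re ∧ 0 < (Fw X).im ∧ (cw X).im < Real.pi := by
    have c1 : ContinuousAt (fun X : E7 => (Fw X).re) X0 :=
      (Complex.continuous_re.comp ec_nr0_cont).continuousAt
    have c2 : ContinuousAt (fun X : E7 => (Fw X).im) X0 :=
      (Complex.continuous_im.comp ec_nr0_cont).continuousAt
    have c3 : ContinuousAt (fun X : E7 => (cw X).im) X0 := by
      unfold cw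
      exact (Complex.continuous_im.comp (by fun_prop)).continuousAt
    have c4 : (cw X0).im < Real.pi := by
      have : cw X0 = 0 := rfl
      rw [this, Complex.zero_im]
      exact Real.pi_pos
    filter_upwards [c1.eventually (lt_mem_nhds hre), c2.eventually (lt_mem_nhds him),
      c3.eventually (gt_mem_nhds c4)] with X a b c
    exact ⟨a, b, c⟩
  obtain ⟨ε, hε, hball⟩ := Metric.eventually_nhds_iff.1 hV
  obtain ⟨c', hc', hcb⟩ := Metric.continuousAt_iff.1 hc (ε / 2) (by positivity)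
  refine ⟨c' / 2, by positivity, ε / 2, by positivity, fun γ θ e T hT hγ0 hsol hcl s hs hsc hsT => ?_⟩
  have hin : ∀ r ∈ Icc 0 s, 0 < (Fw (γ r)).re ∧ 0 < (Fw (γ r)).im ∧ (cw (γ r)).im < Real.pi := by
    intro r hr
    apply hball
    have d1 := hcl r ⟨hr.1, hr.2.trans hsT⟩
    have d2 : dist (γ1 r) (γ1 0) < ε / 2 := by
      apply hcb
      rw [Real.dist_eq, sub_zero, abs_of_nonneg hr.1]
      linarith [hr.2]
    rw [h0] at d2
    have := dist_triangle (γ r) (γ1 r) X0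
    linarith
  have hd : ∀ r ∈ Icc 0 s, HasDerivAt (fun x => cw (γ x)) (Fw (γ r)) r := fun r hr =>
    (sol_comp hsol ⟨hr.1, hr.2.trans hsT⟩).2.2.1
  have hdr : ∀ r ∈ Icc 0 s, HasDerivAt (fun x => (cw (γ x)).re) (Fw (γ r)).re r := fun r hr =>
    Complex.reCLM.hasFDerivAt.comp_hasDerivAt r (hd r hr)
  have hdi : ∀ r ∈ Icc 0 s, HasDerivAt (fun x => (cw (γ x)).im) (Fw (γ r)).im r := fun r hr =>
    Complex.imCLM.hasFDerivAt.comp_hasDerivAt r (hd r hr)
  have hm1 : StrictMonoOn (fun x => (cw (γ x)).re) (Icc 0 s) := by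
    apply strictMonoOn_of_deriv_pos (convex_Icc 0 s)
    · exact fun r hr => (hdr r hr).continuousAt.continuousWithinAt
    · intro r hr
      rw [interior_Icc] at hr
      have hr' : r ∈ Icc 0 s := ⟨hr.1.le, hr.2.le⟩
      rw [(hdr r hr').deriv]
      exact (hin r hr').1
  have hm2 : StrictMonoOn (fun x => (cw (γ x)).im) (Icc 0 s) := by
    apply strictMonoOn_of_deriv_pos (convex_Icc 0 s)
    · exact fun r hr => (hdi r hr).continuousAt.continuousWithinAt
    · intro r hr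
      rw [interior_Icc] at hr
      have hr' : r ∈ Icc 0 s := ⟨hr.1.le, hr.2.le⟩
      rw [(hdi r hr').deriv]
      exact (hin r hr').2.1
  have w0 : cw (γ 0) = 0 := by rw [hγ0]; rfl
  have a1 := hm1 (left_mem_Icc.2 hs.le) (right_mem_Icc.2 hs.le) hs
  have a2 := hm2 (left_mem_Icc.2 hs.le) (right_mem_Icc.2 hs.le) hs
  simp only [w0, Complex.zero_re, Complex.zero_im] at a1 a2
  rw [ec_nr0_Zt]
  have a3 := (hin s (right_mem_Icc.2 hs.le)).2.2
  exact mul_pos (Real.sinh_pos_iff.2 a1) (Real.sin_pos_of_pos_of_lt_pi a2 a3)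

end Pool.Agent.Ecl
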