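import Pool.Agent.Lib_helper34.Ecl.Defs
import Pool.Agent.Lib_helper34.EclF.DERA
import Pool.Agent.Lib_helper34.EclF.NWUA
import Pool.Agent.Lib_helper34.EclF.NWYA

set_option autoImplicit false

namespace Pool.Agent.Ecl

open Set Complex Filter Topology

theorem ec_nwa_d10 (X : E7) : qq 1 X - qq 0 X = cu X := by
  unfold qq
  simp only [Matrix.cons_val_one, Matrix.cons_val_zero]
  ring

theorem ec_nwa_d20 {X : E7} (he : 0 ≤ ce X) : qq 2 X - qq 0 X = yy X + cu X / 2 := by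
  have h1 : (1 + ce X) ≠ 0 := by linarith
  have h1C : (1 + (ce X : ℂ)) ≠ 0 := by exact_mod_cast h1
  unfold qq
  simp only [Matrix.cons_val, Matrix.cons_val_zero]
  push_cast
  field_simp
  ring

theorem ec_nwa_d21 {X : E7} (he : 0 ≤ ce X) : qq 2 X - qq 1 X = yy X - cu X / 2 := by
  have h1 : (1 + ce X) ≠ 0 := by linarith
  have h1C : (1 + (ce X : ℂ)) ≠ 0 := by exact_mod_cast h1
  unfold qq
  simp only [Matrix.cons_val, Matrix.cons_val_one, Matrix.cons_val_zero]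
  push_cast
  field_simp
  ring

theorem ec_nwa_erase0 : (Finset.univ : Finset (Fin 3)).erase 0 = {1, 2} := by decide
theorem ec_nwa_erase1 : (Finset.univ : Finset (Fin 3)).erase 1 = {0, 2} := by decide
theorem ec_nwa_erase2 : (Finset.univ : Finset (Fin 3)).erase 2 = {0, 1} := by decide

theorem ec_nwa_acc0 {X : E7} (he : 0 ≤ ce X) : acc (mm (ce X)) (fun b => qq b X) 0 =
    1 / 2 * cu X / ((‖cu X‖ ^ 3 : ℝ) : ℂ) +
      (ce X : ℂ) * (yy X + cu X / 2) / ((‖yy X + cu X / 2‖ ^ 3 : ℝ) : ℂ) := by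
  unfold acc
  rw [ec_nwa_erase0, Finset.sum_insert (by decide), Finset.sum_singleton, ec_nwa_d10,
    ec_nwa_d20 he]
  unfold mm
  simp only [Matrix.cons_val, Matrix.cons_val_one]
  push_cast
  ring

theorem ec_nwa_acc1 {X : E7} (he : 0 ≤ ce X) : acc (mm (ce X)) (fun b => qq b X) 1 =
    -(1 / 2 * cu X / ((‖cu X‖ ^ 3 : ℝ) : ℂ)) +
      (ce X : ℂ) * (yy X - cu X / 2) / ((‖yy X - cu X / 2‖ ^ 3 : ℝ) : ℂ) := by
  unfold acc
  rw [ec_nwa_erase1, Finset.sum_insert (by decide), Finset.sum_singleton, ec_nwa_d21 he]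
  have h : qq 0 X - qq 1 X = -cu X := by rw [← ec_nwa_d10]; ring
  rw [h, norm_neg]
  unfold mm
  simp only [Matrix.cons_val, Matrix.cons_val_zero]
  push_cast
  ring

theorem ec_nwa_acc2 {X : E7} (he : 0 ≤ ce X) : acc (mm (ce X)) (fun b => qq b X) 2 =
    -(1 / 2) * ((yy X + cu X / 2) / ((‖yy X + cu X / 2‖ ^ 3 : ℝ) : ℂ) +
      (yy X - cu X / 2) / ((‖yy X - cu X / 2‖ ^ 3 : ℝ) : ℂ)) := by
  unfold acc
  rw [ec_nwa_erase2, Finset.sum_insert (by decide), Finset.sum_singleton]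
  have h : qq 0 X - qq 2 X = -(yy X + cu X / 2) := by rw [← ec_nwa_d20 he]; ring
  have h' : qq 1 X - qq 2 X = -(yy X - cu X / 2) := by rw [← ec_nwa_d21 he]; ring
  rw [h, h', norm_neg, norm_neg]
  unfold mm
  simp only [Matrix.cons_val_one, Matrix.cons_val_zero]
  push_cast
  ring

theorem newton_acc_pr {γ : ℝ → E7} {T t : ℝ} (h : SolOn VF UU γ T) (ht : t ∈ Icc 0 T)
    (hJ : cJ (γ t) ≠ 0) (he : 0 ≤ ce (γ t)) (hG : Gh (γ t) = 0) (a : Fin 3) :
    HasDerivAt (fun s => vv a (γ s)) ((cJ (γ t) : ℂ) *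
      acc (mm (ce (γ t))) (fun b => qq b (γ t)) a) t := by
  have hp := newton_pi h ht hJ he hG
  have hu := newton_ud h ht hJ he hG
  have hce := (sol_comp h ht).2.2.2.2.2.2.ofReal_comp
  fin_cases a
  · have hD := (hce.neg.mul hp).sub (hu.div_const 2)
    refine hD.congr_deriv ?_
    change _ = (cJ (γ t) : ℂ) * acc (mm (ce (γ t))) (fun b => qq b (γ t)) 0
    rw [ec_nwa_acc0 he]
    simp only [Complex.ofReal_zero, Pi.neg_apply]
    ring
  · have hD := (hce.neg.mul hp).add (hu.div_const 2)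
    refine hD.congr_deriv ?_
    change _ = (cJ (γ t) : ℂ) * acc (mm (ce (γ t))) (fun b => qq b (γ t)) 1
    rw [ec_nwa_acc1 he]
    simp only [Complex.ofReal_zero, Pi.neg_apply]
    ring
  · change HasDerivAt (fun s => ppi (γ s)) ((cJ (γ t) : ℂ) *
      acc (mm (ce (γ t))) (fun b => qq b (γ t)) 2) t
    rw [ec_nwa_acc2 he]
    exact hp

end Pool.Agent.Ecl
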