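import Pool.Agent.Lib_helper34.Ecl.Defs
import Pool.Agent.Lib_helper34.EclF.DERA

set_option autoImplicit false

namespace Pool.Agent.Ecl

open Set Complex Filter Topology

theorem ec_nwp_cosh {w : ℝ → ℂ} {w' : ℂ} {t : ℝ} (h : HasDerivAt w w' t) :
    HasDerivAt (fun s => cosh (w s)) (sinh (w t) * w') t := by
  have := HasDerivAt.scomp t (Complex.hasDerivAt_cosh (w t)) h
  rw [smul_eq_mul, mul_comm] at this
  exact this

theorem ec_nwp_ne {X : E7} (hJ : cJ X ≠ 0) : cu X ≠ 0 ∧ sinh (cw X) ≠ 0 := by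
  constructor
  · intro h
    apply hJ
    unfold cJ
    rw [h]; simp
  · intro h
    apply hJ
    unfold cJ
    rw [h]; simp

theorem ec_nwp_cJ (X : E7) : ((cJ X : ℝ) : ℂ) = cu X * cj (cu X) *
    (sinh (cw X) * cj (sinh (cw X))) / 4 := by
  unfold cJ
  simp only [Complex.ofReal_mul, Complex.ofReal_div, Complex.ofReal_ofNat, ← Complex.mul_conj]

theorem ec_nwp_pi {X : E7} (hJ : cJ X ≠ 0) :
    (cJ X : ℂ) * ppi X = cv X * (cu X * sinh (cw X) / 2) := by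
  obtain ⟨h1, h2⟩ := ec_nwp_ne hJ
  have h3 : cj (cu X) ≠ 0 := by simpa using h1
  have h4 : cj (sinh (cw X)) ≠ 0 := by simpa using h2
  rw [ec_nwp_cJ]
  unfold ppi
  simp only [map_mul, map_div₀, map_ofNat]
  field_simp
  norm_num
  ring

/-- derivative of `yy` -/
theorem ec_nwp_yy {γ : ℝ → E7} {T t : ℝ} (h : SolOn VF UU γ T) (ht : t ∈ Icc 0 T)
    (hJ : cJ (γ t) ≠ 0) :
    HasDerivAt (fun s => yy (γ s)) ((cJ (γ t) : ℂ) * ((1 + (ce (γ t) : ℂ)) * ppi (γ t))) t := by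
  obtain ⟨hu, hS, hw, hv, hg, -, he⟩ := sol_comp h ht
  have hc := ec_nwp_cosh hw
  have hD := (hu.div_const 2).mul hc
  refine hD.congr_deriv ?_
  have e1 : (cJ (γ t) : ℂ) * ((1 + (ce (γ t) : ℂ)) * ppi (γ t)) =
      (1 + (ce (γ t) : ℂ)) * ((cJ (γ t) : ℂ) * ppi (γ t)) := by ring
  rw [e1, ec_nwp_pi hJ]
  unfold Fu Fw
  simp only [Complex.ofReal_mul, Complex.ofReal_add, Complex.ofReal_one, ← Complex.mul_conj,
    ec_nwp_cJ]
  ring

/-- derivative of `cu` -/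
theorem ec_nwp_cu {γ : ℝ → E7} {T t : ℝ} (h : SolOn VF UU γ T) (ht : t ∈ Icc 0 T)
    (hJ : cJ (γ t) ≠ 0) :
    HasDerivAt (fun s => cu (γ s)) ((cJ (γ t) : ℂ) * ud (γ t)) t := by
  obtain ⟨hu, -⟩ := sol_comp h ht
  refine hu.congr_deriv ?_
  have e1 : (cJ (γ t) : ℂ) * ud (γ t) = 4 * (cJ (γ t) : ℂ) * cS (γ t) -
      2 * (ce (γ t) : ℂ) * cj (cosh (cw (γ t))) * ((cJ (γ t) : ℂ) * ppi (γ t)) := by
    unfold ud; ring
  rw [e1, ec_nwp_pi hJ]
  unfold Fu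
  ring

theorem newton_pos_pr {γ : ℝ → E7} {T t : ℝ} (h : SolOn VF UU γ T) (ht : t ∈ Icc 0 T)
    (hJ : cJ (γ t) ≠ 0) (he : 0 ≤ ce (γ t)) (a : Fin 3) :
    HasDerivAt (fun s => qq a (γ s)) ((cJ (γ t) : ℂ) * vv a (γ t)) t := by
  have hy := ec_nwp_yy h ht hJ
  have hu := ec_nwp_cu h ht hJ
  obtain ⟨-, -, -, -, -, -, hce⟩ := sol_comp h ht
  have h1 : (1 + ce (γ t)) ≠ 0 := by linarith
  have h1C : (1 + (ce (γ t) : ℂ)) ≠ 0 := by exact_mod_cast h1
  have hk : HasDerivAt (fun s => ((ce (γ s) / (1 + ce (γ s)) : ℝ) : ℂ)) 0 t := by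
    have := (hce.div (hce.const_add 1) h1).ofReal_comp
    refine this.congr_deriv ?_
    simp
  have hk1 : HasDerivAt (fun s => ((1 / (1 + ce (γ s)) : ℝ) : ℂ)) 0 t := by
    have := ((hasDerivAt_const t (1 : ℝ)).div (hce.const_add 1) h1).ofReal_comp
    refine this.congr_deriv ?_
    simp
  fin_cases a
  · have hD := (hk.neg.mul hy).sub (hu.div_const 2)
    refine hD.congr_deriv ?_
    simp only [vv, Pi.neg_apply]
    push_cast
    simp
    field_simp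
  · have hD := (hk.neg.mul hy).add (hu.div_const 2)
    refine hD.congr_deriv ?_
    simp only [vv, Pi.neg_apply]
    push_cast
    simp
    field_simp
  · have hD := hk1.mul hy
    refine hD.congr_deriv ?_
    simp only [vv]
    push_cast
    simp
    field_simp

end Pool.Agent.Ecl
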