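import Pool.Agent.Lib_helper34.Ecl.Defs
import Pool.Agent.Lib_helper34.EclF.DERA
import Pool.Agent.Lib_helper34.EclF.NWYA

set_option autoImplicit false

namespace Pool.Agent.Ecl

open Set Complex Filter Topology

theorem ec_nwu_cosh {w : ℝ → ℂ} {w' : ℂ} {t : ℝ} (h : HasDerivAt w w' t) :
    HasDerivAt (fun s => cosh (w s)) (sinh (w t) * w') t := by
  have := HasDerivAt.scomp t (Complex.hasDerivAt_cosh (w t)) h
  rw [smul_eq_mul, mul_comm] at this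
  exact this

theorem ec_nwu_conj {f : ℝ → ℂ} {f' : ℂ} {t : ℝ} (h : HasDerivAt f f' t) :
    HasDerivAt (fun s => cj (f s)) (cj f') t :=
  (Complex.conjCLE.toContinuousLinearMap).hasFDerivAt.comp_hasDerivAt t h

theorem ec_nwu_ne {X : E7} (hJ : cJ X ≠ 0) : cu X ≠ 0 ∧ sinh (cw X) ≠ 0 := by
  constructor
  · intro h
    apply hJ
    unfold cJ
    rw [h]; simp
  · intro h
    apply hJ
    unfold cJ
    rw [h]; simp

theorem ec_nwu_cJ (X : E7) : ((cJ X : ℝ) : ℂ) = cu X * cj (cu X) *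
    (sinh (cw X) * cj (sinh (cw X))) / 4 := by
  unfold cJ
  simp only [Complex.ofReal_mul, Complex.ofReal_div, Complex.ofReal_ofNat, ← Complex.mul_conj]

theorem ec_nwu_half (w : ℂ) : cosh w = 2 * cosh (w / 2) ^ 2 - 1 ∧
    cosh w = 1 + 2 * sinh (w / 2) ^ 2 ∧ sinh w = 2 * sinh (w / 2) * cosh (w / 2) := by
  have h1 := Complex.cosh_two_mul (w / 2)
  have h2 := Complex.sinh_two_mul (w / 2)
  have h3 := Complex.cosh_sq_sub_sinh_sq (w / 2)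
  rw [show 2 * (w / 2) = w by ring] at h1 h2
  refine ⟨?_, ?_, h2⟩
  · rw [h1]; linear_combination -h3
  · rw [h1]; linear_combination h3

/-- `cosh (Re w) = |cosh (w/2)|² + |sinh (w/2)|²` -/
theorem ec_nwu_hc (w : ℂ) : ((Real.cosh w.re : ℝ) : ℂ) =
    cosh (w / 2) * cj (cosh (w / 2)) + sinh (w / 2) * cj (sinh (w / 2)) := by
  have h1 : cj (cosh (w / 2)) = cosh (cj (w / 2)) := (Complex.cosh_conj _).symm
  have h2 : cj (sinh (w / 2)) = sinh (cj (w / 2)) := (Complex.sinh_conj _).symm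
  rw [h1, h2, ← Complex.cosh_add, Complex.ofReal_cosh]
  congr 1
  have h3 : cj (w / 2) = cj w / 2 := by simp only [map_div₀, map_ofNat]
  have h4 : w + cj w = ((2 * w.re : ℝ) : ℂ) := Complex.add_conj w
  rw [h3, ← add_div, h4]
  push_cast
  ring

theorem ec_nwu_AB {X : E7} (hJ : cJ X ≠ 0) :
    (1 + cj (cosh (cw X))) ≠ 0 ∧ (1 - cj (cosh (cw X))) ≠ 0 ∧
    (cJ X : ℂ) * ((yy X + cu X / 2) / ((‖yy X + cu X / 2‖ ^ 3 : ℝ) : ℂ)) =
      2 * cu X * (sinh (cw X / 2) * cj (sinh (cw X / 2))) / ((‖cu X‖ : ℝ) : ℂ) /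
        (1 + cj (cosh (cw X))) ∧
    (cJ X : ℂ) * ((yy X - cu X / 2) / ((‖yy X - cu X / 2‖ ^ 3 : ℝ) : ℂ)) =
      -2 * cu X * (cosh (cw X / 2) * cj (cosh (cw X / 2))) / ((‖cu X‖ : ℝ) : ℂ) /
        (1 - cj (cosh (cw X))) := by
  obtain ⟨hu, hs⟩ := ec_nwu_ne hJ
  obtain ⟨c1, c2, s1⟩ := ec_nwu_half (cw X)
  set p := cosh (cw X / 2) with hp
  set q := sinh (cw X / 2) with hq
  have hpq : 2 * q * p ≠ 0 := by rw [← s1]; exact hs
  have hp0 : p ≠ 0 := fun h => hpq (by rw [h]; ring)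
  have hq0 : q ≠ 0 := fun h => hpq (by rw [h]; ring)
  have hpb : cj p ≠ 0 := by simpa using hp0
  have hqb : cj q ≠ 0 := by simpa using hq0
  have hub : cj (cu X) ≠ 0 := by simpa using hu
  have hn0 : ((‖cu X‖ : ℝ) : ℂ) ≠ 0 := by exact_mod_cast (norm_pos_iff.2 hu).ne'
  have hn2 : cj (cu X) = ((‖cu X‖ : ℝ) : ℂ) ^ 2 / cu X := by
    rw [eq_div_iff hu]
    have := Complex.conj_mul' (cu X)
    exact this
  have e1 : 1 + cj (cosh (cw X)) = 2 * cj p ^ 2 := by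
    rw [c1]; simp only [map_sub, map_mul, map_pow, map_ofNat, map_one]; ring
  have e2 : 1 - cj (cosh (cw X)) = -(2 * cj q ^ 2) := by
    rw [c2]; simp only [map_add, map_mul, map_pow, map_ofNat, map_one]; ring
  have hA : yy X + cu X / 2 = cu X * p ^ 2 := by
    unfold yy; rw [c1]; ring
  have hB : yy X - cu X / 2 = cu X * q ^ 2 := by
    unfold yy; rw [c2]; ring
  have nA : ((‖yy X + cu X / 2‖ ^ 3 : ℝ) : ℂ) = ((‖cu X‖ : ℝ) : ℂ) ^ 3 * (p * cj p) ^ 3 := by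
    rw [hA, norm_mul, norm_pow, Complex.mul_conj']
    push_cast
    ring
  have nB : ((‖yy X - cu X / 2‖ ^ 3 : ℝ) : ℂ) = ((‖cu X‖ : ℝ) : ℂ) ^ 3 * (q * cj q) ^ 3 := by
    rw [hB, norm_mul, norm_pow, Complex.mul_conj']
    push_cast
    ring
  have hJ' : (cJ X : ℂ) = cu X * cj (cu X) * (p * cj p) * (q * cj q) := by
    rw [ec_nwu_cJ, s1]
    simp only [map_mul, map_ofNat]
    ring
  refine ⟨?_, ?_, ?_, ?_⟩
  · rw [e1]; exact mul_ne_zero (by norm_num) (pow_ne_zero 2 hpb)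
  · rw [e2]; exact neg_ne_zero.2 (mul_ne_zero (by norm_num) (pow_ne_zero 2 hqb))
  · rw [hJ', nA, hA, e1, hn2]
    field_simp
  · rw [hJ', nB, hB, e2, hn2]
    field_simp

theorem ec_nwu_alg (u ub S Sb c cb s sb v vb g e n P Q JA JB : ℂ) (hn : n ^ 2 = u * ub)
    (hn0 : n ≠ 0) (hs : s ≠ 0) (hsb : sb ≠ 0) (h1 : 1 + cb ≠ 0) (h2 : 1 - cb ≠ 0)
    (hJA : JA = 2 * u * Q / n / (1 + cb)) (hJB : JB = -2 * u * P / n / (1 - cb))
    (hG : (u * ub * (s * sb) / 4) * g - (Sb * cb * s * u * v + S * c * sb * ub * vb) / 2 +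
      (1 + e + e * (c * cb)) * (v * vb) / 2 - n * (P + Q) / 2 = 0) :
    4 * (-(u * ub * (s * sb) / 4 / (4 * n ^ 3)) * u - e * g * (s * sb) / 2 * u +
      e * (S * c * sb * vb) + e / 2 * (P + Q) / n * u) -
      (2 * e * (sb * (-(Sb * cb * s * u) + (1 + e + e * (c * cb)) * vb)) * (v / (ub * sb / 2)) +
        2 * e * cb * (-(1 / 2) * (JA + JB))) =
      -(u * ub * (s * sb) / 4) * u / n ^ 3 + e * (JB - JA) := by
  have hu0 : u ≠ 0 := by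
    rintro rfl
    rw [zero_mul] at hn
    exact hn0 (pow_eq_zero_iff (two_ne_zero) |>.1 hn)
  have hub : ub = n ^ 2 / u := by
    rw [eq_div_iff hu0, hn]; ring
  subst hub
  have hg : g = ((Sb * cb * s * u * v + S * c * sb * (n ^ 2 / u) * vb) / 2 -
      (1 + e + e * (c * cb)) * (v * vb) / 2 + n * (P + Q) / 2) /
      (u * (n ^ 2 / u) * (s * sb) / 4) := by
    rw [eq_div_iff]
    · linear_combination hG
    · have : u * (n ^ 2 / u) * (s * sb) / 4 = n ^ 2 * (s * sb) / 4 := by field_simp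
      rw [this]
      exact div_ne_zero (mul_ne_zero (pow_ne_zero 2 hn0) (mul_ne_zero hs hsb)) (by norm_num)
  subst hg hJA hJB
  field_simp
  ring

theorem newton_ud_pr {γ : ℝ → E7} {T t : ℝ} (h : SolOn VF UU γ T) (ht : t ∈ Icc 0 T)
    (hJ : cJ (γ t) ≠ 0) (he : 0 ≤ ce (γ t)) (hG : Gh (γ t) = 0) :
    HasDerivAt (fun s => ud (γ s)) ((cJ (γ t) : ℂ) *
      (-(cu (γ t)) / ((‖cu (γ t)‖ ^ 3 : ℝ) : ℂ)
        + (ce (γ t) : ℂ) *
          ((yy (γ t) - cu (γ t) / 2) / ((‖yy (γ t) - cu (γ t) / 2‖ ^ 3 : ℝ) : ℂ)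
          - (yy (γ t) + cu (γ t) / 2) / ((‖yy (γ t) + cu (γ t) / 2‖ ^ 3 : ℝ) : ℂ)))) t := by
  obtain ⟨hu, hS, hw, hv, hg, -, hce⟩ := sol_comp h ht
  have hcb := ec_nwu_conj (ec_nwu_cosh hw)
  have heC := hce.ofReal_comp
  have hpi := newton_pi h ht hJ he hG
  have hD := (hS.const_mul 4).sub (((heC.const_mul 2).mul hcb).mul hpi)
  refine hD.congr_deriv ?_
  obtain ⟨hu0, hs0⟩ := ec_nwu_ne hJ
  have hsb0 : cj (sinh (cw (γ t))) ≠ 0 := by simpa using hs0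
  obtain ⟨k1, k2, k3, k4⟩ := ec_nwu_AB hJ
  have hn2 : ((‖cu (γ t)‖ : ℝ) : ℂ) ^ 2 = cu (γ t) * cj (cu (γ t)) :=
    (Complex.mul_conj' (cu (γ t))).symm
  have hn0 : ((‖cu (γ t)‖ : ℝ) : ℂ) ≠ 0 := by
    exact_mod_cast (norm_pos_iff.2 hu0).ne'
  have hre : ∀ z : ℂ, ((z.re : ℝ) : ℂ) = (z + cj z) / 2 := fun z => Complex.re_eq_add_conj z
  have hns : ∀ z : ℂ, ((normSq z : ℝ) : ℂ) = z * cj z := fun z => (Complex.mul_conj z).symm
  have hGC : cu (γ t) * cj (cu (γ t)) * (sinh (cw (γ t)) * cj (sinh (cw (γ t)))) / 4 *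
      (cg (γ t) : ℂ) -
      (cj (cS (γ t)) * cj (cosh (cw (γ t))) * sinh (cw (γ t)) * cu (γ t) * cv (γ t) +
        cS (γ t) * cosh (cw (γ t)) * cj (sinh (cw (γ t))) * cj (cu (γ t)) * cj (cv (γ t))) / 2 +
      (1 + (ce (γ t) : ℂ) + (ce (γ t) : ℂ) * (cosh (cw (γ t)) * cj (cosh (cw (γ t))))) *
        (cv (γ t) * cj (cv (γ t))) / 2 - ((‖cu (γ t)‖ : ℝ) : ℂ) *
        (cosh (cw (γ t) / 2) * cj (cosh (cw (γ t) / 2)) +
          sinh (cw (γ t) / 2) * cj (sinh (cw (γ t) / 2))) / 2 = 0 := by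
    have h0 : ((Gh (γ t) : ℝ) : ℂ) = 0 := by rw [hG, Complex.ofReal_zero]
    rw [← ec_nwu_hc]
    rw [← h0]
    unfold Gh cJ
    rw [Complex.ofReal_sub, Complex.ofReal_add, Complex.ofReal_sub, hre]
    simp only [Complex.ofReal_mul, Complex.ofReal_div, Complex.ofReal_add, Complex.ofReal_one,
      hns, map_mul, Complex.conj_conj, Complex.ofReal_ofNat]
  have key := ec_nwu_alg (cu (γ t)) (cj (cu (γ t))) (cS (γ t)) (cj (cS (γ t))) (cosh (cw (γ t)))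
    (cj (cosh (cw (γ t)))) (sinh (cw (γ t))) (cj (sinh (cw (γ t)))) (cv (γ t)) (cj (cv (γ t)))
    (cg (γ t)) (ce (γ t)) ((‖cu (γ t)‖ : ℝ) : ℂ)
    (cosh (cw (γ t) / 2) * cj (cosh (cw (γ t) / 2)))
    (sinh (cw (γ t) / 2) * cj (sinh (cw (γ t) / 2)))
    _ _ hn2 hn0 hs0 hsb0 k1 k2 k3 k4 hGC
  have eR : (cJ (γ t) : ℂ) *
      (-(cu (γ t)) / ((‖cu (γ t)‖ ^ 3 : ℝ) : ℂ)
        + (ce (γ t) : ℂ) *
          ((yy (γ t) - cu (γ t) / 2) / ((‖yy (γ t) - cu (γ t) / 2‖ ^ 3 : ℝ) : ℂ)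
          - (yy (γ t) + cu (γ t) / 2) / ((‖yy (γ t) + cu (γ t) / 2‖ ^ 3 : ℝ) : ℂ))) =
      -(cu (γ t) * cj (cu (γ t)) * (sinh (cw (γ t)) * cj (sinh (cw (γ t)))) / 4) * cu (γ t) /
        ((‖cu (γ t)‖ : ℝ) : ℂ) ^ 3 + (ce (γ t) : ℂ) *
        ((cJ (γ t) : ℂ) * ((yy (γ t) - cu (γ t) / 2) /
          ((‖yy (γ t) - cu (γ t) / 2‖ ^ 3 : ℝ) : ℂ)) -
        (cJ (γ t) : ℂ) * ((yy (γ t) + cu (γ t) / 2) /
          ((‖yy (γ t) + cu (γ t) / 2‖ ^ 3 : ℝ) : ℂ))) := by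
    rw [← ec_nwu_cJ, Complex.ofReal_pow (‖cu (γ t)‖)]
    ring
  rw [eR, ← key]
  have eS : FS (γ t) = -(cu (γ t) * cj (cu (γ t)) * (sinh (cw (γ t)) * cj (sinh (cw (γ t)))) / 4 /
      (4 * ((‖cu (γ t)‖ : ℝ) : ℂ) ^ 3)) * cu (γ t) -
      (ce (γ t) : ℂ) * (cg (γ t) : ℂ) * (sinh (cw (γ t)) * cj (sinh (cw (γ t)))) / 2 * cu (γ t) +
      (ce (γ t) : ℂ) * (cS (γ t) * cosh (cw (γ t)) * cj (sinh (cw (γ t))) * cj (cv (γ t))) +
      (ce (γ t) : ℂ) / 2 * (cosh (cw (γ t) / 2) * cj (cosh (cw (γ t) / 2)) +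
        sinh (cw (γ t) / 2) * cj (sinh (cw (γ t) / 2))) / ((‖cu (γ t)‖ : ℝ) : ℂ) * cu (γ t) := by
    unfold FS
    rw [← ec_nwu_hc, ← ec_nwu_cJ]
    simp only [Complex.ofReal_mul, Complex.ofReal_div, hns, Complex.ofReal_pow,
      Complex.ofReal_ofNat]
  have eW : cj (Fw (γ t)) = -(cj (cS (γ t)) * cj (cosh (cw (γ t))) * sinh (cw (γ t)) *
      cu (γ t)) + (1 + (ce (γ t) : ℂ) + (ce (γ t) : ℂ) * (cosh (cw (γ t)) *
        cj (cosh (cw (γ t))))) * cj (cv (γ t)) := by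
    unfold Fw
    simp only [Complex.ofReal_mul, Complex.ofReal_add, hns, Complex.ofReal_one,
        map_add, map_neg, map_mul, Complex.conj_conj, Complex.conj_ofReal, map_one]
    ring
  have eP : ppi (γ t) = cv (γ t) / (cj (cu (γ t)) * cj (sinh (cw (γ t))) / 2) := by
    unfold ppi
    simp only [map_mul, map_div₀, map_ofNat]
  rw [eS, eP]
  simp only [map_mul, eW, Complex.ofReal_zero, Pi.mul_apply]
  ring

end Pool.Agent.Ecl
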