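import Pool.Agent.Lib_helper34.Ecl.Defs
import Pool.Agent.Lib_helper34.EclF.DERA

/-!
# EC3, block NWY: Newton's equation for the third body
-/

set_option autoImplicit false

namespace Pool.Agent.Ecl

open Set Complex Filter Topology

private theorem ec_nwy_hsinh {f : ℝ → ℂ} {f' : ℂ} {t : ℝ} (h : HasDerivAt f f' t) :
    HasDerivAt (fun s => sinh (f s)) (cosh (f t) * f') t :=
  HasDerivAt.comp t (Complex.hasDerivAt_sinh (f t)) h

private theorem ec_nwy_hcj {f : ℝ → ℂ} {f' : ℂ} {t : ℝ} (h : HasDerivAt f f' t) :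
    HasDerivAt (fun s => cj (f s)) (cj f') t := h.star

/-- the main identity -/
private theorem ec_nwy_alg {u ub p pb q qb N v vb S Sb e g J : ℂ}
    (hJ : J = u * ub * p * pb * q * qb)
    (hG : J * g - (Sb * (pb ^ 2 + qb ^ 2) * (2 * q * p) * u * v
        + S * (p ^ 2 + q ^ 2) * (2 * qb * pb) * ub * vb) / 2
      + (1 + e + e * ((p ^ 2 + q ^ 2) * (pb ^ 2 + qb ^ 2))) * (v * vb) / 2
      - N * (p * pb + q * qb) / 2 = 0) :
    (-(g * (u * ub) / 2) * ((2 * q * p) * (pb ^ 2 + qb ^ 2))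
      + Sb * u * v * ((2 * q * p) * (2 * qb * pb))
      + S * ub * vb * ((p ^ 2 + q ^ 2) * (pb ^ 2 + qb ^ 2))
      - (e * (v * vb)) * ((p ^ 2 + q ^ 2) * (2 * qb * pb))
      + N * (q * pb + p * qb) / 2) * (ub * (2 * qb * pb) / 2)
    - v * (((4 * J * Sb - e * (p ^ 2 + q ^ 2) * (2 * qb * pb) * ub * vb) * (2 * qb * pb)
      + ub * ((pb ^ 2 + qb ^ 2) * (-(Sb * (pb ^ 2 + qb ^ 2) * (2 * q * p) * u)
        + (1 + e + e * ((p ^ 2 + q ^ 2) * (pb ^ 2 + qb ^ 2))) * vb))) / 2)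
    = -(1 / 2) * N * ub * (q * qb ^ 3 + p * pb ^ 3) := by
  subst hJ
  linear_combination (-(ub * (pb ^ 2 + qb ^ 2))) * hG

/-- the right-hand side -/
private theorem ec_nwy_rhs {u ub p pb q qb N J : ℂ} (hJ : J = u * ub * p * pb * q * qb)
    (hN : N ^ 2 = u * ub) (hu : u ≠ 0) (hub : ub ≠ 0) (hp : p ≠ 0) (hpb : pb ≠ 0)
    (hq : q ≠ 0) (hqb : qb ≠ 0) :
    -(1 / 2) * N * ub * (q * qb ^ 3 + p * pb ^ 3) / (ub * (2 * qb * pb) / 2) ^ 2
      = J * (-(1 / 2) * (u * p ^ 2 / (N * (p * pb)) ^ 3 + u * q ^ 2 / (N * (q * qb)) ^ 3)) := by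
  have hN0 : N ≠ 0 := by
    rintro rfl
    have : u * ub = 0 := by rw [← hN]; ring
    rcases mul_eq_zero.mp this with h | h
    · exact hu h
    · exact hub h
  subst hJ
  field_simp
  linear_combination (-(q * qb ^ 3 + p * pb ^ 3)) * (N ^ 2 + u * ub) * hN

/-- **NWY.** the derivative of `π` (energy relation used) -/
theorem newton_pi_pr {γ : ℝ → E7} {T t : ℝ} (h : SolOn VF UU γ T) (ht : t ∈ Icc 0 T)
    (hJ : cJ (γ t) ≠ 0) (he : 0 ≤ ce (γ t)) (hG : Gh (γ t) = 0) :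
    HasDerivAt (fun s => ppi (γ s)) ((cJ (γ t) : ℂ) *
      (-(1 / 2) * ((yy (γ t) + cu (γ t) / 2) / ((‖yy (γ t) + cu (γ t) / 2‖ ^ 3 : ℝ) : ℂ)
        + (yy (γ t) - cu (γ t) / 2) / ((‖yy (γ t) - cu (γ t) / 2‖ ^ 3 : ℝ) : ℂ)))) t := by
  obtain ⟨du, dS, dw, dv, dg, dt, de⟩ := sol_comp h ht
  have hu : cu (γ t) ≠ 0 := (h t ht).2
  set X : E7 := γ t with hX
  -- derivative by the quotient rule
  have dD : HasDerivAt (fun s => cj (cu (γ s) * sinh (cw (γ s)) / 2))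
      (cj ((Fu X * sinh (cw X) + cu X * (cosh (cw X) * Fw X)) / 2)) t :=
    ec_nwy_hcj ((du.mul (ec_nwy_hsinh dw)).div_const 2)
  have hs0 : sinh (cw X) ≠ 0 := by
    intro h0
    apply hJ
    simp [cJ, h0]
  have h20 : (2 : ℂ) ≠ 0 := two_ne_zero
  have hD0 : cj (cu X * sinh (cw X) / 2) ≠ 0 := by
    rw [Ne, map_eq_zero]
    exact div_ne_zero (mul_ne_zero hu hs0) h20
  have hmain := dv.div dD hD0
  refine hmain.congr_deriv ?_
  -- letters
  obtain ⟨p, hp⟩ : ∃ p, p = cosh (cw X / 2) := ⟨_, rfl⟩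
  obtain ⟨q, hq⟩ : ∃ q, q = sinh (cw X / 2) := ⟨_, rfl⟩
  obtain ⟨u, hudef⟩ : ∃ u, u = cu X := ⟨_, rfl⟩
  have hc : cosh (cw X) = p ^ 2 + q ^ 2 := by
    rw [hp, hq, ← Complex.cosh_two_mul]; congr 1; ring
  have hs : sinh (cw X) = 2 * q * p := by
    rw [hp, hq, ← Complex.sinh_two_mul]; congr 1; ring
  have hpq : p ^ 2 = q ^ 2 + 1 := by rw [hp, hq, Complex.cosh_sq]
  have hre : ((cw X).re : ℂ) = cw X / 2 + cj (cw X) / 2 := by
    rw [Complex.re_eq_add_conj]; ring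
  have hc2 : (starRingEnd ℂ) 2 = 2 := map_ofNat _ 2
  have hcj2 : cj (cw X) / 2 = cj (cw X / 2) := by
    simp only [cj, map_div₀, hc2]
  have hcre : ((Real.cosh (cw X).re : ℝ) : ℂ) = p * cj p + q * cj q := by
    rw [ofReal_cosh, hre, hcj2, Complex.cosh_add, hp, hq, Complex.cosh_conj,
      Complex.sinh_conj]
  have hsre : ((Real.sinh (cw X).re : ℝ) : ℂ) = q * cj p + p * cj q := by
    rw [ofReal_sinh, hre, hcj2, Complex.sinh_add, hp, hq, Complex.cosh_conj,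
      Complex.sinh_conj]
  have hp0 : p ≠ 0 := by
    rintro rfl; apply hs0; rw [hs]; ring
  have hq0 : q ≠ 0 := by
    rintro rfl; apply hs0; rw [hs]; ring
  have hu0 : u ≠ 0 := by rw [hudef]; exact hu
  have hub0 : cj u ≠ 0 := by rw [Ne, map_eq_zero]; exact hu0
  have hpb0 : cj p ≠ 0 := by rw [Ne, map_eq_zero]; exact hp0
  have hqb0 : cj q ≠ 0 := by rw [Ne, map_eq_zero]; exact hq0
  have hnsu : ((normSq (cu X) : ℝ) : ℂ) = u * cj u := by rw [mul_conj, hudef]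
  have hnss : ((normSq (sinh (cw X)) : ℝ) : ℂ) = (2 * q * p) * (2 * cj q * cj p) := by
    rw [← mul_conj, hs]; simp only [map_mul, hc2]
  have hnsc : ((normSq (cosh (cw X)) : ℝ) : ℂ) = (p ^ 2 + q ^ 2) * (cj p ^ 2 + cj q ^ 2) := by
    rw [← mul_conj, hc]; simp only [map_add, map_pow]
  have hJc : ((cJ X : ℝ) : ℂ) = u * cj u * p * cj p * q * cj q := by
    unfold cJ
    push_cast
    rw [hnsu, hnss]; ring
  have hN2 : ((‖u‖ : ℝ) : ℂ) ^ 2 = u * cj u := by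
    rw [mul_conj, normSq_eq_norm_sq]; push_cast; rfl
  -- the positions
  have hA : yy X + cu X / 2 = u * p ^ 2 := by
    rw [yy, hc, ← hudef]; linear_combination (-(u / 2)) * hpq
  have hB : yy X - cu X / 2 = u * q ^ 2 := by
    rw [yy, hc, ← hudef]; linear_combination (u / 2) * hpq
  have hnA : ((‖yy X + cu X / 2‖ ^ 3 : ℝ) : ℂ) = (((‖u‖ : ℝ) : ℂ) * (p * cj p)) ^ 3 := by
    rw [hA, norm_mul, norm_pow, mul_conj, normSq_eq_norm_sq]; push_cast; rfl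
  have hnB : ((‖yy X - cu X / 2‖ ^ 3 : ℝ) : ℂ) = (((‖u‖ : ℝ) : ℂ) * (q * cj q)) ^ 3 := by
    rw [hB, norm_mul, norm_pow, mul_conj, normSq_eq_norm_sq]; push_cast; rfl
  rw [hnA, hnB, hA, hB, ← ec_nwy_rhs hJc hN2 hu0 hub0 hp0 hpb0 hq0 hqb0]
  have hDD : cj (cu X * sinh (cw X) / 2) = cj u * (2 * cj q * cj p) / 2 := by
    rw [hs, ← hudef]; simp only [cj, map_mul, map_div₀, hc2]
  have hGc : ((cJ X : ℝ) : ℂ) * (cg X : ℂ)
      - (cj (cS X) * (cj p ^ 2 + cj q ^ 2) * (2 * q * p) * u * cv X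
        + cS X * (p ^ 2 + q ^ 2) * (2 * cj q * cj p) * cj u * cj (cv X)) / 2
      + (1 + (ce X : ℂ) + (ce X : ℂ) * ((p ^ 2 + q ^ 2) * (cj p ^ 2 + cj q ^ 2)))
        * (cv X * cj (cv X)) / 2
      - ((‖u‖ : ℝ) : ℂ) * (p * cj p + q * cj q) / 2 = 0 := by
    have h1 := congrArg (fun r : ℝ => (r : ℂ)) hG
    simp only [Gh, ofReal_zero] at h1
    push_cast at h1
    have h2 : (((cj (cS X) * cj (cosh (cw X)) * sinh (cw X) * cu X * cv X).re : ℝ) : ℂ)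
        = (cj (cS X) * (cj p ^ 2 + cj q ^ 2) * (2 * q * p) * u * cv X
        + cS X * (p ^ 2 + q ^ 2) * (2 * cj q * cj p) * cj u * cj (cv X)) / 2 := by
      rw [Complex.re_eq_add_conj, hc, hs, ← hudef]
      simp only [cj, map_mul, map_add, map_pow, conj_conj, hc2]
    have h3 : ((normSq (cv X) : ℝ) : ℂ) = cv X * cj (cv X) := by rw [mul_conj]
    rw [h2, h3, hnsc, ← hudef] at h1
    rw [← ofReal_cosh, hcre] at h1
    exact h1
  have hfin := ec_nwy_alg (v := cv X) (vb := cj (cv X)) (S := cS X) (Sb := cj (cS X))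
    (e := (ce X : ℂ)) (g := (cg X : ℂ)) hJc hGc
  have hFv : Fv X = -((cg X : ℂ) * (u * cj u) / 2) * ((2 * q * p) * (cj p ^ 2 + cj q ^ 2))
      + cj (cS X) * u * cv X * ((2 * q * p) * (2 * cj q * cj p))
      + cS X * cj u * cj (cv X) * ((p ^ 2 + q ^ 2) * (cj p ^ 2 + cj q ^ 2))
      - ((ce X : ℂ) * (cv X * cj (cv X))) * ((p ^ 2 + q ^ 2) * (2 * cj q * cj p))
      + ((‖u‖ : ℝ) : ℂ) * (q * cj p + p * cj q) / 2 := by
    have h3 : ((normSq (cv X) : ℝ) : ℂ) = cv X * cj (cv X) := by rw [mul_conj]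
    unfold Fv
    push_cast
    rw [← ofReal_sinh, hsre, h3, hnss, hnsc, hnsu, ← hudef, hc, hs]
    simp only [cj, map_mul, map_add, map_pow, hc2]
  have hFD : cj ((Fu X * sinh (cw X) + cu X * (cosh (cw X) * Fw X)) / 2)
      = ((4 * ((cJ X : ℝ) : ℂ) * cj (cS X)
          - (ce X : ℂ) * (p ^ 2 + q ^ 2) * (2 * cj q * cj p) * cj u * cj (cv X))
            * (2 * cj q * cj p)
      + cj u * ((cj p ^ 2 + cj q ^ 2) * (-(cj (cS X) * (cj p ^ 2 + cj q ^ 2) * (2 * q * p) * u)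
        + (1 + (ce X : ℂ) + (ce X : ℂ) * ((p ^ 2 + q ^ 2) * (cj p ^ 2 + cj q ^ 2)))
          * cj (cv X)))) / 2 := by
    have hc4 : (starRingEnd ℂ) 4 = 4 := map_ofNat _ 4
    unfold Fu Fw
    push_cast
    rw [hnsc, ← hudef, hc, hs]
    simp only [cj, map_mul, map_add, map_sub, map_neg, map_one, map_pow, map_div₀, conj_conj,
      conj_ofReal, hc2, hc4]
    ring
  rw [← hX, hDD, hFv, hFD, hfin]

end Pool.Agent.Ecl
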