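import Pool.Agent.Lib_helper34.Ecl.Defs

/-! # Block ODE: uniqueness, extension and persistence of solutions of a `C¹` autonomous ODE -/

set_option autoImplicit false

namespace Pool.Agent.Ecl

open Set Filter Topology
open scoped NNReal Manifold ContDiff

section ode
variable {E : Type*} [NormedAddCommGroup E] [NormedSpace ℝ E] [FiniteDimensional ℝ E]
  {F : E → E} {U : Set E}

/-- cutoff of the field near a compact set -/
theorem ec_ODE_cutoff (hU : IsOpen U) (hF : ContDiffOn ℝ 1 F U) {K : Set E} (hK : IsCompact K)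
    (hKU : K ⊆ U) :
    ∃ (G : E → E) (L : ℝ≥0) (M : ℝ≥0) (V : Set E), LipschitzWith L G ∧ (∀ x, ‖G x‖ ≤ M) ∧
      IsOpen V ∧ K ⊆ V ∧ V ⊆ U ∧ ∀ x ∈ V, G x = F x := by
  obtain ⟨K2, hK2, hKK2, hK2U⟩ := exists_compact_between hK hU hKU
  obtain ⟨f, hf1, hf0, -⟩ := exists_contMDiffMap_one_nhds_of_subset_interior (n := (1 : ℕ∞))
    𝓘(ℝ, E) hK.isClosed hKK2
  have hfd : ContDiff ℝ 1 (f : E → ℝ) := f.contMDiff.contDiff
  have hG : ContDiff ℝ 1 (fun x => f x • F x) := by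
    rw [contDiff_iff_contDiffAt]
    intro x
    by_cases hx : x ∈ U
    · exact hfd.contDiffAt.smul (hF.contDiffAt (hU.mem_nhds hx))
    · have hx2 : x ∈ K2ᶜ := fun h => hx (hK2U h)
      have hev : (fun x => f x • F x) =ᶠ[𝓝 x] fun _ => 0 := by
        filter_upwards [hK2.isClosed.isOpen_compl.mem_nhds hx2] with y hy
        rw [hf0 y hy, zero_smul]
      exact contDiffAt_const.congr_of_eventuallyEq hev
  have hcs : HasCompactSupport (fun x => f x • F x) :=
    HasCompactSupport.intro hK2 (fun x hx => by rw [hf0 x hx, zero_smul])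
  obtain ⟨L, hL⟩ := ContDiff.lipschitzWith_of_hasCompactSupport hcs hG one_ne_zero
  obtain ⟨M, hM⟩ := hG.continuous.bounded_above_of_compact_support hcs
  rw [eventually_nhdsSet_iff_exists] at hf1
  obtain ⟨W, hW, hKW, hW1⟩ := hf1
  refine ⟨fun x => f x • F x, L, M.toNNReal, W ∩ U, hL, fun x => (hM x).trans
    (Real.le_coe_toNNReal M), hW.inter hU, subset_inter hKW hKU, inter_subset_right, ?_⟩
  intro x hx
  change f x • F x = F x
  rw [hW1 x hx.1, one_smul]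

omit [FiniteDimensional ℝ E] in
/-- global solutions for a bounded Lipschitz field -/
theorem ec_ODE_global [CompleteSpace E] {G : E → E} {L M : ℝ≥0} (hL : LipschitzWith L G)
    (hM : ∀ x, ‖G x‖ ≤ M) {T : ℝ} (hT : 0 ≤ T) (x : E) :
    ∃ γ : ℝ → E, γ 0 = x ∧ ∀ t ∈ Icc 0 T, HasDerivAt γ (G (γ t)) t := by
  have hmem : (0 : ℝ) ∈ Icc (-(T + 1)) (T + 1) := ⟨by linarith, by linarith⟩
  let a : ℝ≥0 := M * ⟨T + 1, by linarith⟩
  have hpl : IsPicardLindelof (fun _ => G) (tmin := -(T + 1)) (tmax := T + 1)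
      ⟨0, hmem⟩ x a 0 M L := by
    refine IsPicardLindelof.of_time_independent (fun y _ => hM y) hL.lipschitzOnWith ?_
    simp only [a, NNReal.coe_zero, sub_zero, zero_sub, neg_neg,
      max_self]
    exact le_rfl
  obtain ⟨γ, h0, h⟩ := hpl.exists_eq_forall_mem_Icc_hasDerivWithinAt₀
  refine ⟨γ, h0, fun t ht => ?_⟩
  exact (h t ⟨by linarith [ht.1], by linarith [ht.2]⟩).hasDerivAt
    (Icc_mem_nhds (by linarith [ht.1]) (by linarith [ht.2]))

/-- **ODE.** uniqueness -/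
theorem ode_unique_pr (hU : IsOpen U) (hF : ContDiffOn ℝ 1 F U) {γ γ' : ℝ → E} {T : ℝ}
    (h : SolOn F U γ T) (h' : SolOn F U γ' T) (h0 : γ 0 = γ' 0) :
    ∀ t ∈ Icc 0 T, γ t = γ' t := by
  have hc : ContinuousOn γ (Icc 0 T) := fun t ht => (h t ht).1.continuousAt.continuousWithinAt
  have hc' : ContinuousOn γ' (Icc 0 T) := fun t ht => (h' t ht).1.continuousAt.continuousWithinAt
  have hK : IsCompact (γ '' Icc 0 T ∪ γ' '' Icc 0 T) :=
    (isCompact_Icc.image_of_continuousOn hc).union (isCompact_Icc.image_of_continuousOn hc')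
  have hKU : γ '' Icc 0 T ∪ γ' '' Icc 0 T ⊆ U := by
    rintro x (⟨t, ht, rfl⟩ | ⟨t, ht, rfl⟩)
    · exact (h t ht).2
    · exact (h' t ht).2
  obtain ⟨G, L, M, V, hL, hM, hV, hKV, hVU, hG⟩ := ec_ODE_cutoff hU hF hK hKU
  have key := ODE_solution_unique (v := fun _ => G) (K := L) (a := 0) (b := T) (fun _ => hL)
    hc (fun t ht => ?_) hc' (fun t ht => ?_) h0
  · exact fun t ht => key ht
  · have := (h t (Ico_subset_Icc_self ht)).1.hasDerivWithinAt (s := Ici t)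
    rwa [← hG _ (hKV (Or.inl ⟨t, Ico_subset_Icc_self ht, rfl⟩))] at this
  · have := (h' t (Ico_subset_Icc_self ht)).1.hasDerivWithinAt (s := Ici t)
    rwa [← hG _ (hKV (Or.inr ⟨t, Ico_subset_Icc_self ht, rfl⟩))] at this

/-- **ODE.** extension and persistence -/
theorem ode_persist_pr (hU : IsOpen U) (hF : ContDiffOn ℝ 1 F U) {γ0 : ℝ → E} {T : ℝ}
    (hT : 0 ≤ T) (h : SolOn F U γ0 T) :
    ∃ κ > 0, ∃ γ1 : ℝ → E, SolOn F U γ1 (T + κ) ∧ (∀ t ∈ Icc 0 T, γ1 t = γ0 t) ∧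
      ∀ δ > 0, ∃ η > 0, ∀ x, dist x (γ0 0) < η → ∃ γ : ℝ → E, γ 0 = x ∧
        SolOn F U γ (T + κ) ∧ ∀ t ∈ Icc 0 (T + κ), dist (γ t) (γ1 t) < δ := by
  have : CompleteSpace E := FiniteDimensional.complete ℝ E
  have hc : ContinuousOn γ0 (Icc 0 T) := fun t ht => (h t ht).1.continuousAt.continuousWithinAt
  have hK : IsCompact (γ0 '' Icc 0 T) := isCompact_Icc.image_of_continuousOn hc
  have hKU : γ0 '' Icc 0 T ⊆ U := by
    rintro x ⟨t, ht, rfl⟩
    exact (h t ht).2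
  obtain ⟨G, L, M, V, hL, hM, hV, hKV, hVU, hG⟩ := ec_ODE_cutoff hU hF hK hKU
  obtain ⟨γ1, h10, h1⟩ := ec_ODE_global hL hM (T := T + 1) (by linarith) (γ0 0)
  have hc1 : ContinuousOn γ1 (Icc 0 (T + 1)) :=
    fun t ht => (h1 t ht).continuousAt.continuousWithinAt
  have heq : ∀ t ∈ Icc 0 T, γ1 t = γ0 t := by
    have key := ODE_solution_unique (v := fun _ => G) (K := L) (a := 0) (b := T) (fun _ => hL)
      (f := γ1) (g := γ0) (hc1.mono (Icc_subset_Icc_right (by linarith))) (fun t ht => ?_) hc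
      (fun t ht => ?_) h10
    · exact fun t ht => key ht
    · exact (h1 t ⟨ht.1, by linarith [ht.2]⟩).hasDerivWithinAt
    · have := (h t (Ico_subset_Icc_self ht)).1.hasDerivWithinAt (s := Ici t)
      rwa [← hG _ (hKV ⟨t, Ico_subset_Icc_self ht, rfl⟩)] at this
  -- extension
  have hTV : γ1 T ∈ V := by
    rw [heq T ⟨hT, le_rfl⟩]
    exact hKV ⟨T, ⟨hT, le_rfl⟩, rfl⟩
  have hev : ∀ᶠ t in 𝓝 T, γ1 t ∈ V :=
    (h1 T ⟨hT, by linarith⟩).continuousAt.eventually_mem (hV.mem_nhds hTV)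
  obtain ⟨ε, hε, hball⟩ := Metric.eventually_nhds_iff.1 hev
  set κ : ℝ := min (ε / 2) 1 with hκdef
  have hκ0 : 0 < κ := lt_min (by linarith) one_pos
  have hκ1 : κ ≤ 1 := min_le_right _ _
  have hκε : κ < ε := lt_of_le_of_lt (min_le_left _ _) (by linarith)
  have hV1 : ∀ t ∈ Icc 0 (T + κ), γ1 t ∈ V := by
    intro t ht
    rcases le_total t T with h2 | h2
    · rw [heq t ⟨ht.1, h2⟩]
      exact hKV ⟨t, ⟨ht.1, h2⟩, rfl⟩
    · apply hball
      rw [Real.dist_eq, abs_of_nonneg (by linarith)]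
      linarith [ht.2]
  have hsol1 : SolOn F U γ1 (T + κ) := by
    intro t ht
    have h2 := h1 t ⟨ht.1, by linarith [ht.2]⟩
    rw [hG _ (hV1 t ht)] at h2
    exact ⟨h2, hVU (hV1 t ht)⟩
  refine ⟨κ, hκ0, γ1, hsol1, heq, fun δ hδ => ?_⟩
  have hK1 : IsCompact (γ1 '' Icc 0 (T + κ)) :=
    isCompact_Icc.image_of_continuousOn (hc1.mono (Icc_subset_Icc_right (by linarith)))
  have hK1V : γ1 '' Icc 0 (T + κ) ⊆ V := by
    rintro x ⟨t, ht, rfl⟩
    exact hV1 t ht
  obtain ⟨ε', hε', hthick⟩ := hK1.exists_thickening_subset_open hV hK1V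
  set d : ℝ := min δ ε' with hddef
  have hd0 : 0 < d := lt_min hδ hε'
  have hexp : 0 < Real.exp (L * (T + κ)) := Real.exp_pos _
  refine ⟨d / Real.exp (L * (T + κ)), by positivity, fun x hx => ?_⟩
  obtain ⟨γ, hγ0, hγ⟩ := ec_ODE_global hL hM (T := T + κ) (by linarith) x
  have hcγ : ContinuousOn γ (Icc 0 (T + κ)) :=
    fun t ht => (hγ t ht).continuousAt.continuousWithinAt
  have hdist : ∀ t ∈ Icc 0 (T + κ), dist (γ t) (γ1 t) < d := by
    intro t ht
    have h3 := dist_le_of_trajectories_ODE (v := fun _ => G) (K := L) (a := 0) (b := T + κ)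
      (f := γ) (g := γ1) (δ := dist x (γ0 0)) (fun _ => hL) hcγ
      (fun t ht => (hγ t (Ico_subset_Icc_self ht)).hasDerivWithinAt)
      (hc1.mono (Icc_subset_Icc_right (by linarith)))
      (fun t ht => (h1 t ⟨ht.1, by linarith [ht.2]⟩).hasDerivWithinAt)
      (by rw [hγ0, h10]) t ht
    refine lt_of_le_of_lt h3 ?_
    have h4 : Real.exp (L * (t - 0)) ≤ Real.exp (L * (T + κ)) := by
      apply Real.exp_le_exp.2
      exact mul_le_mul_of_nonneg_left (by linarith [ht.2]) L.coe_nonneg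
    calc dist x (γ0 0) * Real.exp (L * (t - 0)) ≤ dist x (γ0 0) * Real.exp (L * (T + κ)) :=
          mul_le_mul_of_nonneg_left h4 dist_nonneg
      _ < d / Real.exp (L * (T + κ)) * Real.exp (L * (T + κ)) :=
          mul_lt_mul_of_pos_right hx hexp
      _ = d := by field_simp
  refine ⟨γ, hγ0, fun t ht => ?_, fun t ht => lt_of_lt_of_le (hdist t ht) (min_le_left _ _)⟩
  have hmem : γ t ∈ V := by
    apply hthick
    rw [Metric.mem_thickening_iff]
    exact ⟨γ1 t, ⟨t, ht, rfl⟩, lt_of_lt_of_le (hdist t ht) (min_le_right _ _)⟩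
  have h2 := hγ t ht
  rw [hG _ hmem] at h2
  exact ⟨h2, hVU hmem⟩

end ode

end Pool.Agent.Ecl
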