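import Pool.Agent.Lib_helper34.Ecl.Defs

/-!
# EC3, block SYM: symmetries and gluing of Thiele-Burrau solutions
-/

set_option autoImplicit false

namespace Pool.Agent.Ecl

open Set Complex Filter Topology

theorem ec_sym_cos_sq (x : ℝ) (n : ℤ) : Real.cos (x + Real.pi * n) ^ 2 = Real.cos x ^ 2 := by
  rw [mul_comm, Real.cos_add_int_mul_pi, mul_pow]
  have : ((-1 : ℝ) ^ n) ^ 2 = 1 := by
    rw [← zpow_natCast, ← zpow_mul, mul_comm, zpow_mul]
    norm_num
  rw [this, one_mul]

theorem ec_sym_sin_cos (x : ℝ) (n : ℤ) :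
    Real.sin (x + Real.pi * n) * Real.cos (x + Real.pi * n) = Real.sin x * Real.cos x := by
  rw [mul_comm Real.pi, Real.cos_add_int_mul_pi, Real.sin_add_int_mul_pi]
  have : ((-1 : ℝ) ^ n) * (-1 : ℝ) ^ n = 1 := by
    rw [← mul_zpow]
    norm_num
  linear_combination (Real.sin x * Real.cos x) * this

theorem ec_sym_JJ (x y : ℝ) {c : ℝ} (hc : c = 1 ∨ c = -1) (n : ℤ) :
    JJ (c * x) (c * y + Real.pi * n) = JJ x y := by
  unfold JJ
  rw [ec_sym_cos_sq]
  rcases hc with rfl | rfl <;> simp

theorem ec_sym_Fp (x y q : ℝ) {c : ℝ} (hc : c = 1 ∨ c = -1) (n : ℤ) :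
    Fp (c * x) (c * y + Real.pi * n) (c * q) = c * Fp x y q := by
  unfold Fp
  rw [ec_sym_JJ x y hc]
  rcases hc with rfl | rfl
  · simp
  · simp only [neg_mul, one_mul, Real.sinh_neg, Real.cosh_neg]
    ring

theorem ec_sym_Fq (x y p : ℝ) {c : ℝ} (hc : c = 1 ∨ c = -1) (n : ℤ) :
    Fq (c * x) (c * y + Real.pi * n) (c * p) = c * Fq x y p := by
  unfold Fq
  rw [ec_sym_JJ x y hc, ec_sym_cos_sq, ec_sym_sin_cos]
  rcases hc with rfl | rfl
  · simp
  · simp only [neg_mul, one_mul, Real.sin_neg, Real.cos_neg]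
    ring

/-- **SYM.** symmetries of the T-B system -/
theorem isSol_tr_pr {x : ℝ → St} {T : ℝ} (hx : IsSol x T) {c : ℝ} (hc : c = 1 ∨ c = -1) (n : ℤ) :
    IsSol (fun s => tr c n (x s)) T := by
  intro t ht
  obtain ⟨h1, h2, h3, h4⟩ := hx t ht
  refine ⟨?_, ?_, ?_, ?_⟩
  · exact h1.const_mul c
  · exact (h2.const_mul c).add_const (Real.pi * n)
  · have := h3.const_mul c
    rw [← ec_sym_Fp _ _ _ hc n] at this
    exact this
  · have := h4.const_mul c
    rw [← ec_sym_Fq _ _ _ hc n] at this
    exact this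

theorem ec_sym_glue {f g f' g' : ℝ → ℝ} {T T' s : ℝ} (hT : 0 ≤ T) (hT' : 0 ≤ T')
    (hf : ∀ t ∈ Icc 0 T, HasDerivAt f (f' t) t)
    (hg : ∀ t ∈ Icc 0 T', HasDerivAt g (g' t) t) (h : g 0 = f T) (h' : g' 0 = f' T)
    (hs : s ∈ Icc 0 (T + T')) :
    HasDerivAt (fun s => if s ≤ T then f s else g (s - T))
      (if s ≤ T then f' s else g' (s - T)) s := by
  rcases lt_trichotomy s T with hlt | heq | hgt
  · rw [if_pos hlt.le]
    refine (hf s ⟨hs.1, hlt.le⟩).congr_of_eventuallyEq ?_
    filter_upwards [Iio_mem_nhds hlt] with r hr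
    rw [if_pos (le_of_lt hr)]
  · subst heq
    rw [if_pos le_rfl]
    have hl : HasDerivWithinAt (fun r => if r ≤ s then f r else g (r - s)) (f' s) (Iic s) s := by
      refine ((hf s ⟨hs.1, le_rfl⟩).hasDerivWithinAt).congr ?_ ?_
      · intro r hr
        show (if r ≤ s then f r else g (r - s)) = f r
        rw [if_pos (mem_Iic.mp hr)]
      · show (if s ≤ s then f s else g (s - s)) = f s
        rw [if_pos le_rfl]
    have hr : HasDerivWithinAt (fun r => if r ≤ s then f r else g (r - s)) (f' s) (Ici s) s := by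
      have h1 : HasDerivAt (fun r => g (r - s)) (g' 0) s := by
        have h2 : HasDerivAt g (g' 0) (s - s) := by
          rw [sub_self]
          exact hg 0 ⟨le_rfl, hT'⟩
        exact h2.comp_sub_const s s
      rw [h'] at h1
      refine (h1.hasDerivWithinAt).congr ?_ ?_
      · intro r hr
        show (if r ≤ s then f r else g (r - s)) = g (r - s)
        rcases eq_or_lt_of_le (mem_Ici.mp hr) with h3 | h3
        · subst h3
          rw [if_pos le_rfl, sub_self, h]
        · rw [if_neg (not_le.mpr h3)]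
      · show (if s ≤ s then f s else g (s - s)) = g (s - s)
        rw [if_pos le_rfl, sub_self, h]
    have := hl.union hr
    rw [Iic_union_Ici] at this
    exact hasDerivWithinAt_univ.mp this
  · rw [if_neg (not_le.mpr hgt)]
    have h1 : HasDerivAt (fun r => g (r - T)) (g' (s - T)) s :=
      (hg (s - T) ⟨by linarith, by linarith [hs.2]⟩).comp_sub_const s T
    refine h1.congr_of_eventuallyEq ?_
    filter_upwards [Ioi_mem_nhds hgt] with r hr
    rw [if_neg (not_le.mpr hr)]

/-- **SYM.** gluing of T-B solutions -/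
theorem isSol_glue_pr {x x' : ℝ → St} {T T' : ℝ} (hT : 0 ≤ T) (hT' : 0 ≤ T') (hx : IsSol x T)
    (hx' : IsSol x' T') (h : x' 0 = x T) :
    IsSol (fun s => if s ≤ T then x s else x' (s - T)) (T + T') := by
  intro s hs
  refine ⟨?_, ?_, ?_, ?_⟩
  · have := ec_sym_glue (f := fun s => (x s).xi) (g := fun s => (x' s).xi)
      (f' := fun s => (x s).p) (g' := fun s => (x' s).p) hT hT' (fun t ht => (hx t ht).1)
      (fun t ht => (hx' t ht).1) (by simp only [h]) (by simp only [h]) hs
    convert this using 1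
    · funext r
      show (if r ≤ T then x r else x' (r - T)).xi = _
      split_ifs <;> rfl
    · show (if s ≤ T then x s else x' (s - T)).p = _
      split_ifs <;> rfl
  · have := ec_sym_glue (f := fun s => (x s).eta) (g := fun s => (x' s).eta)
      (f' := fun s => (x s).q) (g' := fun s => (x' s).q) hT hT' (fun t ht => (hx t ht).2.1)
      (fun t ht => (hx' t ht).2.1) (by simp only [h]) (by simp only [h]) hs
    convert this using 1
    · funext r
      show (if r ≤ T then x r else x' (r - T)).eta = _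
      split_ifs <;> rfl
    · show (if s ≤ T then x s else x' (s - T)).q = _
      split_ifs <;> rfl
  · have := ec_sym_glue (f := fun s => (x s).p) (g := fun s => (x' s).p)
      (f' := fun s => Fp (x s).xi (x s).eta (x s).q)
      (g' := fun s => Fp (x' s).xi (x' s).eta (x' s).q) hT hT' (fun t ht => (hx t ht).2.2.1)
      (fun t ht => (hx' t ht).2.2.1) (by simp only [h]) (by simp only [h]) hs
    convert this using 1
    · funext r
      show (if r ≤ T then x r else x' (r - T)).p = _
      split_ifs <;> rfl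
    · show Fp (if s ≤ T then x s else x' (s - T)).xi (if s ≤ T then x s else x' (s - T)).eta
        (if s ≤ T then x s else x' (s - T)).q = _
      split_ifs <;> rfl
  · have := ec_sym_glue (f := fun s => (x s).q) (g := fun s => (x' s).q)
      (f' := fun s => Fq (x s).xi (x s).eta (x s).p)
      (g' := fun s => Fq (x' s).xi (x' s).eta (x' s).p) hT hT' (fun t ht => (hx t ht).2.2.2)
      (fun t ht => (hx' t ht).2.2.2) (by simp only [h]) (by simp only [h]) hs
    convert this using 1
    · funext r
      show (if r ≤ T then x r else x' (r - T)).q = _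
      split_ifs <;> rfl
    · show Fq (if s ≤ T then x s else x' (s - T)).xi (if s ≤ T then x s else x' (s - T)).eta
        (if s ≤ T then x s else x' (s - T)).p = _
      split_ifs <;> rfl

end Pool.Agent.Ecl
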