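import Pool.Agent.Lib_helper34.Ecl.Defs

/-!
# EC3, block TB0: Thiele–Burrau solutions are solutions of the global system with `e = 0`
-/

set_option autoImplicit false

namespace Pool.Agent.Ecl

open Set Complex Filter Topology

private theorem ec_tb0_zS (y : St) : zS y = (y.xi : ℂ) + (y.eta : ℂ) * I := by
  apply Complex.ext <;> simp [zS]

private theorem ec_tb0_vS (y : St) : vS y = (y.p : ℂ) + (y.q : ℂ) * I := by
  apply Complex.ext <;> simp [vS]

private theorem ec_tb0_hcosh {f : ℝ → ℂ} {f' : ℂ} {t : ℝ} (h : HasDerivAt f f' t) :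
    HasDerivAt (fun s => cosh (f s)) (sinh (f t) * f') t :=
  HasDerivAt.comp t (Complex.hasDerivAt_cosh (f t)) h

private theorem ec_tb0_hsinh {f : ℝ → ℂ} {f' : ℂ} {t : ℝ} (h : HasDerivAt f f' t) :
    HasDerivAt (fun s => sinh (f s)) (cosh (f t) * f') t :=
  HasDerivAt.comp t (Complex.hasDerivAt_sinh (f t)) h

private theorem ec_tb0_hexp {f : ℝ → ℂ} {f' : ℂ} {t : ℝ} (h : HasDerivAt f f' t) :
    HasDerivAt (fun s => exp (f s)) (exp (f t) * f') t :=
  HasDerivAt.comp t (Complex.hasDerivAt_exp (f t)) h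

private theorem ec_tb0_hcj {f : ℝ → ℂ} {f' : ℂ} {t : ℝ} (h : HasDerivAt f f' t) :
    HasDerivAt (fun s => cj (f s)) (cj f') t := h.star

private theorem ec_tb0_sinh (y : St) : sinh (zS y) =
    ⟨Real.sinh y.xi * Real.cos y.eta, Real.cosh y.xi * Real.sin y.eta⟩ := by
  rw [ec_tb0_zS, Complex.sinh_add, Complex.cosh_mul_I, Complex.sinh_mul_I]
  rw [← Complex.ofReal_sinh, ← Complex.ofReal_cosh, ← Complex.ofReal_sin,
    ← Complex.ofReal_cos]
  apply Complex.ext
  · simp only [add_re, mul_re, mul_im, ofReal_re, ofReal_im, I_re, I_im]; ring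
  · simp only [add_im, mul_re, mul_im, ofReal_re, ofReal_im, I_re, I_im]; ring

private theorem ec_tb0_cosh (y : St) : cosh (zS y) =
    ⟨Real.cosh y.xi * Real.cos y.eta, Real.sinh y.xi * Real.sin y.eta⟩ := by
  rw [ec_tb0_zS, Complex.cosh_add, Complex.cosh_mul_I, Complex.sinh_mul_I]
  rw [← Complex.ofReal_sinh, ← Complex.ofReal_cosh, ← Complex.ofReal_sin,
    ← Complex.ofReal_cos]
  apply Complex.ext
  · simp only [add_re, mul_re, mul_im, ofReal_re, ofReal_im, I_re, I_im]; ring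
  · simp only [add_im, mul_re, mul_im, ofReal_re, ofReal_im, I_re, I_im]; ring

private theorem ec_tb0_ch {a b : ℝ} (h : a ^ 2 = b ^ 2 + 1) : a * a = b * b + 1 := by
  nlinarith

/-- `sinh ζ · conj (cosh ζ) = sinh ξ cosh ξ + i sin η cos η` -/
private theorem ec_tb0_sc (y : St) : sinh (zS y) * cj (cosh (zS y)) =
    ⟨Real.sinh y.xi * Real.cosh y.xi, Real.sin y.eta * Real.cos y.eta⟩ := by
  rw [ec_tb0_sinh, ec_tb0_cosh]
  have h1 := Real.cosh_sq y.xi
  have h2 := Real.sin_sq_add_cos_sq y.eta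
  apply Complex.ext
  · simp only [mul_re, conj_re, conj_im]
    linear_combination (Real.sinh y.xi * Real.cosh y.xi) * h2
  · simp only [mul_im, conj_re, conj_im]
    linear_combination (Real.sin y.eta * Real.cos y.eta) * h1

/-- `|sinh ζ|² = 4 J` -/
private theorem ec_tb0_ns (y : St) : normSq (sinh (zS y)) = 4 * JJ y.xi y.eta := by
  rw [ec_tb0_sinh, normSq_mk, JJ]
  have h1 := Real.cosh_sq y.xi
  have h2 := Real.sin_sq_add_cos_sq y.eta
  linear_combination (Real.cosh y.xi ^ 2) * h2 - (Real.cos y.eta ^ 2) * h1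

/-- `|cosh ζ|² = cosh² ξ + cos² η - 1` -/
private theorem ec_tb0_nc (y : St) : normSq (cosh (zS y))
    = Real.cosh y.xi ^ 2 + Real.cos y.eta ^ 2 - 1 := by
  rw [ec_tb0_cosh, normSq_mk]
  have h1 := Real.cosh_sq y.xi
  have h2 := Real.sin_sq_add_cos_sq y.eta
  linear_combination (Real.sinh y.xi ^ 2) * h2 + (Real.cos y.eta ^ 2 - 1) * h1

/-- the equation of motion in complex form -/
private theorem ec_tb0_eq (y : St) :
    (⟨Fp y.xi y.eta y.q, Fq y.xi y.eta y.p⟩ : ℂ) =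
      -(7 / 10) * (sinh (zS y) * cj (cosh (zS y)))
        - I / 2 * ((normSq (sinh (zS y)) : ℝ) : ℂ) * vS y
        + 1 / 16 * (((normSq (sinh (zS y)) : ℝ) : ℂ) * cj (sinh (zS y) * cj (cosh (zS y)))
          + ((normSq (cosh (zS y)) : ℝ) : ℂ) * (sinh (zS y) * cj (cosh (zS y))))
        + ((Real.sinh y.xi / 2 : ℝ) : ℂ) := by
  rw [ec_tb0_ns, ec_tb0_nc, ec_tb0_sc, ec_tb0_vS]
  have e1 : (-(7 / 10) : ℂ) = ((-(7 / 10) : ℝ) : ℂ) := by push_cast; ring
  have e2 : (I / 2 : ℂ) = ((1 / 2 : ℝ) : ℂ) * I := by push_cast; ring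
  have e3 : (1 / 16 : ℂ) = ((1 / 16 : ℝ) : ℂ) := by push_cast; ring
  rw [e1, e2, e3]
  unfold Fp Fq JJ CJ
  apply Complex.ext
  · simp only [add_re, sub_re, mul_re, mul_im, add_im, conj_re, conj_im, ofReal_re, ofReal_im,
      I_re, I_im]
    ring
  · simp only [add_re, sub_im, mul_re, mul_im, add_im, conj_re, conj_im, ofReal_re,
      ofReal_im, I_re, I_im]
    ring

/-- the lifted state -/
private noncomputable def ec_tb0_X (y : St) (u : ℂ) (τ : ℝ) : E7 :=
  (u, I / 4 * u, zS y, vS y + I / 4 * (cosh (zS y) * cj (sinh (zS y))), 7 / 5, τ, 0)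

private theorem ec_tb0_cJ (y : St) {u : ℂ} (hu : normSq u = 1) (τ : ℝ) :
    cJ (ec_tb0_X y u τ) = JJ y.xi y.eta := by
  simp only [cJ, cu, cw, ec_tb0_X, hu, ec_tb0_ns]
  ring

private theorem ec_tb0_Fu (y : St) {u : ℂ} (hu : normSq u = 1) (τ : ℝ) :
    Fu (ec_tb0_X y u τ) = u * ((JJ y.xi y.eta : ℝ) * I) := by
  rw [Fu, ec_tb0_cJ y hu]
  simp only [cS, ce, ec_tb0_X, ofReal_zero]
  ring

private theorem ec_tb0_norm {u : ℂ} (hu : normSq u = 1) : ‖u‖ = 1 := by
  rw [normSq_eq_norm_sq] at hu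
  nlinarith [norm_nonneg u]

private theorem ec_tb0_FS (y : St) {u : ℂ} (hu : normSq u = 1) (τ : ℝ) :
    FS (ec_tb0_X y u τ) = I / 4 * (u * ((JJ y.xi y.eta : ℝ) * I)) := by
  rw [FS, ec_tb0_cJ y hu]
  simp only [cS, cu, cw, cv, cg, ce, ec_tb0_X, ofReal_zero, ec_tb0_norm hu]
  push_cast
  linear_combination (-(JJ y.xi y.eta : ℂ) * u / 4) * I_sq

private theorem ec_tb0_uu {u : ℂ} (hu : normSq u = 1) : u * cj u = 1 := by
  rw [mul_conj, hu, ofReal_one]

private theorem ec_tb0_cjS {u : ℂ} : cj (I / 4 * u) = -(I / 4) * cj u := by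
  have h4 : cj (4 : ℂ) = 4 := by
    have := Complex.conj_ofReal 4
    push_cast at this
    exact this
  simp only [cj, map_mul, map_div₀, conj_I] at h4 ⊢
  rw [h4]
  ring

private theorem ec_tb0_Fw (y : St) {u : ℂ} (hu : normSq u = 1) (τ : ℝ) :
    Fw (ec_tb0_X y u τ) = vS y := by
  have h := ec_tb0_uu hu
  simp only [Fw, cS, cu, cw, cv, ce, ec_tb0_X]
  push_cast
  linear_combination (-(I / 4) * (cosh (zS y) * cj (sinh (zS y)))) * h

private theorem ec_tb0_Fv (y : St) {u : ℂ} (hu : normSq u = 1) (τ : ℝ) :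
    Fv (ec_tb0_X y u τ) = (⟨Fp y.xi y.eta y.q, Fq y.xi y.eta y.p⟩ : ℂ)
      + I / 4 * (sinh (zS y) * vS y * cj (sinh (zS y))
        + cosh (zS y) * cj (cosh (zS y) * vS y)) := by
  have h := ec_tb0_uu hu
  have hs : ((normSq (sinh (zS y)) : ℝ) : ℂ) = sinh (zS y) * cj (sinh (zS y)) := by
    rw [mul_conj]
  have hc : ((normSq (cosh (zS y)) : ℝ) : ℂ) = cosh (zS y) * cj (cosh (zS y)) := by
    rw [mul_conj]
  have hxi : (zS y).re = y.xi := rfl
  rw [ec_tb0_eq]
  simp only [Fv, cS, cu, cw, cv, cg, ce, ec_tb0_X, ec_tb0_norm hu, hu, ec_tb0_cjS, hs, hc, hxi]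
  have h4 : cj (I / 4) = -(I / 4) := by
    have := @ec_tb0_cjS 1
    simpa using this
  simp only [cj, map_mul, map_add, conj_conj] at h h4 ⊢
  rw [h4]
  push_cast
  generalize sinh (zS y) = a
  generalize cosh (zS y) = b
  generalize vS y = V
  linear_combination (-(I / 4) * (V + I / 4 * (b * (starRingEnd ℂ) a)) * (a * (starRingEnd ℂ) a)
      + I / 4 * ((starRingEnd ℂ) V - I / 4 * ((starRingEnd ℂ) b * a)) * (b * (starRingEnd ℂ) b)) * h
    - (1 / 16) * (a * (starRingEnd ℂ) a * (starRingEnd ℂ) a * b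
      + a * b * (starRingEnd ℂ) b * (starRingEnd ℂ) b) * I_sq

private theorem ec_tb0_Fg (y : St) {u : ℂ} (hu : normSq u = 1) (τ : ℝ) :
    Fg (ec_tb0_X y u τ) = 0 := by
  have h := ec_tb0_uu hu
  have h1 : (cj (I / 4 * u) * u).re = 0 := by
    rw [ec_tb0_cjS]
    have : -(I / 4) * cj u * u = -(I / 4) := by linear_combination (-(I / 4)) * h
    rw [this]
    simp
  have h2 : normSq (I / 4 * u) = 1 / 16 := by
    rw [normSq_mul, hu, normSq_div, normSq_I]
    have : normSq (4 : ℂ) = 16 := by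
      have := normSq_ofReal 4
      push_cast at this
      rw [this]; norm_num
    rw [this]; norm_num
  simp only [Fg, cS, cu, cw, cv, cg, ec_tb0_X, ec_tb0_norm hu, h1, h2]
  ring

/-- **TB0.** T-B solutions are solutions of the global system with `e = 0` -/
theorem tb_lift_pr {x : ℝ → St} {T : ℝ} (hT : 0 ≤ T) (hx : IsSol x T) :
    ∃ γ : ℝ → E7, SolOn VF UU γ T ∧
      γ 0 = (1, I / 4, zS (x 0), vS (x 0) + I / 4 * (cosh (zS (x 0)) * cj (sinh (zS (x 0)))),
        7 / 5, 0, 0) ∧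
      ∀ t ∈ Icc 0 T, cw (γ t) = zS (x t) ∧ Fw (γ t) = vS (x t) := by
  -- the clamped integrand
  set cl : ℝ → ℝ := fun r => max 0 (min r T) with hcl
  have hclm : ∀ r, cl r ∈ Icc 0 T := fun r => ⟨le_max_left _ _, max_le hT (min_le_right _ _)⟩
  have hcle : ∀ r ∈ Icc 0 T, cl r = r := by
    intro r hr
    simp only [hcl, min_eq_left hr.2, max_eq_right hr.1]
  have hclc : Continuous cl := by fun_prop
  have cxi : ContinuousOn (fun s => (x s).xi) (Icc 0 T) := fun t ht =>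
    (hx t ht).1.continuousAt.continuousWithinAt
  have ceta : ContinuousOn (fun s => (x s).eta) (Icc 0 T) := fun t ht =>
    (hx t ht).2.1.continuousAt.continuousWithinAt
  have cxi' : Continuous (fun s => (x (cl s)).xi) := cxi.comp_continuous hclc hclm
  have ceta' : Continuous (fun s => (x (cl s)).eta) := ceta.comp_continuous hclc hclm
  have cJJ : Continuous (fun s => JJ (x (cl s)).xi (x (cl s)).eta) := by
    unfold JJ
    fun_prop
  set τ : ℝ → ℝ := fun s => ∫ r in (0 : ℝ)..s, JJ (x (cl r)).xi (x (cl r)).eta with hτ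
  have hτd : ∀ t ∈ Icc 0 T, HasDerivAt τ (JJ (x t).xi (x t).eta) t := by
    intro t ht
    have := (cJJ.integral_hasStrictDerivAt 0 t).hasDerivAt
    rw [hcle t ht] at this
    exact this
  set u : ℝ → ℂ := fun s => exp ((τ s : ℂ) * I) with hu
  have hu1 : ∀ s, normSq (u s) = 1 := by
    intro s
    rw [normSq_eq_norm_sq, hu]
    simp [Complex.norm_exp_ofReal_mul_I]
  have hud : ∀ t ∈ Icc 0 T, HasDerivAt u (u t * ((JJ (x t).xi (x t).eta : ℝ) * I)) t := by
    intro t ht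
    exact ec_tb0_hexp ((hτd t ht).ofReal_comp.mul_const I)
  have hz : ∀ t ∈ Icc 0 T, HasDerivAt (fun s => zS (x s)) (vS (x t)) t := by
    intro t ht
    obtain ⟨h1, h2, -, -⟩ := hx t ht
    have := h1.ofReal_comp.add (h2.ofReal_comp.mul_const I)
    rw [ec_tb0_vS]
    refine this.congr_of_eventuallyEq ?_
    exact Eventually.of_forall fun s => ec_tb0_zS (x s)
  have hv : ∀ t ∈ Icc 0 T, HasDerivAt (fun s => vS (x s))
      (⟨Fp (x t).xi (x t).eta (x t).q, Fq (x t).xi (x t).eta (x t).p⟩ : ℂ) t := by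
    intro t ht
    obtain ⟨-, -, h1, h2⟩ := hx t ht
    have := h1.ofReal_comp.add (h2.ofReal_comp.mul_const I)
    have h3 : (⟨Fp (x t).xi (x t).eta (x t).q, Fq (x t).xi (x t).eta (x t).p⟩ : ℂ)
        = (Fp (x t).xi (x t).eta (x t).q : ℂ) + (Fq (x t).xi (x t).eta (x t).p : ℂ) * I := by
      apply Complex.ext <;> simp
    rw [h3]
    refine this.congr_of_eventuallyEq ?_
    exact Eventually.of_forall fun s => ec_tb0_vS (x s)
  refine ⟨fun s => ec_tb0_X (x s) (u s) (τ s), ?_, ?_, ?_⟩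
  · intro t ht
    constructor
    · have hzt := hz t ht
      have hvt := hv t ht
      have hut := hud t ht
      have hS : HasDerivAt (fun s => I / 4 * u s)
          (I / 4 * (u t * ((JJ (x t).xi (x t).eta : ℝ) * I))) t := hut.const_mul _
      have hV : HasDerivAt
          (fun s => vS (x s) + I / 4 * (cosh (zS (x s)) * cj (sinh (zS (x s)))))
          ((⟨Fp (x t).xi (x t).eta (x t).q, Fq (x t).xi (x t).eta (x t).p⟩ : ℂ)
            + I / 4 * (sinh (zS (x t)) * vS (x t) * cj (sinh (zS (x t)))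
              + cosh (zS (x t)) * cj (cosh (zS (x t)) * vS (x t)))) t :=
        hvt.add (((ec_tb0_hcosh hzt).mul (ec_tb0_hcj (ec_tb0_hsinh hzt))).const_mul _)
      have := hut.prodMk (hS.prodMk (hzt.prodMk (hV.prodMk
        ((hasDerivAt_const t (7 / 5 : ℝ)).prodMk ((hτd t ht).prodMk
          (hasDerivAt_const t (0 : ℝ)))))))
      show HasDerivAt _ (VF (ec_tb0_X (x t) (u t) (τ t))) t
      rw [VF, ec_tb0_Fu _ (hu1 t), ec_tb0_FS _ (hu1 t), ec_tb0_Fw _ (hu1 t),
        ec_tb0_Fv _ (hu1 t), ec_tb0_Fg _ (hu1 t), ec_tb0_cJ _ (hu1 t)]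
      exact this
    · show u t ≠ 0
      exact exp_ne_zero _
  · have h0 : τ 0 = 0 := by simp [hτ]
    have hu0 : u 0 = 1 := by simp [hu, h0]
    simp only [ec_tb0_X, h0, hu0, mul_one]
  · intro t ht
    exact ⟨rfl, ec_tb0_Fw _ (hu1 t) _⟩

end Pool.Agent.Ecl
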