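import Pool.Agent.Lib_helper34.Ecl.Defs

set_option autoImplicit false

namespace Pool.Agent.Ecl

open Set Filter Topology

theorem time_change_pr {t J : ℝ → ℝ} {S : ℝ} (hS : 0 < S)
    (ht : ∀ s ∈ Icc 0 S, HasDerivAt t (J s) s) (hJ : ∀ s ∈ Ioo 0 S, 0 < J s) :
    ∃ σ : ℝ → ℝ, (∀ τ ∈ Ioo (t 0) (t S), σ τ ∈ Ioo 0 S ∧ t (σ τ) = τ ∧
        HasDerivAt σ (J (σ τ))⁻¹ τ) ∧
      (∀ s ∈ Ioo 0 S, t s ∈ Ioo (t 0) (t S) ∧ σ (t s) = s) ∧
      StrictMonoOn t (Icc 0 S) ∧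
      Tendsto σ (𝓝[>] (t 0)) (𝓝 0) ∧ Tendsto σ (𝓝[<] (t S)) (𝓝 S) := by
  classical
  have hcont : ContinuousOn t (Icc 0 S) := fun s hs => (ht s hs).continuousAt.continuousWithinAt
  have hmono : StrictMonoOn t (Icc 0 S) := by
    apply strictMonoOn_of_deriv_pos (convex_Icc 0 S) hcont
    intro s hs
    rw [interior_Icc] at hs
    rw [(ht s ⟨hs.1.le, hs.2.le⟩).deriv]
    exact hJ s hs
  have hex : ∀ τ ∈ Ioo (t 0) (t S), ∃ s ∈ Ioo 0 S, t s = τ := by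
    intro τ hτ
    obtain ⟨s, hs, hst⟩ := intermediate_value_Ioo hS.le hcont hτ
    exact ⟨s, hs, hst⟩
  set σ : ℝ → ℝ := fun τ => if h : ∃ s ∈ Ioo 0 S, t s = τ then h.choose else 0 with hσ
  have hσ1 : ∀ τ ∈ Ioo (t 0) (t S), σ τ ∈ Ioo 0 S ∧ t (σ τ) = τ := by
    intro τ hτ
    have h := hex τ hτ
    simp only [hσ]
    rw [dif_pos h]
    exact h.choose_spec
  have himg : ∀ s ∈ Ioo 0 S, t s ∈ Ioo (t 0) (t S) := fun s hs =>
    ⟨hmono ⟨le_refl _, hS.le⟩ ⟨hs.1.le, hs.2.le⟩ hs.1,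
      hmono ⟨hs.1.le, hs.2.le⟩ ⟨hS.le, le_refl _⟩ hs.2⟩
  have hσ2 : ∀ s ∈ Ioo 0 S, σ (t s) = s := by
    intro s hs
    obtain ⟨h1, h2⟩ := hσ1 (t s) (himg s hs)
    exact hmono.injOn ⟨h1.1.le, h1.2.le⟩ ⟨hs.1.le, hs.2.le⟩ h2
  -- order facts
  have hlt : ∀ s ∈ Ioo 0 S, ∀ τ ∈ Ioo (t 0) (t S), t s < τ → s < σ τ := by
    intro s hs τ hτ h
    obtain ⟨h1, h2⟩ := hσ1 τ hτ
    by_contra hcon
    push Not at hcon
    have := hmono.monotoneOn ⟨h1.1.le, h1.2.le⟩ ⟨hs.1.le, hs.2.le⟩ hcon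
    rw [h2] at this
    linarith
  have hgt : ∀ s ∈ Ioo 0 S, ∀ τ ∈ Ioo (t 0) (t S), τ < t s → σ τ < s := by
    intro s hs τ hτ h
    obtain ⟨h1, h2⟩ := hσ1 τ hτ
    by_contra hcon
    push Not at hcon
    have := hmono.monotoneOn ⟨hs.1.le, hs.2.le⟩ ⟨h1.1.le, h1.2.le⟩ hcon
    rw [h2] at this
    linarith
  have h0S : t 0 < t S := hmono ⟨le_refl _, hS.le⟩ ⟨hS.le, le_refl _⟩ hS
  refine ⟨σ, ?_, ?_, hmono, ?_, ?_⟩
  · intro τ hτ
    obtain ⟨h1, h2⟩ := hσ1 τ hτ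
    refine ⟨h1, h2, ?_⟩
    have hnh : Ioo (t 0) (t S) ∈ 𝓝 τ := Ioo_mem_nhds hτ.1 hτ.2
    have hc : ContinuousAt σ τ := by
      apply tendsto_order.2
      constructor
      · intro a ha
        obtain ⟨s, hs1, hs2⟩ := exists_between (max_lt ha h1.1)
        have hs : s ∈ Ioo 0 S := ⟨(le_max_right _ _).trans_lt hs1, hs2.trans h1.2⟩
        have h3 : t s < τ := by
          rw [← h2]; exact hmono ⟨hs.1.le, hs.2.le⟩ ⟨h1.1.le, h1.2.le⟩ hs2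
        filter_upwards [hnh, lt_mem_nhds h3] with τ' hτ' h4
        exact lt_of_le_of_lt (le_max_left _ _) (hs1.trans (hlt s hs τ' hτ' h4))
      · intro a ha
        obtain ⟨s, hs1, hs2⟩ := exists_between (lt_min ha h1.2)
        have hs : s ∈ Ioo 0 S := ⟨h1.1.trans hs1, hs2.trans_le (min_le_right _ _)⟩
        have h3 : τ < t s := by
          rw [← h2]; exact hmono ⟨h1.1.le, h1.2.le⟩ ⟨hs.1.le, hs.2.le⟩ hs1
        filter_upwards [hnh, gt_mem_nhds h3] with τ' hτ' h4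
        exact lt_of_lt_of_le ((hgt s hs τ' hτ' h4).trans hs2) (min_le_left _ _)
    apply HasDerivAt.of_local_left_inverse hc (ht _ ⟨h1.1.le, h1.2.le⟩) (hJ _ h1).ne'
    filter_upwards [hnh] with τ' hτ'
    exact (hσ1 τ' hτ').2
  · intro s hs
    exact ⟨himg s hs, hσ2 s hs⟩
  · have hnh : Ioo (t 0) (t S) ∈ 𝓝[>] (t 0) := Ioo_mem_nhdsGT h0S
    apply tendsto_order.2
    constructor
    · intro a ha
      filter_upwards [hnh] with τ' hτ'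
      exact ha.trans (hσ1 τ' hτ').1.1
    · intro a ha
      obtain ⟨s, hs1, hs2⟩ := exists_between (lt_min ha hS)
      have hs : s ∈ Ioo 0 S := ⟨hs1, hs2.trans_le (min_le_right _ _)⟩
      have h3 : Iio (t s) ∈ 𝓝[>] (t 0) :=
        mem_nhdsWithin_of_mem_nhds (Iio_mem_nhds (himg s hs).1)
      filter_upwards [hnh, h3] with τ' hτ' h4
      exact lt_of_lt_of_le ((hgt s hs τ' hτ' h4).trans hs2) (min_le_left _ _)
  · have hnh : Ioo (t 0) (t S) ∈ 𝓝[<] (t S) := Ioo_mem_nhdsLT h0S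
    apply tendsto_order.2
    constructor
    · intro a ha
      obtain ⟨s, hs1, hs2⟩ := exists_between (max_lt ha hS)
      have hs : s ∈ Ioo 0 S := ⟨(le_max_right _ _).trans_lt hs1, hs2⟩
      have h3 : Ioi (t s) ∈ 𝓝[<] (t S) :=
        mem_nhdsWithin_of_mem_nhds (Ioi_mem_nhds (himg s hs).2)
      filter_upwards [hnh, h3] with τ' hτ' h4
      exact lt_of_le_of_lt (le_max_left _ _) (hs1.trans (hlt s hs τ' hτ' h4))
    · intro a ha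
      filter_upwards [hnh] with τ' hτ'
      exact (hσ1 τ' hτ').1.2.trans ha

end Pool.Agent.Ecl
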