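import Pool.Agent.Lib_helper34.Ecl.Defs
import Pool.Agent.Lib_helper34.EclF.TB0A
import Pool.Agent.Lib_helper34.EclF.UNRA

set_option autoImplicit false

namespace Pool.Agent.Ecl

open Set Complex Filter Topology

theorem track_pr {θ σ : ℝ} {r : List Ex} (h : Itin (eject θ) r σ) :
    ∃ (S : ℝ) (γ : ℝ → E7), 0 < S ∧ γ 0 = Xin θ 0 ∧ SolOn VF UU γ S ∧ TPat γ S r ∧
      (0 < σ → TEnd r.length .lft (γ S)) ∧ (σ < 0 → TEnd r.length .mid (γ S)) ∧
      (σ = 0 → CEnd r.length (γ S) ∧ CDir (γ S)) := by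
  obtain ⟨S, x, hS, hsol, hx0, hpat, h1, h2, h3⟩ :=
    unroll r (eject θ) σ 0 1 0 (Or.inl rfl) (by simp) h
  obtain ⟨γ, hγ, hγ0, hγx⟩ := tb_lift hS.le hsol
  have hZ : ∀ s ∈ Icc 0 S, Zt (γ s) = cosh (zS (x s)) := fun s hs => by
    unfold Zt; rw [(hγx s hs).1]
  have hdZ : ∀ s ∈ Icc 0 S, dZ (γ s) = sinh (zS (x s)) * vS (x s) := fun s hs => by
    unfold dZ; rw [(hγx s hs).1, (hγx s hs).2]
  have hTE : ∀ s ∈ Icc 0 S, ∀ k e, TEndS k e (x s) → TEnd k e (γ s) := by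
    intro s hs k e hk
    unfold TEndS at hk
    unfold TEnd
    rw [hZ s hs, hdZ s hs]
    exact hk
  have hSS : S ∈ Icc 0 S := ⟨hS.le, le_refl _⟩
  simp only [zero_add] at h1 h2 h3
  refine ⟨S, γ, hS, ?_, hγ, ?_, fun hs => hTE S hSS _ _ (h1 hs), fun hs => hTE S hSS _ _ (h2 hs),
    fun hs => ?_⟩
  · rw [hγ0, hx0]
    have e1 : zS (tr 1 0 (eject θ)) = 0 := by
      unfold zS tr eject
      apply Complex.ext <;> simp
    have e2 : vS (tr 1 0 (eject θ)) = exp (θ * I) := by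
      unfold vS tr eject
      rw [Complex.exp_mul_I, ← Complex.ofReal_cos, ← Complex.ofReal_sin]
      apply Complex.ext
      · simp
        exact (Complex.cos_ofReal_re θ).symm
      · simp
        exact (Complex.sin_ofReal_re θ).symm
    rw [e1, e2]
    unfold Xin
    simp
  · obtain ⟨τ, hm, hin, hall, hend⟩ := hpat
    refine ⟨τ, hm, hin, ?_, ?_⟩
    · intro s hs0 hsS hz
      rw [hZ s ⟨hs0.le, hsS.le⟩] at hz
      exact hall s hs0 hsS hz
    · intro i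
      have := hend i
      rw [zero_add] at this
      exact hTE _ ⟨(hin i).1.le, (hin i).2.le⟩ _ _ this
  · obtain ⟨h4, h5⟩ := h3 hs
    refine ⟨?_, ?_⟩
    · unfold CEnd
      rw [hZ S hSS]; exact h4
    · unfold CDir
      rw [(hγx S hSS).2]; exact h5

end Pool.Agent.Ecl
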