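import Pool.Agent.Lib_helper34.Ecl.Defs
import Pool.Agent.Lib_helper34.EclF.FLIA
import Pool.Agent.Lib_helper34.EclF.LSTA
import Pool.Agent.Lib_helper34.EclF.SYMA

set_option autoImplicit false

namespace Pool.Agent.Ecl

open Set Complex Filter Topology

theorem unroll_pr (r : List Ex) : ∀ (a : St) (σ : ℝ) (k : ℕ) (c : ℝ) (n : ℤ),
    (c = 1 ∨ c = -1) → (-1 : ℝ) ^ n = (-1) ^ k → Itin a r σ →
    ∃ (S : ℝ) (x : ℝ → St), 0 < S ∧ IsSol x S ∧ x 0 = tr c n a ∧ TPatS k x S r ∧
      (0 < σ → TEndS (k + r.length) .lft (x S)) ∧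
      (σ < 0 → TEndS (k + r.length) .mid (x S)) ∧
      (σ = 0 → cosh (zS (x S)) = (-1) ^ (k + r.length + 1) ∧ (vS (x S) ^ 2).im < 0) := by
  induction r with
  | nil =>
    intro a σ k c n hc hn h
    obtain ⟨S, x, hS, hsol, hx0, hno, h1, h2, h3⟩ := unroll_last k n hc hn h
    refine ⟨S, x, hS, hsol, hx0, ?_, h1, h2, h3⟩
    refine ⟨fun i => absurd i.2 (by simp), fun i => absurd i.2 (by simp),
      fun i => absurd i.2 (by simp), ?_, fun i => absurd i.2 (by simp)⟩
    intro s h4 h5 h6
    exact absurd h6 (hno s h4 h5)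
  | cons e r' ih =>
    intro a σ k c n hc hn h
    obtain ⟨y, hF, hI⟩ := h
    obtain ⟨⟨T, x1, hT, hsol1, hx10, hx1T, hno, hend1⟩, c', n', hc', hn', heq⟩ :=
      unroll_flight k n hc hn hF
    obtain ⟨S', x2, hS', hsol2, hx20, hpat2, h1, h2, h3⟩ := ih (rot e y) σ (k + 1) c' n' hc' hn' hI
    have hglue := isSol_glue hT.le hS'.le hsol1 hsol2 (by rw [hx20, heq, hx1T])
    set x : ℝ → St := fun s => if s ≤ T then x1 s else x2 (s - T) with hx
    have hxl : ∀ s, s ≤ T → x s = x1 s := fun s hs => if_pos hs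
    have hxr : ∀ s, T < s → x s = x2 (s - T) := fun s hs => if_neg (not_le.mpr hs)
    have hxS : x (T + S') = x2 S' := by
      rw [hxr _ (by linarith)]
      congr 1; ring
    have hk : k + (e :: r').length = k + 1 + r'.length := by
      rw [List.length_cons]; omega
    rw [hk]
    refine ⟨T + S', x, by linarith, hglue, ?_, ?_, ?_, ?_, ?_⟩
    · rw [hxl 0 hT.le, hx10]
    · obtain ⟨τ', hm', hin', hall', hend'⟩ := hpat2
      set τ : Fin (r'.length + 1) → ℝ := Fin.cons T (fun i => T + τ' i) with hτ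
      have hτ0 : τ 0 = T := rfl
      have hτs : ∀ i : Fin r'.length, τ i.succ = T + τ' i := fun i => rfl
      refine ⟨τ, ?_, ?_, ?_, ?_⟩
      · intro i j hij
        rcases Fin.eq_zero_or_eq_succ i with rfl | ⟨i', rfl⟩
        · rcases Fin.eq_zero_or_eq_succ j with rfl | ⟨j', rfl⟩
          · exact absurd hij (lt_irrefl _)
          · rw [hτ0, hτs]; linarith [(hin' j').1]
        · rcases Fin.eq_zero_or_eq_succ j with rfl | ⟨j', rfl⟩
          · exact absurd hij (Fin.not_lt_zero _)
          · rw [hτs, hτs]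
            have := hm' (Fin.succ_lt_succ_iff.mp hij)
            linarith
      · intro i
        rcases Fin.eq_zero_or_eq_succ i with rfl | ⟨i', rfl⟩
        · rw [hτ0]; exact ⟨hT, by linarith⟩
        · rw [hτs]
          have := hin' i'
          exact ⟨by linarith [this.1], by linarith [this.2]⟩
      · intro s hs0 hsS hz
        rcases lt_trichotomy s T with hlt | heqT | hgt
        · rw [hxl s hlt.le] at hz
          exact absurd hz (hno s hs0 hlt)
        · exact ⟨0, heqT.symm⟩
        · rw [hxr s hgt] at hz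
          obtain ⟨i, hi⟩ := hall' (s - T) (by linarith) (by linarith) hz
          refine ⟨i.succ, ?_⟩
          rw [hτs, hi]; ring
      · intro i
        rcases Fin.eq_zero_or_eq_succ i with rfl | ⟨i', rfl⟩
        · rw [hτ0, hxl T (le_refl _)]
          exact hend1
        · rw [hτs, hxr _ (by linarith [(hin' i').1]), show T + τ' i' - T = τ' i' by ring]
          have h5 := hend' i'
          have h6 : k + ((i'.succ : Fin (r'.length + 1)) : ℕ) = k + 1 + (i' : ℕ) := by
            rw [Fin.val_succ]; omega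
          have h7 : (e :: r').get i'.succ = r'.get i' := rfl
          rw [h7]
          show TEndS (k + ((i'.succ : Fin (r'.length + 1)) : ℕ)) (r'.get i') (x2 (τ' i'))
          rw [h6]; exact h5
    · intro hs; rw [hxS]; exact h1 hs
    · intro hs; rw [hxS]; exact h2 hs
    · intro hs; rw [hxS]; exact h3 hs

end Pool.Agent.Ecl
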