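import Pool.Agent.Lib_helper34.Ecl.Defs

/-! # Block VFC: the global regularised field is `C¹` -/

set_option autoImplicit false

namespace Pool.Agent.Ecl

open Set Complex Filter Topology

theorem ec_VFC_cu : ContDiff ℝ 1 cu := by unfold cu; fun_prop
theorem ec_VFC_cS : ContDiff ℝ 1 cS := by unfold cS; fun_prop
theorem ec_VFC_cw : ContDiff ℝ 1 cw := by unfold cw; fun_prop
theorem ec_VFC_cv : ContDiff ℝ 1 cv := by unfold cv; fun_prop
theorem ec_VFC_cg : ContDiff ℝ 1 cg := by unfold cg; fun_prop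
theorem ec_VFC_ct : ContDiff ℝ 1 ct := by unfold ct; fun_prop
theorem ec_VFC_ce : ContDiff ℝ 1 ce := by unfold ce; fun_prop

/-- **VFC.** -/
theorem isOpen_UU_pr : IsOpen UU := by
  have h : Continuous cu := ec_VFC_cu.continuous
  exact isOpen_ne_fun h continuous_const

theorem ec_VFC_cosh : ContDiff ℝ 1 (fun X => cosh (cw X)) :=
  (Complex.contDiff_cosh.restrict_scalars ℝ).comp ec_VFC_cw

theorem ec_VFC_sinh : ContDiff ℝ 1 (fun X => sinh (cw X)) :=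
  (Complex.contDiff_sinh.restrict_scalars ℝ).comp ec_VFC_cw

theorem ec_VFC_cj {f : E7 → ℂ} {s : Set E7} (hf : ContDiffOn ℝ 1 f s) :
    ContDiffOn ℝ 1 (fun X => cj (f X)) s :=
  Complex.conjCLE.contDiff.comp_contDiffOn hf

theorem ec_VFC_ofReal {f : E7 → ℝ} {s : Set E7} (hf : ContDiffOn ℝ 1 f s) :
    ContDiffOn ℝ 1 (fun X => (f X : ℂ)) s :=
  Complex.ofRealCLM.contDiff.comp_contDiffOn hf

theorem ec_VFC_re {f : E7 → ℂ} {s : Set E7} (hf : ContDiffOn ℝ 1 f s) :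
    ContDiffOn ℝ 1 (fun X => (f X).re) s :=
  Complex.reCLM.contDiff.comp_contDiffOn hf

theorem ec_VFC_im {f : E7 → ℂ} {s : Set E7} (hf : ContDiffOn ℝ 1 f s) :
    ContDiffOn ℝ 1 (fun X => (f X).im) s :=
  Complex.imCLM.contDiff.comp_contDiffOn hf

theorem ec_VFC_normSq {f : E7 → ℂ} {s : Set E7} (hf : ContDiffOn ℝ 1 f s) :
    ContDiffOn ℝ 1 (fun X => normSq (f X)) s := by
  simp only [normSq_apply]
  exact ((ec_VFC_re hf).mul (ec_VFC_re hf)).add ((ec_VFC_im hf).mul (ec_VFC_im hf))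

theorem ec_VFC_norm : ContDiffOn ℝ 1 (fun X => ‖cu X‖) UU := by
  intro X hX
  exact ((contDiffAt_norm ℝ hX).comp X ec_VFC_cu.contDiffAt).contDiffWithinAt

theorem ec_VFC_norm_ne {X : E7} (hX : X ∈ UU) : ‖cu X‖ ≠ 0 := norm_ne_zero_iff.2 hX

theorem ec_VFC_coshre : ContDiff ℝ 1 (fun X => Real.cosh (cw X).re) :=
  Real.contDiff_cosh.comp (Complex.reCLM.contDiff.comp ec_VFC_cw)

theorem ec_VFC_sinhre : ContDiff ℝ 1 (fun X => Real.sinh (cw X).re) :=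
  Real.contDiff_sinh.comp (Complex.reCLM.contDiff.comp ec_VFC_cw)

theorem ec_VFC_cJ : ContDiffOn ℝ 1 cJ UU := by
  unfold cJ
  exact ((ec_VFC_normSq ec_VFC_cu.contDiffOn).mul
    (ec_VFC_normSq ec_VFC_sinh.contDiffOn)).div_const 4

theorem ec_VFC_Fu : ContDiffOn ℝ 1 Fu UU := by
  unfold Fu
  exact ((contDiffOn_const.mul (ec_VFC_ofReal ec_VFC_cJ)).mul ec_VFC_cS.contDiffOn).sub
    (((((ec_VFC_ofReal ec_VFC_ce.contDiffOn).mul (ec_VFC_cj ec_VFC_cosh.contDiffOn)).mul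
      ec_VFC_sinh.contDiffOn).mul ec_VFC_cu.contDiffOn).mul ec_VFC_cv.contDiffOn)

theorem ec_VFC_FS : ContDiffOn ℝ 1 FS UU := by
  unfold FS
  refine ((ContDiffOn.sub ?_ ?_).add ?_).add ?_
  · refine ((ec_VFC_ofReal ?_).neg).mul ec_VFC_cu.contDiffOn
    exact ec_VFC_cJ.div (contDiffOn_const.mul (ec_VFC_norm.pow 3))
      (fun X hX => mul_ne_zero four_ne_zero (pow_ne_zero _ (ec_VFC_norm_ne hX)))
  · refine (ec_VFC_ofReal ?_).mul ec_VFC_cu.contDiffOn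
    exact ((ec_VFC_ce.contDiffOn.mul ec_VFC_cg.contDiffOn).mul
      (ec_VFC_normSq ec_VFC_sinh.contDiffOn)).div_const 2
  · exact (ec_VFC_ofReal ec_VFC_ce.contDiffOn).mul (((ec_VFC_cS.contDiffOn.mul
      ec_VFC_cosh.contDiffOn).mul (ec_VFC_cj ec_VFC_sinh.contDiffOn)).mul
        (ec_VFC_cj ec_VFC_cv.contDiffOn))
  · refine (ec_VFC_ofReal ?_).mul ec_VFC_cu.contDiffOn
    exact ((ec_VFC_ce.contDiffOn.div_const 2).mul ec_VFC_coshre.contDiffOn).div ec_VFC_norm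
      (fun X hX => ec_VFC_norm_ne hX)

theorem ec_VFC_Fw : ContDiffOn ℝ 1 Fw UU := by
  unfold Fw
  refine ContDiffOn.add ?_ ?_
  · exact (((ec_VFC_cS.contDiffOn.mul ec_VFC_cosh.contDiffOn).mul
      (ec_VFC_cj ec_VFC_sinh.contDiffOn)).mul (ec_VFC_cj ec_VFC_cu.contDiffOn)).neg
  · refine (ec_VFC_ofReal ?_).mul ec_VFC_cv.contDiffOn
    exact (contDiffOn_const.add ec_VFC_ce.contDiffOn).add
      (ec_VFC_ce.contDiffOn.mul (ec_VFC_normSq ec_VFC_cosh.contDiffOn))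

theorem ec_VFC_Fv : ContDiffOn ℝ 1 Fv UU := by
  unfold Fv
  refine ((((ContDiffOn.add ?_ ?_).add ?_).sub ?_).add ?_)
  · refine ((ec_VFC_ofReal ?_).neg).mul (ec_VFC_sinh.contDiffOn.mul
      (ec_VFC_cj ec_VFC_cosh.contDiffOn))
    exact (ec_VFC_cg.contDiffOn.mul (ec_VFC_normSq ec_VFC_cu.contDiffOn)).div_const 2
  · exact (((ec_VFC_cj ec_VFC_cS.contDiffOn).mul ec_VFC_cu.contDiffOn).mul
      ec_VFC_cv.contDiffOn).mul (ec_VFC_ofReal (ec_VFC_normSq ec_VFC_sinh.contDiffOn))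
  · exact ((ec_VFC_cS.contDiffOn.mul (ec_VFC_cj ec_VFC_cu.contDiffOn)).mul
      (ec_VFC_cj ec_VFC_cv.contDiffOn)).mul (ec_VFC_ofReal (ec_VFC_normSq ec_VFC_cosh.contDiffOn))
  · refine (ec_VFC_ofReal ?_).mul (ec_VFC_cosh.contDiffOn.mul
      (ec_VFC_cj ec_VFC_sinh.contDiffOn))
    exact ec_VFC_ce.contDiffOn.mul (ec_VFC_normSq ec_VFC_cv.contDiffOn)
  · refine ec_VFC_ofReal ?_
    exact (ec_VFC_norm.mul ec_VFC_sinhre.contDiffOn).div_const 2

theorem ec_VFC_Fg : ContDiffOn ℝ 1 Fg UU := by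
  unfold Fg
  have hSu : ContDiffOn ℝ 1 (fun X => (cj (cS X) * cu X).re) UU :=
    ec_VFC_re ((ec_VFC_cj ec_VFC_cS.contDiffOn).mul ec_VFC_cu.contDiffOn)
  refine ((ContDiffOn.add ?_ ?_).add ?_)
  · exact ((contDiffOn_const.mul ec_VFC_cg.contDiffOn).mul
      (ec_VFC_normSq ec_VFC_sinh.contDiffOn)).mul hSu
  · refine ContDiffOn.mul ?_ ?_
    · refine (contDiffOn_const.mul (ec_VFC_normSq ec_VFC_cS.contDiffOn)).sub ?_
      exact contDiffOn_const.div (contDiffOn_const.mul ec_VFC_norm)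
        (fun X hX => mul_ne_zero four_ne_zero (ec_VFC_norm_ne hX))
    · exact ec_VFC_re (((ec_VFC_cj ec_VFC_cosh.contDiffOn).mul ec_VFC_sinh.contDiffOn).mul
        ec_VFC_cv.contDiffOn)
  · exact ((contDiffOn_const.mul ec_VFC_coshre.contDiffOn).mul hSu).div ec_VFC_norm
      (fun X hX => ec_VFC_norm_ne hX)

/-- **VFC.** -/
theorem contDiffOn_VF_pr : ContDiffOn ℝ 1 VF UU := by
  unfold VF
  exact ec_VFC_Fu.prodMk (ec_VFC_FS.prodMk (ec_VFC_Fw.prodMk (ec_VFC_Fv.prodMk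
    (ec_VFC_Fg.prodMk (ec_VFC_cJ.prodMk contDiffOn_const)))))

/-- **VFC.** continuity of `Xin` -/
theorem continuousAt_Xin_pr {θ e : ℝ} (he : 0 ≤ e) :
    ContinuousAt (fun z : ℝ × ℝ => Xin z.1 z.2) (θ, e) := by
  unfold Xin
  have h1 : ContinuousAt (fun z : ℝ × ℝ => (1 / Real.sqrt (1 + 2 * z.2) : ℝ)) (θ, e) := by
    refine ContinuousAt.div continuousAt_const ?_ ?_
    · fun_prop
    · exact (Real.sqrt_pos.2 (by simp only; positivity)).ne'
  have h2 : ContinuousAt (fun z : ℝ × ℝ => ((1 / Real.sqrt (1 + 2 * z.2) : ℝ) : ℂ)) (θ, e) :=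
    Complex.continuous_ofReal.continuousAt.comp h1
  have h3 : ContinuousAt (fun z : ℝ × ℝ => exp ((z.1 : ℂ) * I)) (θ, e) := by fun_prop
  exact continuousAt_const.prodMk (continuousAt_const.prodMk (continuousAt_const.prodMk
    ((h2.mul h3).prodMk (continuousAt_const.prodMk (continuousAt_const.prodMk
      continuousAt_snd)))))

end Pool.Agent.Ecl
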