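import Pool.Agent.Lib_helper34.Ecl.Defs

/-! # Block ZER: simple zeros persist -/

set_option autoImplicit false

namespace Pool.Agent.Ecl

open Set Filter Topology

theorem ec_ZER_mono {f g : ℝ → ℝ} {G u v : ℝ}
    (hd : ∀ t ∈ Icc u v, HasDerivAt f (g t) t) (hpos : ∀ t ∈ Icc u v, 0 < g t * G) :
    StrictMonoOn (fun t => f t * G) (Icc u v) := by
  have hd' : ∀ t ∈ Icc u v, HasDerivAt (fun t => f t * G) (g t * G) t :=
    fun t ht => (hd t ht).mul_const G
  refine strictMonoOn_of_deriv_pos (convex_Icc u v) ?_ ?_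
  · exact fun t ht => (hd' t ht).continuousAt.continuousWithinAt
  · intro t ht
    have ht' : t ∈ Icc u v := interior_subset ht
    rw [(hd' t ht').deriv]
    exact hpos t ht'

/-- **ZER.** simple zeros persist under `C¹`-small perturbations -/
theorem zeros_persist_pr {m : ℕ} {a b : ℝ} (hab : a < b) {f0 g0 : ℝ → ℝ}
    (hd : ∀ t ∈ Icc a b, HasDerivAt f0 (g0 t) t) (hg : ContinuousOn g0 (Icc a b))
    (τ : Fin m → ℝ) (hτ : StrictMono τ) (hin : ∀ i, a < τ i ∧ τ i < b)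
    (hz : ∀ i, f0 (τ i) = 0 ∧ g0 (τ i) ≠ 0)
    (hall : ∀ t ∈ Icc a b, f0 t = 0 → ∃ i, τ i = t) {ρ : ℝ} (hρ : 0 < ρ) :
    ∃ δ > 0, ∀ f g : ℝ → ℝ, (∀ t ∈ Icc a b, HasDerivAt f (g t) t) →
      (∀ t ∈ Icc a b, |f t - f0 t| < δ ∧ |g t - g0 t| < δ) →
      ∃ τ' : Fin m → ℝ, StrictMono τ' ∧ (∀ i, a < τ' i ∧ τ' i < b ∧ |τ' i - τ i| < ρ) ∧
        (∀ i, f (τ' i) = 0 ∧ g (τ' i) ≠ 0) ∧
        ∀ t ∈ Icc a b, f t = 0 → ∃ i, τ' i = t := by
  classical
  -- choice of the radius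
  have hA : ∀ᶠ r in 𝓝[>] (0 : ℝ), r < ρ :=
    (eventually_lt_nhds hρ).filter_mono nhdsWithin_le_nhds
  have hB : ∀ᶠ r in 𝓝[>] (0 : ℝ), ∀ i : Fin m, ∀ t, |t - τ i| ≤ r →
      (a < t ∧ t < b) ∧ 0 < g0 t * g0 (τ i) := by
    rw [eventually_all]
    intro i
    have hci : ContinuousAt g0 (τ i) := hg.continuousAt (Icc_mem_nhds (hin i).1 (hin i).2)
    have hev : ∀ᶠ t in 𝓝 (τ i), (a < t ∧ t < b) ∧ 0 < g0 t * g0 (τ i) := by
      refine ((eventually_gt_nhds (hin i).1).and (eventually_lt_nhds (hin i).2)).and ?_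
      have hct : Tendsto (fun t => g0 t * g0 (τ i)) (𝓝 (τ i)) (𝓝 (g0 (τ i) * g0 (τ i))) :=
        hci.tendsto.mul_const _
      exact hct.eventually (eventually_gt_nhds (mul_self_pos.2 (hz i).2))
    obtain ⟨ε, hε, hball⟩ := Metric.eventually_nhds_iff.1 hev
    have h1 : ∀ᶠ r in 𝓝[>] (0 : ℝ), r < ε :=
      (eventually_lt_nhds hε).filter_mono nhdsWithin_le_nhds
    filter_upwards [h1] with r hr t ht
    exact hball (by rw [Real.dist_eq]; exact lt_of_le_of_lt ht hr)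
  have hC : ∀ᶠ r in 𝓝[>] (0 : ℝ), ∀ i j : Fin m, i < j → τ i + r < τ j - r := by
    rw [eventually_all]
    intro i
    rw [eventually_all]
    intro j
    by_cases hij : i < j
    · have hlt := hτ hij
      have h1 : ∀ᶠ r in 𝓝[>] (0 : ℝ), r < (τ j - τ i) / 2 :=
        (eventually_lt_nhds (by linarith)).filter_mono nhdsWithin_le_nhds
      filter_upwards [h1] with r hr _
      linarith
    · exact Eventually.of_forall fun r h => absurd h hij
  obtain ⟨r, ⟨⟨hrρ, hrB⟩, hrC⟩, hr0⟩ :=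
    (((hA.and hB).and hC).and self_mem_nhdsWithin).exists
  have hr0 : 0 < r := hr0
  have hI : ∀ i, ∀ t ∈ Icc (τ i - r) (τ i + r), |t - τ i| ≤ r := fun i t ht => by
    rw [abs_le]; exact ⟨by linarith [ht.1], by linarith [ht.2]⟩
  have hIab : ∀ i, ∀ t ∈ Icc (τ i - r) (τ i + r), t ∈ Icc a b := fun i t ht => by
    have := (hrB i t (hI i t ht)).1
    exact ⟨this.1.le, this.2.le⟩
  -- lower bounds of the derivative
  have hc : ∀ i, ∃ c > 0, ∀ t ∈ Icc (τ i - r) (τ i + r), c ≤ g0 t * g0 (τ i) := by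
    intro i
    have hne : (Icc (τ i - r) (τ i + r)).Nonempty := nonempty_Icc.2 (by linarith)
    obtain ⟨t0, ht0, hmin⟩ := isCompact_Icc.exists_isMinOn hne
      (f := fun t => g0 t * g0 (τ i))
      ((hg.mono (fun t ht => hIab i t ht)).mul continuousOn_const)
    exact ⟨_, (hrB i t0 (hI i t0 ht0)).2, fun t ht => hmin ht⟩
  choose c hc0 hcle using hc
  have hmono0 : ∀ i, StrictMonoOn (fun t => f0 t * g0 (τ i)) (Icc (τ i - r) (τ i + r)) :=
    fun i => ec_ZER_mono (fun t ht => hd t (hIab i t ht))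
      (fun t ht => (hrB i t (hI i t ht)).2)
  have hplus : ∀ i, 0 < f0 (τ i + r) * g0 (τ i) := by
    intro i
    have := hmono0 i (a := τ i) (b := τ i + r) ⟨by linarith, by linarith⟩
      ⟨by linarith, le_rfl⟩ (by linarith)
    simpa [(hz i).1] using this
  have hminus : ∀ i, f0 (τ i - r) * g0 (τ i) < 0 := by
    intro i
    have := hmono0 i (a := τ i - r) (b := τ i) ⟨le_rfl, by linarith⟩
      ⟨by linarith, by linarith⟩ (by linarith)
    simpa [(hz i).1] using this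
  -- the complement
  have hd0 : ∃ d > 0, ∀ t ∈ Icc a b, (∀ i, r ≤ |t - τ i|) → d ≤ |f0 t| := by
    by_cases hne : ({t ∈ Icc a b | ∀ i, r ≤ |t - τ i|}).Nonempty
    · have hcomp : IsCompact {t ∈ Icc a b | ∀ i, r ≤ |t - τ i|} := by
        refine isCompact_Icc.inter_right ?_
        have : {t : ℝ | ∀ i, r ≤ |t - τ i|} = ⋂ i, {t : ℝ | r ≤ |t - τ i|} := by
          ext t; simp
        change IsClosed {t : ℝ | ∀ i, r ≤ |t - τ i|}
        rw [this]
        exact isClosed_iInter fun i => isClosed_le continuous_const (by fun_prop)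
      have hcont : ContinuousOn (fun t => |f0 t|) {t ∈ Icc a b | ∀ i, r ≤ |t - τ i|} :=
        fun t ht => ((hd t ht.1).continuousAt.abs).continuousWithinAt
      obtain ⟨t0, ht0, hmin⟩ := hcomp.exists_isMinOn hne hcont
      refine ⟨|f0 t0|, ?_, fun t ht hti => hmin ⟨ht, hti⟩⟩
      rw [gt_iff_lt, abs_pos]
      intro h0
      obtain ⟨i, hi⟩ := hall t0 ht0.1 h0
      have := ht0.2 i
      rw [hi] at this
      simp at this
      linarith
    · refine ⟨1, one_pos, fun t ht hti => absurd ⟨t, ht, hti⟩ hne⟩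
  obtain ⟨d, hd0, hdle⟩ := hd0
  -- choice of delta
  have hD : ∀ᶠ δ in 𝓝[>] (0 : ℝ), ∀ i : Fin m, δ * |g0 (τ i)| < c i ∧
      δ * |g0 (τ i)| < f0 (τ i + r) * g0 (τ i) ∧ δ * |g0 (τ i)| < -(f0 (τ i - r) * g0 (τ i)) := by
    rw [eventually_all]
    intro i
    have ht : Tendsto (fun δ : ℝ => δ * |g0 (τ i)|) (𝓝[>] 0) (𝓝 0) := by
      have : Tendsto (fun δ : ℝ => δ * |g0 (τ i)|) (𝓝 0) (𝓝 (0 * |g0 (τ i)|)) :=
        tendsto_id.mul_const _
      rw [zero_mul] at this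
      exact this.mono_left nhdsWithin_le_nhds
    exact (ht.eventually (eventually_lt_nhds (hc0 i))).and
      ((ht.eventually (eventually_lt_nhds (hplus i))).and
        (ht.eventually (eventually_lt_nhds (by linarith [hminus i]))))
  have hE : ∀ᶠ δ in 𝓝[>] (0 : ℝ), δ < d :=
    (eventually_lt_nhds hd0).filter_mono nhdsWithin_le_nhds
  obtain ⟨δ, ⟨hδD, hδE⟩, hδ0⟩ := ((hD.and hE).and self_mem_nhdsWithin).exists
  have hδ0 : 0 < δ := hδ0
  refine ⟨δ, hδ0, fun f g hfd hclose => ?_⟩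
  have hgpos : ∀ i, ∀ t ∈ Icc (τ i - r) (τ i + r), 0 < g t * g0 (τ i) := by
    intro i t ht
    have h1 := hcle i t ht
    have h2 := (hclose t (hIab i t ht)).2
    have h3 : |(g t - g0 t) * g0 (τ i)| ≤ δ * |g0 (τ i)| := by
      rw [abs_mul]; exact mul_le_mul_of_nonneg_right h2.le (abs_nonneg _)
    have h4 := neg_abs_le ((g t - g0 t) * g0 (τ i))
    have h5 := (hδD i).1
    nlinarith
  have hmono : ∀ i, StrictMonoOn (fun t => f t * g0 (τ i)) (Icc (τ i - r) (τ i + r)) :=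
    fun i => ec_ZER_mono (fun t ht => hfd t (hIab i t ht)) (hgpos i)
  have hex : ∀ i, ∃ t ∈ Ioo (τ i - r) (τ i + r), f t = 0 := by
    intro i
    have hmem1 : τ i - r ∈ Icc (τ i - r) (τ i + r) := ⟨le_rfl, by linarith⟩
    have hmem2 : τ i + r ∈ Icc (τ i - r) (τ i + r) := ⟨by linarith, le_rfl⟩
    have h1 : f (τ i - r) * g0 (τ i) < 0 := by
      have h2 := (hclose _ (hIab i _ hmem1)).1
      have h3 : |(f (τ i - r) - f0 (τ i - r)) * g0 (τ i)| ≤ δ * |g0 (τ i)| := by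
        rw [abs_mul]; exact mul_le_mul_of_nonneg_right h2.le (abs_nonneg _)
      have h4 := le_abs_self ((f (τ i - r) - f0 (τ i - r)) * g0 (τ i))
      have h5 := (hδD i).2.2
      nlinarith
    have h1' : 0 < f (τ i + r) * g0 (τ i) := by
      have h2 := (hclose _ (hIab i _ hmem2)).1
      have h3 : |(f (τ i + r) - f0 (τ i + r)) * g0 (τ i)| ≤ δ * |g0 (τ i)| := by
        rw [abs_mul]; exact mul_le_mul_of_nonneg_right h2.le (abs_nonneg _)
      have h4 := neg_abs_le ((f (τ i + r) - f0 (τ i + r)) * g0 (τ i))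
      have h5 := (hδD i).2.1
      nlinarith
    have hcont : ContinuousOn (fun t => f t * g0 (τ i)) (Icc (τ i - r) (τ i + r)) :=
      fun t ht => ((hfd t (hIab i t ht)).continuousAt.mul continuousAt_const).continuousWithinAt
    obtain ⟨t, ht, htz⟩ := intermediate_value_Ioo (by linarith : τ i - r ≤ τ i + r) hcont
      (⟨h1, h1'⟩ : (0 : ℝ) ∈ Ioo (f (τ i - r) * g0 (τ i)) (f (τ i + r) * g0 (τ i)))
    exact ⟨t, ht, (mul_eq_zero.1 htz).resolve_right (hz i).2⟩
  choose τ' hτ'mem hτ'z using hex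
  refine ⟨τ', ?_, ?_, ?_, ?_⟩
  · intro i j hij
    have := hrC i j hij
    linarith [(hτ'mem i).2, (hτ'mem j).1]
  · intro i
    have h1 := (hrB i (τ' i) (hI i _ (Ioo_subset_Icc_self (hτ'mem i)))).1
    refine ⟨h1.1, h1.2, ?_⟩
    rw [abs_lt]
    exact ⟨by linarith [(hτ'mem i).1], by linarith [(hτ'mem i).2]⟩
  · intro i
    refine ⟨hτ'z i, fun h0 => ?_⟩
    have := hgpos i _ (Ioo_subset_Icc_self (hτ'mem i))
    rw [h0] at this
    simp at this
  · intro t ht htz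
    by_contra hcon
    have hnot : ∀ i, r ≤ |t - τ i| := by
      intro i
      by_contra hlt
      push Not at hlt
      rw [abs_lt] at hlt
      apply hcon
      refine ⟨i, ?_⟩
      refine (hmono i).injOn (Ioo_subset_Icc_self (hτ'mem i))
        ⟨by linarith [hlt.1], by linarith [hlt.2]⟩ ?_
      simp [hτ'z i, htz]
    have h1 := hdle t ht hnot
    have h2 := (hclose t ht).1
    rw [htz, zero_sub, abs_neg] at h2
    linarith

end Pool.Agent.Ecl
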